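import Pool.Agent.H49BJ.Tay

/-!
# Generic structures of bodies and multi-body joints: definitions

A structure is a finite set `B` of bodies together with a family `inc : ι → Finset β` of joints
(`inc j ⊆ B` is the set of the bodies that are attached to the joint `j`).  The joint `j` sits at
the generic point `gp ι j`.
-/

open Matrix Module

namespace Pool.Agent.H49BK

open Pool.Agent.H49BJ

section basic

variable {K : Type*} [Field K] {β ι : Type*}

/-- The motion space: each body gets a twist; the bodies at a joint move it in the same way. -/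
def Mo (B : Finset β) (inc : ι → Finset β) (X : ι → Pt K) : Submodule K (β → Tw K) where
  carrier := {M | (∀ b, b ∉ B → M b = 0) ∧
    ∀ j, ∀ a ∈ inc j, ∀ b ∈ inc j, ev (M a) (X j) = ev (M b) (X j)}
  add_mem' := by
    rintro M N ⟨h1, h2⟩ ⟨h3, h4⟩
    refine ⟨fun b hb => by simp [h1 b hb, h3 b hb], fun j a ha b hb => ?_⟩
    simp [ev_add_left, h2 j a ha b hb, h4 j a ha b hb]
  zero_mem' := by
    refine ⟨fun b _ => rfl, fun j a _ b _ => by simp⟩
  smul_mem' := by
    rintro c M ⟨h1, h2⟩
    refine ⟨fun b hb => by simp [h1 b hb], fun j a ha b hb => ?_⟩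
    simp [ev_smul_left, h2 j a ha b hb]

theorem mem_Mo {B : Finset β} {inc : ι → Finset β} {X : ι → Pt K} {M : β → Tw K} :
    M ∈ Mo B inc X ↔ (∀ b, b ∉ B → M b = 0) ∧
      ∀ j, ∀ a ∈ inc j, ∀ b ∈ inc j, ev (M a) (X j) = ev (M b) (X j) := Iff.rfl

/-- the motions such that in addition the twists of the bodies `a, b` relative to each other have
zero product on the points of the two joints `i, j` (a bar between a point of `a` and one of
`b`) -/
def MoBar (B : Finset β) (inc : ι → Finset β) (X : ι → Pt K) (a b : β) (i j : ι) :
    Submodule K (β → Tw K) :=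
  Mo B inc X ⊓ LinearMap.ker (barL a b (X i) (X j))

end basic

section gen

variable {β ι : Type*}

/-- No two bodies are rigidly attached to each other. -/
def NRi (B : Finset β) (inc : ι → Finset β) : Prop :=
  ∀ a ∈ B, ∀ b ∈ B, a ≠ b → ∃ M ∈ Mo B inc (gp ι), M a ≠ M b

/-- A body that is not attached to a joint does not move with the joint. -/
def Clo (B : Finset β) (inc : ι → Finset β) : Prop :=
  ∀ j, 2 ≤ (inc j).card → ∀ a ∈ inc j, ∀ b ∈ B, b ∉ inc j →
    ∃ M ∈ Mo B inc (gp ι), ev (M a) (gp ι j) ≠ ev (M b) (gp ι j)

/-- `K` is a structure without rigidly attached bodies and closed. -/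
structure Good (B : Finset β) (inc : ι → Finset β) : Prop where
  sub : ∀ j, inc j ⊆ B
  nr : NRi B inc
  clo : Clo B inc

/-- the degrees of freedom -/
noncomputable def dof (B : Finset β) (inc : ι → Finset β) : ℕ := finrank (GF ι) (Mo B inc (gp ι))

variable [DecidableEq β] [DecidableEq ι]

/-- remove the body `x` -/
def delB (x : β) (inc : ι → Finset β) : ι → Finset β := fun j => (inc j).erase x

/-- remove the joint `v` -/
def delJ (v : ι) (inc : ι → Finset β) : ι → Finset β := Function.update inc v ∅

/-- the joints at `x` which join `x` to something -/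
def Jx [Fintype ι] (inc : ι → Finset β) (x : β) : Finset ι :=
  Finset.univ.filter (fun j => x ∈ inc j ∧ 2 ≤ (inc j).card)

open Classical in
/-- The weight of a joint: it is `0` for a joint with at most one body, `6` or `5` for a joint
with two bodies (`5` if the two bodies share another joint) and `3c + ⌊(c-3)/2⌋` for a joint with
`c ≥ 3` bodies. -/
noncomputable def wt (inc : ι → Finset β) (j : ι) : ℕ :=
  if (inc j).card ≤ 1 then 0
  else if (inc j).card = 2 then (if ∃ i, i ≠ j ∧ inc j ⊆ inc i then 5 else 6)
  else 3 * (inc j).card + ((inc j).card - 3) / 2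

end gen

/-- the structure of a family of sets: joint `v` is attached to the members that contain it -/
def incOf {β V : Type*} [Fintype β] [DecidableEq V] (U : β → Finset V) (v : V) : Finset β :=
  Finset.univ.filter (fun b => v ∈ U b)

end Pool.Agent.H49BK
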