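import Pool.Agent.H49BK.Defs

/-!
# The discharging argument, purely combinatorial

`v` is a `P` joint with partner `u` (`PP inc v u`) if it joins two bodies, and both are attached to
`u` which has at least three bodies.  `v` is a `Q` joint (`QQ inc v`) if it joins two bodies that
are joined by a second joint with exactly these two bodies.
-/

open Finset

namespace Pool.Agent.H49BK

namespace Disch

variable {β ι : Type*} [DecidableEq β] [Fintype ι] [DecidableEq ι] {inc : ι → Finset β}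

/-- `v` joins two bodies that are both attached to the big joint `u` -/
def PP (inc : ι → Finset β) (v u : ι) : Prop :=
  v ≠ u ∧ (inc v).card = 2 ∧ 3 ≤ (inc u).card ∧ inc v ⊆ inc u

/-- `v` joins two bodies that are joined by another joint of the same kind -/
def QQ (inc : ι → Finset β) (v : ι) : Prop := (inc v).card = 2 ∧ ∃ i, i ≠ v ∧ inc i = inc v

/-- `v` joins two bodies that share another joint -/
def HH (inc : ι → Finset β) (v : ι) : Prop := (inc v).card = 2 ∧ ∃ i, i ≠ v ∧ inc v ⊆ inc i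

omit [DecidableEq β] [Fintype ι] [DecidableEq ι] in
theorem HH.cases {v : ι} (h : HH inc v) : (∃ u, PP inc v u) ∨ QQ inc v := by
  obtain ⟨h1, i, h2, h3⟩ := h
  have h4 := card_le_card h3
  by_cases h5 : 3 ≤ (inc i).card
  · exact Or.inl ⟨i, h2.symm, h1, h5, h3⟩
  · exact Or.inr ⟨h1, i, h2, (eq_of_subset_of_card_le h3 (by omega)).symm⟩

omit [DecidableEq β] [Fintype ι] [DecidableEq ι] in
theorem PP.hh {v u : ι} (h : PP inc v u) : HH inc v := ⟨h.2.1, u, h.1.symm, h.2.2.2⟩

omit [DecidableEq β] [Fintype ι] [DecidableEq ι] in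
theorem QQ.hh {v : ι} (h : QQ inc v) : HH inc v := by
  obtain ⟨h1, i, h2, h3⟩ := h
  exact ⟨h1, i, h2, h3.ge⟩

/-- no two bodies share three joints -/
def Two (inc : ι → Finset β) : Prop := ∀ a b : β, a ≠ b → ∀ i j k : ι, i ≠ j → i ≠ k → j ≠ k →
  (a ∈ inc i ∧ b ∈ inc i) → (a ∈ inc j ∧ b ∈ inc j) → (a ∈ inc k ∧ b ∈ inc k) → False

theorem two_of (h2 : ∀ a b, a ≠ b →
    (Finset.univ.filter (fun j => a ∈ inc j ∧ b ∈ inc j)).card ≤ 2) : Two inc := by
  intro a b hab i j k hij hik hjk hi hj hk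
  have h := h2 a b hab
  have h1 : ({i, j, k} : Finset ι) ⊆ Finset.univ.filter (fun j => a ∈ inc j ∧ b ∈ inc j) := by
    intro x hx
    simp only [mem_insert, mem_singleton] at hx
    rw [mem_filter]
    rcases hx with rfl | rfl | rfl
    · exact ⟨mem_univ _, hi⟩
    · exact ⟨mem_univ _, hj⟩
    · exact ⟨mem_univ _, hk⟩
  have h3 := card_le_card h1
  rw [card_eq_three.2 ⟨i, j, k, hij, hik, hjk, rfl⟩] at h3
  omega

omit [Fintype ι] [DecidableEq ι] in
theorem PP.unique (hT : Two inc) {v u u' : ι} (h : PP inc v u) (h' : PP inc v u') : u = u' := by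
  by_contra hne
  obtain ⟨x, y, hxy, hv⟩ := card_eq_two.1 h.2.1
  have hx : x ∈ inc v := by rw [hv]; simp
  have hy : y ∈ inc v := by rw [hv]; simp
  exact hT x y hxy v u u' h.1 h'.1 hne ⟨hx, hy⟩ ⟨h.2.2.2 hx, h.2.2.2 hy⟩
    ⟨h'.2.2.2 hx, h'.2.2.2 hy⟩

omit [Fintype ι] [DecidableEq ι] in
theorem PP.not_qq (hT : Two inc) {v u : ι} (h : PP inc v u) (h' : QQ inc v) : False := by
  obtain ⟨x, y, hxy, hv⟩ := card_eq_two.1 h.2.1
  have hx : x ∈ inc v := by rw [hv]; simp
  have hy : y ∈ inc v := by rw [hv]; simp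
  obtain ⟨h1, i, h2, h3⟩ := h'
  refine hT x y hxy v u i h.1 h2.symm ?_ ⟨hx, hy⟩ ⟨h.2.2.2 hx, h.2.2.2 hy⟩
    ⟨h3.symm ▸ hx, h3.symm ▸ hy⟩
  rintro rfl
  have := h.2.2.1
  rw [h3] at this
  omega

open Classical in
/-- the `P` joints at `x` -/
noncomputable def Pn (inc : ι → Finset β) (x : β) : Finset ι :=
  univ.filter (fun v => x ∈ inc v ∧ ∃ u, PP inc v u)

open Classical in
/-- the `Q` joints at `x` -/
noncomputable def Qn (inc : ι → Finset β) (x : β) : Finset ι :=
  univ.filter (fun v => x ∈ inc v ∧ QQ inc v)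

omit [DecidableEq ι] in
theorem mem_Pn {x : β} {v : ι} : v ∈ Pn inc x ↔ x ∈ inc v ∧ ∃ u, PP inc v u := by
  simp [Pn]

omit [DecidableEq ι] in
theorem mem_Qn {x : β} {v : ι} : v ∈ Qn inc x ↔ x ∈ inc v ∧ QQ inc v := by
  simp [Qn]

theorem mem_Jx {x : β} {v : ι} : v ∈ Jx inc x ↔ x ∈ inc v ∧ 2 ≤ (inc v).card := by
  simp [Jx]

theorem Pn_sub (x : β) : Pn inc x ⊆ Jx inc x := by
  intro v hv
  rw [mem_Pn] at hv
  obtain ⟨h1, u, h2⟩ := hv
  exact mem_Jx.2 ⟨h1, h2.2.1.ge⟩

theorem Qn_sub (x : β) : Qn inc x ⊆ Jx inc x := by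
  intro v hv
  rw [mem_Qn] at hv
  exact mem_Jx.2 ⟨hv.1, hv.2.1.ge⟩

theorem disj_PQ (hT : Two inc) (x : β) : Disjoint (Pn inc x) (Qn inc x) := by
  rw [Finset.disjoint_left]
  intro v hv hv'
  rw [mem_Pn] at hv
  rw [mem_Qn] at hv'
  obtain ⟨-, u, h2⟩ := hv
  exact h2.not_qq hT hv'.2

theorem partner_mem {x : β} {v u : ι} (hx : x ∈ inc v) (h : PP inc v u) : u ∈ Jx inc x :=
  mem_Jx.2 ⟨h.2.2.2 hx, by have := h.2.2.1; omega⟩

theorem partner_not_P {x : β} {v u : ι} (h : PP inc v u) : u ∉ Pn inc x := by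
  intro h1
  rw [mem_Pn] at h1
  obtain ⟨-, w, h2⟩ := h1
  have := h.2.2.1
  have := h2.2.1
  omega

theorem partner_not_Q {x : β} {v u : ι} (h : PP inc v u) : u ∉ Qn inc x := by
  intro h1
  rw [mem_Qn] at h1
  have := h.2.2.1
  have := h1.2.1
  omega

theorem card_PQ (hT : Two inc) (x : β) :
    (Pn inc x).card + (Qn inc x).card ≤ (Jx inc x).card := by
  rw [← card_union_of_disjoint (disj_PQ hT x)]
  exact card_le_card (union_subset (Pn_sub x) (Qn_sub x))

theorem card_PQ' (hT : Two inc) (x : β) (hP : 1 ≤ (Pn inc x).card) :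
    (Pn inc x).card + (Qn inc x).card + 1 ≤ (Jx inc x).card := by
  obtain ⟨v, hv⟩ := card_pos.1 hP
  rw [mem_Pn] at hv
  obtain ⟨h1, u, h2⟩ := hv
  rw [← card_union_of_disjoint (disj_PQ hT x), ← card_insert_of_notMem (a := u)]
  · refine card_le_card (insert_subset (partner_mem h1 h2) (union_subset (Pn_sub x) (Qn_sub x)))
  · rw [mem_union, not_or]
    exact ⟨partner_not_P h2, partner_not_Q h2⟩

theorem card_Q (x : β) (hQ : 1 ≤ (Qn inc x).card) : 2 ≤ (Qn inc x).card := by
  obtain ⟨v, hv⟩ := card_pos.1 hQ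
  have hv' := hv
  rw [mem_Qn] at hv
  obtain ⟨h1, h2, i, h3, h4⟩ := hv
  have hi : i ∈ Qn inc x := by
    rw [mem_Qn]
    exact ⟨h4.symm ▸ h1, by rw [h4]; exact h2, v, h3.symm, h4.symm⟩
  rw [← card_pair h3]
  exact card_le_card (insert_subset hi (singleton_subset_iff.2 hv'))

/-- full bodies -/
def Full (inc : ι → Finset β) (x : β) : Prop := (Jx inc x).card = 5 ∧ (Pn inc x).card = 4

theorem Full.eq {x : β} (h : Full inc x) {v u : ι} (hx : x ∈ inc v) (hv : PP inc v u) :
    Jx inc x = insert u (Pn inc x) := by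
  symm
  apply eq_of_subset_of_card_le (insert_subset (partner_mem hx hv) (Pn_sub x))
  rw [card_insert_of_notMem (partner_not_P hv), h.1, h.2]

theorem Full.partner {x : β} (h : Full inc x) {v u v' u' : ι} (hx : x ∈ inc v)
    (hv : PP inc v u) (hx' : x ∈ inc v') (hv' : PP inc v' u') : u = u' := by
  have h1 := h.eq hx hv
  have h2 := partner_mem hx' hv'
  rw [h1, mem_insert] at h2
  rcases h2 with h2 | h2
  · exact h2.symm
  · exact absurd h2 (partner_not_P hv')

theorem Full.not_Q (hT : Two inc) {x : β} (h : Full inc x) {v : ι} (hx : x ∈ inc v)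
    (hv : QQ inc v) : False := by
  have h1 := card_PQ' hT x (by rw [h.2]; omega)
  have h2 : 1 ≤ (Qn inc x).card := card_pos.2 ⟨v, mem_Qn.2 ⟨hx, hv⟩⟩
  have := h.1
  have := h.2
  omega

open Classical in
/-- the payment of `x` to the joint `v` in half units -/
noncomputable def pay (inc : ι → Finset β) (x : β) (v : ι) : ℕ :=
  if 6 ≤ (Jx inc x).card then 2
  else if (Jx inc x).card = 5 ∧ ¬ Full inc x then (if ∃ u, PP inc v u then 2 else 1)
  else 0

open Classical in
/-- the joints that have to be paid -/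
noncomputable def VV (inc : ι → Finset β) : Finset ι := univ.filter (fun v => HH inc v)

open Classical in
theorem pay_total (hT : Two inc) (x : β) (h4 : 4 ≤ (Jx inc x).card) :
    (∑ v ∈ (VV inc).filter (fun v => x ∈ inc v), pay inc x v) +
      (if Full inc x then 6 else 0) + 24 ≤ 6 * (Jx inc x).card := by
  have hset : (VV inc).filter (fun v => x ∈ inc v) = Pn inc x ∪ Qn inc x := by
    ext v
    rw [mem_filter, mem_union, mem_Pn, mem_Qn, VV, mem_filter]
    constructor
    · rintro ⟨⟨-, h1⟩, h2⟩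
      rcases h1.cases with h3 | h3
      · exact Or.inl ⟨h2, h3⟩
      · exact Or.inr ⟨h2, h3⟩
    · rintro (⟨h1, u, h2⟩ | ⟨h1, h2⟩)
      · exact ⟨⟨mem_univ _, h2.hh⟩, h1⟩
      · exact ⟨⟨mem_univ _, h2.hh⟩, h1⟩
  rw [hset, sum_union (disj_PQ hT x)]
  have hPQ := card_PQ hT x
  have hPQ' := card_PQ' hT x
  have hQ2 := card_Q (inc := inc) x
  by_cases h6 : 6 ≤ (Jx inc x).card
  · have e1 : ∀ v, pay inc x v = 2 := fun v => by rw [pay, if_pos h6]
    simp only [e1, sum_const, smul_eq_mul]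
    have hF : ¬ Full inc x := fun h => by have := h.1; omega
    rw [if_neg hF]
    omega
  · by_cases hF : Full inc x
    · have e1 : ∀ v, pay inc x v = 0 := fun v => by
        rw [pay, if_neg h6, if_neg (fun h => h.2 hF)]
      simp only [e1, sum_const_zero]
      rw [if_pos hF]
      have := hF.1
      omega
    · rw [if_neg hF]
      by_cases h5 : (Jx inc x).card = 5
      · have e1 : ∑ v ∈ Pn inc x, pay inc x v = ∑ v ∈ Pn inc x, 2 := by
          refine sum_congr rfl fun v hv => ?_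
          rw [mem_Pn] at hv
          rw [pay, if_neg h6, if_pos ⟨h5, hF⟩, if_pos hv.2]
        have e2 : ∑ v ∈ Qn inc x, pay inc x v = ∑ v ∈ Qn inc x, 1 := by
          refine sum_congr rfl fun v hv => ?_
          rw [mem_Qn] at hv
          rw [pay, if_neg h6, if_pos ⟨h5, hF⟩, if_neg]
          rintro ⟨u, hu⟩
          exact hu.not_qq hT hv.2
        rw [e1, e2, sum_const, sum_const, smul_eq_mul, smul_eq_mul]
        have hP4 : (Pn inc x).card ≠ 4 := fun h => hF ⟨h5, h⟩
        omega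
      · have e1 : ∀ v, pay inc x v = 0 := fun v => by
          rw [pay, if_neg h6, if_neg (fun h => h5 h.1)]
        simp only [e1, sum_const_zero]
        omega

open Classical in
/-- the joints that do not get their payment -/
noncomputable def Un (inc : ι → Finset β) : Finset ι :=
  (VV inc).filter (fun v => ∑ x ∈ inc v, pay inc x v < 2)

theorem unpaid (hT : Two inc) {B : Finset β} (hsub : ∀ j, inc j ⊆ B)
    (h4 : ∀ b ∈ B, 4 ≤ (Jx inc b).card)
    (hQ : ∀ i j, i ≠ j → inc i = inc j → ∀ x y, x ≠ y → inc i = {x, y} →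
      10 ≤ (Jx inc x).card + (Jx inc y).card)
    (hP : ∀ v u, v ≠ u → ∀ x y, x ≠ y → inc v = {x, y} → 3 ≤ (inc u).card → x ∈ inc u →
      y ∈ inc u → ¬ ((Jx inc x).card = 4 ∧ (Jx inc y).card = 4))
    {v : ι} (hv : v ∈ Un inc) : ∃ u, PP inc v u ∧ ∃ x ∈ inc v, Full inc x := by
  classical
  rw [Un, mem_filter, VV, mem_filter] at hv
  obtain ⟨⟨-, h1⟩, h2⟩ := hv
  obtain ⟨x, y, hxy, hvxy⟩ := card_eq_two.1 h1.1
  have hx : x ∈ inc v := by rw [hvxy]; simp
  have hy : y ∈ inc v := by rw [hvxy]; simp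
  rw [hvxy, sum_pair hxy] at h2
  have hx4 := h4 x (hsub v hx)
  have hy4 := h4 y (hsub v hy)
  rcases h1.cases with ⟨u, h3⟩ | h3
  · refine ⟨u, h3, ?_⟩
    by_contra hno
    push Not at hno
    have hFx := hno x hx
    have hFy := hno y hy
    have key : ∀ z, ¬ Full inc z → 5 ≤ (Jx inc z).card → pay inc z v = 2 := by
      intro z hz h5
      unfold pay
      by_cases h6 : 6 ≤ (Jx inc z).card
      · rw [if_pos h6]
      · rw [if_neg h6, if_pos ⟨by omega, hz⟩, if_pos ⟨u, h3⟩]
    have h5 := hP v u h3.1 x y hxy hvxy h3.2.2.1 (h3.2.2.2 hx) (h3.2.2.2 hy)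
    by_cases hx5 : 5 ≤ (Jx inc x).card
    · have := key x hFx hx5
      omega
    · have := key y hFy (by omega)
      omega
  · exfalso
    have hFx : ¬ Full inc x := fun h => h.not_Q hT hx h3
    have hFy : ¬ Full inc y := fun h => h.not_Q hT hy h3
    obtain ⟨-, i, hi, hi'⟩ := h3
    have h10 := hQ v i hi.symm hi'.symm x y hxy hvxy
    have key : ∀ z, ¬ Full inc z → (6 ≤ (Jx inc z).card → pay inc z v = 2) ∧
        ((Jx inc z).card = 5 → 1 ≤ pay inc z v) := by
      intro z hz
      constructor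
      · intro h6
        rw [pay, if_pos h6]
      · intro h5
        rw [pay, if_neg (by omega), if_pos ⟨h5, hz⟩]
        split_ifs <;> omega
    obtain ⟨kx, kx'⟩ := key x hFx
    obtain ⟨ky, ky'⟩ := key y hFy
    by_cases hx6 : 6 ≤ (Jx inc x).card
    · have := kx hx6
      omega
    · by_cases hy6 : 6 ≤ (Jx inc y).card
      · have := ky hy6
        omega
      · have := kx' (by omega)
        have := ky' (by omega)
        omega

open Classical in
/-- the unpaid joints with partner `u` -/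
noncomputable def EE (inc : ι → Finset β) (u : ι) : Finset ι :=
  (Un inc).filter (fun v => PP inc v u)

open Classical in
/-- the full bodies whose partner is `u` -/
noncomputable def FF (B : Finset β) (inc : ι → Finset β) (u : ι) : Finset β :=
  B.filter (fun x => Full inc x ∧ ∃ v, PP inc v u ∧ x ∈ inc v)

theorem card_EE (hT : Two inc) {B : Finset β} (hsub : ∀ j, inc j ⊆ B)
    (h4 : ∀ b ∈ B, 4 ≤ (Jx inc b).card)
    (hQ : ∀ i j, i ≠ j → inc i = inc j → ∀ x y, x ≠ y → inc i = {x, y} →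
      10 ≤ (Jx inc x).card + (Jx inc y).card)
    (hP : ∀ v u, v ≠ u → ∀ x y, x ≠ y → inc v = {x, y} → 3 ≤ (inc u).card → x ∈ inc u →
      y ∈ inc u → ¬ ((Jx inc x).card = 4 ∧ (Jx inc y).card = 4))
    (hLS : ∀ u, 3 ≤ (inc u).card → ∀ S ⊆ inc u, 2 ≤ S.card →
      2 * (Finset.univ.filter (fun v => v ≠ u ∧ (inc v).card = 2 ∧ inc v ⊆ S)).card + 4
        ≤ 3 * S.card) (u : ι) (hu : 3 ≤ (inc u).card) :
    (EE inc u).card ≤ 3 * (FF B inc u).card + ((inc u).card - 3) / 2 := by
  classical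
  rcases (EE inc u).eq_empty_or_nonempty with h0 | ⟨v0, hv0⟩
  · rw [h0]; simp
  -- every unpaid joint has an end in `FF`
  have hend : ∀ v ∈ EE inc u, PP inc v u ∧ ∃ x ∈ FF B inc u, x ∈ inc v := by
    intro v hv
    rw [EE, mem_filter] at hv
    obtain ⟨w, h1, x, h2, h3⟩ := unpaid hT hsub h4 hQ hP hv.1
    refine ⟨hv.2, x, ?_, h2⟩
    rw [FF, mem_filter]
    exact ⟨hsub v h2, h3, v, hv.2, h2⟩
  have hFu : FF B inc u ⊆ inc u := by
    intro x hx
    rw [FF, mem_filter] at hx
    obtain ⟨-, -, v, h1, h2⟩ := hx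
    exact h1.2.2.2 h2
  set T : Finset β := (EE inc u).biUnion inc ∪ FF B inc u with hTdef
  have hTu : T ⊆ inc u := by
    rw [hTdef]
    refine union_subset ?_ hFu
    intro x hx
    rw [mem_biUnion] at hx
    obtain ⟨v, h1, h2⟩ := hx
    exact (hend v h1).1.2.2.2 h2
  have hvT : ∀ v ∈ EE inc u, inc v ⊆ T := by
    intro v hv
    rw [hTdef]
    exact (subset_biUnion_of_mem inc hv).trans subset_union_left
  have hT2 : 2 ≤ T.card := by
    rw [← (hend v0 hv0).1.2.1]
    exact card_le_card (hvT v0 hv0)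
  have hTc : T.card ≤ (inc u).card := card_le_card hTu
  have hLS' := hLS u hu T hTu hT2
  have hEsub : EE inc u ⊆ Finset.univ.filter (fun v => v ≠ u ∧ (inc v).card = 2 ∧ inc v ⊆ T) := by
    intro v hv
    rw [mem_filter]
    exact ⟨mem_univ _, (hend v hv).1.1, (hend v hv).1.2.1, hvT v hv⟩
  have hE1 := card_le_card hEsub
  -- at most four joints for each full body
  have hE4 : (EE inc u).card ≤ 4 * (FF B inc u).card := by
    have h1 : EE inc u ⊆ (FF B inc u).biUnion (fun x => Pn inc x) := by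
      intro v hv
      obtain ⟨h1, x, h2, h3⟩ := hend v hv
      rw [mem_biUnion]
      exact ⟨x, h2, mem_Pn.2 ⟨h3, u, h1⟩⟩
    have h2 := (card_le_card h1).trans card_biUnion_le
    have h3 : ∑ x ∈ FF B inc u, (Pn inc x).card = ∑ x ∈ FF B inc u, 4 := by
      refine sum_congr rfl fun x hx => ?_
      rw [FF, mem_filter] at hx
      exact hx.2.1.2
    rw [h3, sum_const, smul_eq_mul] at h2
    omega
  -- one full body
  have hm1 : (FF B inc u).card = 1 → (EE inc u).card + 1 ≤ T.card := by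
    intro hm
    obtain ⟨x, hx⟩ := card_eq_one.1 hm
    have hxv : ∀ v ∈ EE inc u, x ∈ inc v := by
      intro v hv
      obtain ⟨h1, y, h2, h3⟩ := hend v hv
      rw [hx, mem_singleton] at h2
      rwa [← h2]
    have hxT : x ∈ T := by
      rw [hTdef, mem_union, hx]
      exact Or.inr (mem_singleton_self _)
    have hdisj : ((EE inc u : Finset ι) : Set ι).PairwiseDisjoint
        (fun v => (inc v).erase x) := by
      intro v hv v' hv' hne
      rw [Function.onFun, Finset.disjoint_left]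
      intro y hy hy'
      rw [mem_erase] at hy hy'
      have a1 := (hend v hv).1
      have a2 := (hend v' hv').1
      exact hT x y hy.1.symm v v' u hne a1.1 a2.1 ⟨hxv v hv, hy.2⟩ ⟨hxv v' hv', hy'.2⟩
        ⟨a1.2.2.2 (hxv v hv), a1.2.2.2 hy.2⟩
    have h1 : ((EE inc u).biUnion (fun v => (inc v).erase x)).card = (EE inc u).card := by
      rw [card_biUnion hdisj, card_eq_sum_ones]
      refine sum_congr rfl fun v hv => ?_
      rw [card_erase_of_mem (hxv v hv), (hend v hv).1.2.1]
    have h2 : (EE inc u).biUnion (fun v => (inc v).erase x) ⊆ T.erase x := by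
      intro y hy
      rw [mem_biUnion] at hy
      obtain ⟨v, h1, h2⟩ := hy
      rw [mem_erase] at h2 ⊢
      exact ⟨h2.1, hvT v h1 h2.2⟩
    have h3 := card_le_card h2
    rw [h1, card_erase_of_mem hxT] at h3
    omega
  omega

end Disch

open Disch in
theorem discharge {β ι : Type*} [DecidableEq β] [Fintype ι] [DecidableEq ι]
    (B : Finset β) (inc : ι → Finset β) (hsub : ∀ j, inc j ⊆ B)
    (h4 : ∀ b ∈ B, 4 ≤ (Jx inc b).card)
    (h2 : ∀ a b, a ≠ b → (Finset.univ.filter (fun j => a ∈ inc j ∧ b ∈ inc j)).card ≤ 2)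
    (hQ : ∀ i j, i ≠ j → inc i = inc j → ∀ x y, x ≠ y → inc i = {x, y} →
      10 ≤ (Jx inc x).card + (Jx inc y).card)
    (hP : ∀ v u, v ≠ u → ∀ x y, x ≠ y → inc v = {x, y} → 3 ≤ (inc u).card → x ∈ inc u →
      y ∈ inc u → ¬ ((Jx inc x).card = 4 ∧ (Jx inc y).card = 4))
    (hLS : ∀ u, 3 ≤ (inc u).card → ∀ S ⊆ inc u, 2 ≤ S.card →
      2 * (Finset.univ.filter (fun v => v ≠ u ∧ (inc v).card = 2 ∧ inc v ⊆ S)).card + 4
        ≤ 3 * S.card) :
    12 * B.card ≤ ∑ j, wt inc j := by
  classical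
  have hT := two_of h2
  -- (5) the weights
  have hw : ∑ j, wt inc j + (VV inc).card =
      3 * (∑ j : ι, if 2 ≤ (inc j).card then (inc j).card else 0) +
        ∑ j ∈ univ.filter (fun j => 3 ≤ (inc j).card), ((inc j).card - 3) / 2 := by
    rw [VV, card_filter, sum_filter, ← sum_add_distrib, mul_sum, ← sum_add_distrib]
    refine sum_congr rfl fun j _ => ?_
    unfold wt
    by_cases c1 : (inc j).card ≤ 1
    · have n1 : ¬ HH inc j := fun h => by have := h.1; omega
      have n2 : ¬ 2 ≤ (inc j).card := by omega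
      have n3 : ¬ 3 ≤ (inc j).card := by omega
      rw [if_pos c1, if_neg n1, if_neg n2, if_neg n3]
      omega
    · have n2 : 2 ≤ (inc j).card := by omega
      by_cases c2 : (inc j).card = 2
      · have n3 : ¬ 3 ≤ (inc j).card := by omega
        rw [if_neg c1, if_pos c2, if_pos n2, if_neg n3]
        by_cases c3 : ∃ i, i ≠ j ∧ inc j ⊆ inc i
        · have n1 : HH inc j := ⟨c2, c3⟩
          rw [if_pos c3, if_pos n1]
          omega
        · have n1 : ¬ HH inc j := fun h => c3 h.2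
          rw [if_neg c3, if_neg n1]
          omega
      · have n1 : ¬ HH inc j := fun h => c2 h.1
        have n3 : 3 ≤ (inc j).card := by omega
        rw [if_neg c1, if_neg c2, if_neg n1, if_pos n2, if_pos n3]
        omega
  -- (6) double counting of the degrees
  have hd : ∑ b ∈ B, (Jx inc b).card = ∑ j : ι, if 2 ≤ (inc j).card then (inc j).card else 0 := by
    have e1 : ∀ b, (Jx inc b).card = ∑ j : ι, if b ∈ inc j ∧ 2 ≤ (inc j).card then 1 else 0 := by
      intro b
      rw [Jx, card_filter]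
    simp only [e1]
    rw [sum_comm]
    refine sum_congr rfl fun j _ => ?_
    by_cases c : 2 ≤ (inc j).card
    · rw [if_pos c]
      simp only [c, and_true]
      rw [← card_filter]
      congr 1
      ext b
      rw [mem_filter]
      exact ⟨fun h => h.2, fun h => ⟨hsub j h, h⟩⟩
    · rw [if_neg c]
      simp only [c, and_false, if_false, sum_const_zero]
  -- (1), (2) the payments
  have hpay : ∑ v ∈ VV inc, ∑ x ∈ inc v, pay inc x v + 6 * (B.filter (fun x => Full inc x)).card
      + 24 * B.card ≤ 6 * ∑ b ∈ B, (Jx inc b).card := by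
    have e1 : ∑ v ∈ VV inc, ∑ x ∈ inc v, pay inc x v =
        ∑ b ∈ B, ∑ v ∈ (VV inc).filter (fun v => b ∈ inc v), pay inc b v := by
      have e2 : ∀ v ∈ VV inc, ∑ x ∈ inc v, pay inc x v =
          ∑ x ∈ B, if x ∈ inc v then pay inc x v else 0 := by
        intro v _
        rw [← sum_filter]
        refine sum_congr ?_ fun _ _ => rfl
        ext b
        rw [mem_filter]
        exact ⟨fun h => ⟨hsub v h, h⟩, fun h => h.2⟩
      rw [sum_congr rfl e2, sum_comm]
      refine sum_congr rfl fun b _ => ?_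
      rw [sum_filter]
    have e3 : 6 * (B.filter (fun x => Full inc x)).card = ∑ b ∈ B, if Full inc b then 6 else 0 := by
      rw [card_filter, mul_sum]
      refine sum_congr rfl fun b _ => ?_
      split_ifs <;> rfl
    have e4 : 24 * B.card = ∑ b ∈ B, 24 := by rw [sum_const, smul_eq_mul, mul_comm]
    rw [e1, e3, e4, mul_sum, ← sum_add_distrib, ← sum_add_distrib]
    exact sum_le_sum fun b hb => pay_total hT b (h4 b hb)
  -- (3)
  have hV : 2 * (VV inc).card ≤ ∑ v ∈ VV inc, ∑ x ∈ inc v, pay inc x v + 2 * (Un inc).card := by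
    rw [Un, card_filter, mul_sum, ← sum_add_distrib, card_eq_sum_ones, mul_sum]
    refine sum_le_sum fun v _ => ?_
    split_ifs <;> omega
  -- (4)
  have hU : (Un inc).card ≤ 3 * (B.filter (fun x => Full inc x)).card +
      ∑ j ∈ univ.filter (fun j => 3 ≤ (inc j).card), ((inc j).card - 3) / 2 := by
    have h1 : Un inc ⊆ (univ.filter (fun j => 3 ≤ (inc j).card)).biUnion (fun u => EE inc u) := by
      intro v hv
      obtain ⟨u, h3, -⟩ := unpaid hT hsub h4 hQ hP hv
      rw [mem_biUnion]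
      refine ⟨u, ?_, ?_⟩
      · rw [mem_filter]; exact ⟨mem_univ _, h3.2.2.1⟩
      · rw [EE, mem_filter]; exact ⟨hv, h3⟩
    have h3 := (card_le_card h1).trans card_biUnion_le
    have h5 : ∑ u ∈ univ.filter (fun j => 3 ≤ (inc j).card), (EE inc u).card ≤
        ∑ u ∈ univ.filter (fun j => 3 ≤ (inc j).card),
          (3 * (FF B inc u).card + ((inc u).card - 3) / 2) := by
      refine sum_le_sum fun u hu => ?_
      rw [mem_filter] at hu
      exact card_EE hT hsub h4 hQ hP hLS u hu.2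
    rw [sum_add_distrib, ← mul_sum] at h5
    have h6 : ∑ u ∈ univ.filter (fun j => 3 ≤ (inc j).card), (FF B inc u).card ≤
        (B.filter (fun x => Full inc x)).card := by
      rw [← card_biUnion]
      · refine card_le_card ?_
        intro x hx
        rw [mem_biUnion] at hx
        obtain ⟨u, -, hx⟩ := hx
        rw [FF, mem_filter] at hx
        rw [mem_filter]
        exact ⟨hx.1, hx.2.1⟩
      · intro u _ u' _ hne
        rw [Function.onFun, Finset.disjoint_left]
        intro x hx hx'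
        rw [FF, mem_filter] at hx hx'
        obtain ⟨-, g1, v, g2, g3⟩ := hx
        obtain ⟨-, -, v', g2', g3'⟩ := hx'
        exact hne (g1.partner g3 g2 g3' g2')
    omega
  rw [hd] at hpay
  omega

end Pool.Agent.H49BK
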