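import Pool.Agent.H49BK.Ext2

/-!
# Removing a body with three joints, one of which has at least three bodies
-/

open Matrix Module

namespace Pool.Agent.H49BK

open Pool.Agent.H49BJ

set_option linter.unusedSectionVars false

section gen

variable {β ι : Type*} [Fintype β] [DecidableEq β] [Fintype ι] [DecidableEq ι]

theorem wtx_le_six {inc : ι → Finset β} {j : ι} (h : (inc j).card = 2) : wt inc j ≤ 6 := by
  unfold wt
  rw [if_neg (by omega), if_pos h]
  split_ifs <;> omega

theorem wtx_hinge {inc : ι → Finset β} {i j : ι} (h : (inc j).card = 2) (hij : i ≠ j)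
    (hsub : inc j ⊆ inc i) : wt inc j = 5 := by
  unfold wt
  rw [if_neg (by omega), if_pos h, if_pos ⟨i, hij, hsub⟩]

theorem wtx_drop {inc : ι → Finset β} {x : β} {j : ι} (hx : x ∈ inc j) (h : 3 ≤ (inc j).card) :
    wt inc j ≤ wt (H49BK.delB x inc) j + 4 := by
  have hc : (H49BK.delB x inc j).card = (inc j).card - 1 := Finset.card_erase_of_mem hx
  unfold wt
  rw [if_neg (by omega), if_neg (by omega), hc, if_neg (by omega)]
  split_ifs <;> omega

/-- the other body of a joint with two bodies -/
theorem exists_other {s : Finset β} {x : β} (hx : x ∈ s) (h : s.card = 2) :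
    ∃ a, x ≠ a ∧ s = {x, a} := by
  obtain ⟨a, ha, hax⟩ := Finset.exists_mem_ne (by omega : 1 < s.card) x
  refine ⟨a, hax.symm, (Finset.eq_of_subset_of_card_le ?_ ?_).symm⟩
  · intro y hy
    simp only [Finset.mem_insert, Finset.mem_singleton] at hy
    rcases hy with rfl | rfl
    · exact hx
    · exact ha
  · rw [h, Finset.card_pair hax.symm]

/-- a body with three joints, one of which has at least three bodies -/
theorem extU {B : Finset β} {inc : ι → Finset β} (h : Good B inc) {x : β} {u p r : ι}
    (hup : u ≠ p) (hur : u ≠ r) (hpr : p ≠ r) (hJ : Jx inc x = {u, p, r})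
    (hu : 3 ≤ (inc u).card) :
    2 * dof B inc + wt inc p + wt inc r ≤ 2 * dof (B.erase x) (H49BK.delB x inc)
      + wt (H49BK.delB x inc) p + wt (H49BK.delB x inc) r + 8 := by
  have hxu := (mem_Jx.1 (show u ∈ Jx inc x by rw [hJ]; simp))
  have hxp := (mem_Jx.1 (show p ∈ Jx inc x by rw [hJ]; simp))
  have hxr := (mem_Jx.1 (show r ∈ Jx inc x by rw [hJ]; simp))
  have h3 : dof B inc ≤ dof (B.erase x) (H49BK.delB x inc) := by
    apply ext3 h.sub x
    rw [hJ, Finset.card_eq_three.2 ⟨u, p, r, hup, hur, hpr, rfl⟩]
  -- one joint with two bodies and one with more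
  have mixed : ∀ p r : ι, u ≠ p → u ≠ r → p ≠ r → x ∈ inc p → (inc p).card = 2 → x ∈ inc r →
      3 ≤ (inc r).card → dof B inc + 1 ≤ dof (B.erase x) (H49BK.delB x inc) := by
    intro p r hup hur hpr hxp hcp hxr hcr
    obtain ⟨a, hxa, hp⟩ := exists_other hxp hcp
    have hap : a ∈ inc p := by rw [hp]; simp
    by_cases hau : a ∈ inc u
    · have har : a ∉ inc r := fun har =>
        common_false h.sub h.nr hxa hup hur hpr hxu.1 hau hxp hap hxr har
      exact extB h hxa hpr.symm hur.symm hup.symm hxr (by omega) har hp hxu.1 hxu.2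
    · exact extB h hxa hup hur hpr hxu.1 hxu.2 hau hp hxr (by omega)
  rcases (show (inc p).card = 2 ∨ 3 ≤ (inc p).card by omega) with hcp | hcp
  · rcases (show (inc r).card = 2 ∨ 3 ≤ (inc r).card by omega) with hcr | hcr
    · obtain ⟨a, hxa, hp⟩ := exists_other hxp.1 hcp
      obtain ⟨b, hxb, hr⟩ := exists_other hxr.1 hcr
      have hap : a ∈ inc p := by rw [hp]; simp
      have hbr : b ∈ inc r := by rw [hr]; simp
      have hwp := wtx_le_six hcp
      have hwr := wtx_le_six hcr
      by_cases hab : a = b
      · subst hab
        have hau : a ∉ inc u := fun hau =>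
          common_false h.sub h.nr hxa hup hur hpr hxu.1 hau hxp.1 hap hxr.1 hbr
        have e1 := extB h hxa hup hur hpr hxu.1 hxu.2 hau hp hxr.1 hxr.2
        have e2 := wtx_hinge hcp hpr.symm (by rw [hp, hr])
        have e3 := wtx_hinge hcr hpr (by rw [hp, hr])
        omega
      · by_cases hau : a ∈ inc u
        · by_cases hbu : b ∈ inc u
          · have e1 := extA3 h.sub h.nr hxa hxb hab hup hur hpr hxu.1 hau hbu hp hr
            have e2 := wtx_hinge hcp hup (by
              rw [hp]
              intro y hy
              simp only [Finset.mem_insert, Finset.mem_singleton] at hy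
              rcases hy with rfl | rfl
              · exact hxu.1
              · exact hau)
            have e3 := wtx_hinge hcr hur (by
              rw [hr]
              intro y hy
              simp only [Finset.mem_insert, Finset.mem_singleton] at hy
              rcases hy with rfl | rfl
              · exact hxu.1
              · exact hbu)
            omega
          · have e1 := extV2 h hxb hxa (Ne.symm hab) hur hup hpr.symm hxu.1 hxu.2 hbu hr hp
            omega
        · have e1 := extV2 h hxa hxb hab hup hur hpr hxu.1 hxu.2 hau hp hr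
          omega
    · have e1 := mixed p r hup hur hpr hxp.1 hcp hxr.1 hcr
      have e2 := wtx_le_six hcp
      have e3 := wtx_drop hxr.1 hcr
      omega
  · rcases (show (inc r).card = 2 ∨ 3 ≤ (inc r).card by omega) with hcr | hcr
    · have e1 := mixed r p hur hup hpr.symm hxr.1 hcr hxp.1 hcp
      have e2 := wtx_le_six hcr
      have e3 := wtx_drop hxp.1 hcp
      omega
    · have e2 := wtx_drop hxp.1 hcp
      have e3 := wtx_drop hxr.1 hcr
      omega

end gen

end Pool.Agent.H49BK
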