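import Pool.Agent.H49BK.Defs
import Pool.Agent.H49BJ.Integ

/-!
# Integrability for multi-body joints (R2)
-/

open Matrix Module

namespace Pool.Agent.H49BK

open Pool.Agent.H49BJ

variable {β ι : Type*}

/-- If the relative twists of `a, c` and of `a, b` are proportional on the generic motion space,
the factor is `0` or `1`. -/
theorem lambda_zero_or_one_Mo (B : Finset β) (inc : ι → Finset β) (hsub : ∀ j, inc j ⊆ B)
    {a b c : β} (ha : a ∈ B) (hb : b ∈ B) (hc : c ∈ B) (lam : GF ι)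
    (hlam : ∀ M ∈ Mo B inc (gp ι), M c - M a = lam • (M b - M a))
    (hli : ∃ M₁ ∈ Mo B inc (gp ι), ∃ M₂ ∈ Mo B inc (gp ι),
      LinearIndependent (GF ι) ![M₁ b - M₁ a, M₂ b - M₂ a]) :
    lam = 0 ∨ lam = 1 := by
  classical
  obtain ⟨M₁, hM₁, M₂, hM₂, hli⟩ := hli
  obtain ⟨z, hz⟩ := Integ.exists_vec hli
  -- normalisation
  have hnorm : ∀ M ∈ Mo B inc (gp ι), ∃ N ∈ Mo B inc (gp ι), N a = 0 ∧
      N b = M b - M a ∧ N c = M c - M a := by
    intro M hM
    refine ⟨fun x => if x ∈ B then M x - M a else 0, ⟨?_, ?_⟩, ?_, ?_, ?_⟩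
    · intro x hx
      simp [hx]
    · intro j x hx y hy
      have h1 := hM.2 j x hx y hy
      simp only [hsub j hx, hsub j hy, if_true, ev_sub_left, h1]
    · simp [ha]
    · simp [hb]
    · simp [hc]
  obtain ⟨N₁, hN₁, ha₁, hb₁, hc₁⟩ := hnorm M₁ hM₁
  obtain ⟨N₂, hN₂, ha₂, hb₂, hc₂⟩ := hnorm M₂ hM₂
  rw [hlam M₁ hM₁, ← hb₁] at hc₁
  rw [hlam M₂ hM₂, ← hb₂] at hc₂
  rw [← hb₁, ← hb₂] at hz
  clear hli hb₁ hb₂
  set w₁ := N₁ b with hw₁
  set w₂ := N₂ b with hw₂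
  -- the derivations
  obtain ⟨pick, hpick⟩ : ∃ pick : ι → β, ∀ j, (inc j).Nonempty → pick j ∈ inc j :=
    ⟨fun j => if h : (inc j).Nonempty then h.choose else a, fun j h => by
      simp only [h, dif_pos]
      exact h.choose_spec⟩
  obtain ⟨D₁, hD₁a, hD₁m, hD₁⟩ := Integ.exists_der (σ := ι × Fin 4) (K := GF ι)
    (fun x => (z ⬝ᵥ ev (N₁ (pick x.1)) (gp ι x.1)) * z x.2)
  obtain ⟨D₂, hD₂a, hD₂m, hD₂⟩ := Integ.exists_der (σ := ι × Fin 4) (K := GF ι)
    (fun x => (z ⬝ᵥ ev (N₂ (pick x.1)) (gp ι x.1)) * z x.2)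
  have hY₁ : ∀ j, ∀ x ∈ inc j,
      (fun k => D₁ (gp ι j k)) = (z ⬝ᵥ ev (N₁ x) (gp ι j)) • z := by
    intro j x hx
    rw [hN₁.2 j x hx (pick j) (hpick j ⟨x, hx⟩)]
    funext k
    simp only [gp]
    rw [hD₁ (j, k)]
    simp
  have hY₂ : ∀ j, ∀ x ∈ inc j,
      (fun k => D₂ (gp ι j k)) = (z ⬝ᵥ ev (N₂ x) (gp ι j)) • z := by
    intro j x hx
    rw [hN₂.2 j x hx (pick j) (hpick j ⟨x, hx⟩)]
    funext k
    simp only [gp]
    rw [hD₂ (j, k)]
    simp
  -- the bracket is a motion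
  let N : β → Tw (GF ι) := fun x => if x ∈ B then
    (fun k => D₁ (N₂ x k) - D₂ (N₁ x k)) + wedge (ev (N₁ x) z) (ev (N₂ x) z) else 0
  have hN : N ∈ Mo B inc (gp ι) := by
    refine ⟨fun x hx => by simp [N, hx], ?_⟩
    intro j x hx y hy
    have key : ∀ u ∈ inc j, ev (N u) (gp ι j) =
        fun i => D₁ (ev (N₂ u) (gp ι j) i) - D₂ (ev (N₁ u) (gp ι j) i) := by
      intro u hu
      simp only [N, hsub j hu, if_true]
      exact Integ.bracket_ev hD₁a hD₁m hD₂a hD₂m _ _ _ _ (hY₁ j u hu) (hY₂ j u hu)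
    rw [key x hx, key y hy, hN₁.2 j x hx y hy, hN₂.2 j x hx y hy]
  have hNa : N a = 0 := by
    simp only [N, ha, if_true, ha₁, ha₂, ev_zero_left]
    funext k
    simp [Integ.der_zero hD₁a, Integ.der_zero hD₂a, wedge]
    fin_cases k <;> simp
  have hrel := hlam N hN
  rw [hNa, sub_zero, sub_zero] at hrel
  have hNb : N b = (fun k => D₁ (w₂ k) - D₂ (w₁ k)) + wedge (ev w₁ z) (ev w₂ z) := by
    simp only [N, hb, if_true, ← hw₁, ← hw₂]
  have hNc : N c = (fun k => D₁ ((lam • w₂) k) - D₂ ((lam • w₁) k)) +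
      wedge (ev (lam • w₁) z) (ev (lam • w₂) z) := by
    simp only [N, hc, if_true, hc₁, hc₂]
  rw [hNb, hNc] at hrel
  have hmain : D₁ lam • w₂ - D₂ lam • w₁ +
      (lam * lam - lam) • wedge (ev w₁ z) (ev w₂ z) = 0 := by
    funext k
    have h1 := congrFun hrel k
    have h2 : wedge (ev (lam • w₁) z) (ev (lam • w₂) z) =
        (lam * lam) • wedge (ev w₁ z) (ev w₂ z) := by
      rw [ev_smul_left, ev_smul_left]
      funext i
      fin_cases i <;> simp [wedge] <;> ring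
    rw [h2] at h1
    simp only [Pi.add_apply, Pi.smul_apply, smul_eq_mul, hD₁m, hD₂m] at h1
    simp only [Pi.add_apply, Pi.sub_apply, Pi.smul_apply, smul_eq_mul, Pi.zero_apply]
    linear_combination h1
  rw [LinearIndependent.pair_iff] at hz
  have hev : ev (wedge (ev w₁ z) (ev w₂ z)) z = 0 := by
    rw [ev_wedge, Integ.dot_ev_self, Integ.dot_ev_self, zero_smul, zero_smul, sub_zero]
  have hmz : (- D₂ lam) • ev w₁ z + D₁ lam • ev w₂ z = 0 := by
    have h1 : ev (D₁ lam • w₂ - D₂ lam • w₁ +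
      (lam * lam - lam) • wedge (ev w₁ z) (ev w₂ z)) z = 0 := by rw [hmain, ev_zero_left]
    rw [ev_add_left, ev_sub_left, ev_smul_left, ev_smul_left, ev_smul_left, hev, smul_zero,
      add_zero] at h1
    rw [neg_smul, neg_add_eq_sub]
    exact h1
  obtain ⟨hd2, hd1⟩ := hz _ _ hmz
  rw [neg_eq_zero] at hd2
  rw [hd1, hd2, zero_smul, zero_smul, sub_zero, zero_add, smul_eq_zero] at hmain
  rcases hmain with h | h
  · have h1 : lam * (lam - 1) = 0 := by
      rw [mul_sub, mul_one]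
      exact h
    rcases mul_eq_zero.1 h1 with h2 | h2
    · exact Or.inl h2
    · exact Or.inr (sub_eq_zero.1 h2)
  · exfalso
    have h1 : ev w₂ z = 0 := by
      apply Integ.eq_zero_of_idot
      intro r
      have h2 : ev (wedge (ev w₁ z) (ev w₂ z)) r = 0 := by rw [h, ev_zero_left]
      rw [ev_wedge, sub_eq_add_neg, ← neg_smul] at h2
      rw [dotProduct_comm]
      exact (hz _ _ h2).1
    have h3 := hz 0 1 (by rw [h1, smul_zero, zero_smul, add_zero])
    exact one_ne_zero h3.2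


end Pool.Agent.H49BK
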