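import Pool.Agent.H49BK.Defs

/-!
# Semicontinuity for multi-body joints
-/

open Matrix Module

namespace Pool.Agent.H49BK

open Pool.Agent.H49BJ

/-- the polynomial matrix of the conditions of `Mo` -/
noncomputable def moMat {β ι : Type*} [DecidableEq β] [DecidableEq ι]
    (B : Finset β) (inc : ι → Finset β) :
    Matrix ((β × Fin 6) ⊕ (ι × β × β × Fin 4)) (β × Fin 6) (MvPolynomial (ι × Fin 4) ℚ) :=
  fun r c => match r with
    | Sum.inl b => if b.1 ∈ B then 0 else if b = c then 1 else 0
    | Sum.inr q => if q.2.1 ∈ inc q.1 ∧ q.2.2.1 ∈ inc q.1 then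
        (if c.1 = q.2.1 then evR (Pi.single c.2 1) (fun l => MvPolynomial.X (q.1, l)) q.2.2.2
          else 0) -
        (if c.1 = q.2.2.1 then evR (Pi.single c.2 1) (fun l => MvPolynomial.X (q.1, l)) q.2.2.2
          else 0)
      else 0

theorem moMat_key {β ι : Type*} [Fintype β] [DecidableEq β] [Fintype ι] [DecidableEq ι]
    {K : Type*} [Field K] [Algebra ℚ K]
    (B : Finset β) (inc : ι → Finset β) (X : ι → Pt K) (v : β × Fin 6 → K) :
    v ∈ LinearMap.ker ((moMat B inc).map
      (MvPolynomial.aeval (fun p : ι × Fin 4 => X p.1 p.2))).mulVecLin ↔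
      (∀ b, b ∉ B → ∀ i, v (b, i) = 0) ∧ ∀ j, ∀ a ∈ inc j, ∀ b ∈ inc j, ∀ k,
        ev (fun i => v (a, i)) (X j) k = ev (fun i => v (b, i)) (X j) k := by
  rw [LinearMap.mem_ker, Matrix.mulVecLin_apply, funext_iff, Sum.forall]
  refine and_congr ?_ ?_
  · rw [Prod.forall]
    refine forall_congr' fun b => ?_
    by_cases hb : b ∈ B
    · simp [hb, Matrix.mulVec, dotProduct, moMat]
    · simp [hb, Matrix.mulVec, dotProduct, moMat]
  · rw [Prod.forall]
    refine forall_congr' fun j => ?_
    rw [Prod.forall]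
    refine forall_congr' fun a => ?_
    by_cases ha : a ∈ inc j
    · simp only [ha, forall_true_left]
      rw [Prod.forall]
      refine forall_congr' fun b => ?_
      by_cases hb : b ∈ inc j
      · simp only [hb, forall_true_left]
        refine forall_congr' fun k => ?_
        rw [← sub_eq_zero, ev_eq_sum, ev_eq_sum (fun i => v (b, i))]
        simp only [Matrix.mulVec, dotProduct, Matrix.map_apply, moMat, ha, hb, and_self, if_true,
          map_sub, Pi.zero_apply]
        rw [Fintype.sum_prod_type]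
        simp only [sub_mul, Finset.sum_sub_distrib, apply_ite (MvPolynomial.aeval _), map_zero,
          ite_mul, zero_mul]
        have hev : ∀ i : Fin 6, (MvPolynomial.aeval (fun p : ι × Fin 4 => X p.1 p.2))
            (evR (Pi.single i 1) (fun l => (MvPolynomial.X (j, l) :
              MvPolynomial (ι × Fin 4) ℚ)) k) = ev (Pi.single i 1) (X j) k := by
          intro i
          have h := map_evR (MvPolynomial.aeval (fun p : ι × Fin 4 => X p.1 p.2)).toRingHom i
            (fun l => (MvPolynomial.X (j, l) : MvPolynomial (ι × Fin 4) ℚ)) k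
          simpa using h
        simp only [hev]
        rw [Finset.sum_comm, Finset.sum_comm (s := Finset.univ (α := β))]
        simp only [Finset.sum_ite_eq', Finset.mem_univ, if_true]
        rw [sub_zero, sub_eq_zero]
      · simp [hb, Matrix.mulVec, dotProduct, moMat]
    · simp [ha, Matrix.mulVec, dotProduct, moMat]

theorem mo_eq_map {β ι : Type*} [Fintype β] [DecidableEq β] [Fintype ι] [DecidableEq ι]
    {K : Type*} [Field K] [Algebra ℚ K]
    (B : Finset β) (inc : ι → Finset β) (X : ι → Pt K) :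
    Mo B inc X = (LinearMap.ker ((moMat B inc).map
      (MvPolynomial.aeval (fun p : ι × Fin 4 => X p.1 p.2))).mulVecLin).map
        (LinearEquiv.curry K K β (Fin 6)).toLinearMap := by
  ext M
  rw [mem_Mo]
  constructor
  · rintro ⟨h1, h2⟩
    refine ⟨fun p => M p.1 p.2, ?_, rfl⟩
    rw [SetLike.mem_coe, moMat_key]
    exact ⟨fun b hb i => by simp [h1 b hb], fun j a ha b hb k => congrFun (h2 j a ha b hb) k⟩
  · rintro ⟨v, hv, rfl⟩
    rw [SetLike.mem_coe, moMat_key] at hv
    exact ⟨fun b hb => funext fun i => hv.1 b hb i,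
      fun j a ha b hb => funext fun k => hv.2 j a ha b hb k⟩

/-- the polynomial matrix of the conditions, with one more row -/
noncomputable def moBarMat {β ι : Type*} [DecidableEq β] [DecidableEq ι]
    (B : Finset β) (inc : ι → Finset β) (a b : β) (i j : ι) :
    Matrix (((β × Fin 6) ⊕ (ι × β × β × Fin 4)) ⊕ Unit) (β × Fin 6)
      (MvPolynomial (ι × Fin 4) ℚ) :=
  fun r c => match r with
    | Sum.inl r => moMat B inc r c
    | Sum.inr _ => ((if c.1 = a then 1 else 0) - (if c.1 = b then 1 else 0)) *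
        ∑ k, MvPolynomial.X (j, k) * evR (Pi.single c.2 1) (fun l => MvPolynomial.X (i, l)) k

theorem moBar_eq_map {β ι : Type*} [Fintype β] [DecidableEq β] [Fintype ι] [DecidableEq ι]
    {K : Type*} [Field K] [Algebra ℚ K]
    (B : Finset β) (inc : ι → Finset β) (X : ι → Pt K) (a b : β) (i j : ι) :
    MoBar B inc X a b i j = (LinearMap.ker ((moBarMat B inc a b i j).map
      (MvPolynomial.aeval (fun p : ι × Fin 4 => X p.1 p.2))).mulVecLin).map
        (LinearEquiv.curry K K β (Fin 6)).toLinearMap := by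
  have key : ∀ v : β × Fin 6 → K, v ∈ LinearMap.ker ((moBarMat B inc a b i j).map
      (MvPolynomial.aeval (fun p : ι × Fin 4 => X p.1 p.2))).mulVecLin ↔
      v ∈ LinearMap.ker ((moMat B inc).map
      (MvPolynomial.aeval (fun p : ι × Fin 4 => X p.1 p.2))).mulVecLin ∧
      bil ((fun l => v (a, l)) - (fun l => v (b, l))) (X i) (X j) = 0 := by
    intro v
    rw [LinearMap.mem_ker, LinearMap.mem_ker, Matrix.mulVecLin_apply, Matrix.mulVecLin_apply,
      funext_iff, Sum.forall, funext_iff]
    refine and_congr ?_ ?_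
    · exact Iff.rfl
    · have hev : ∀ (l : Fin 6) (k : Fin 4), (MvPolynomial.aeval (fun p : ι × Fin 4 => X p.1 p.2))
          (evR (Pi.single l 1) (fun l => (MvPolynomial.X (i, l) :
            MvPolynomial (ι × Fin 4) ℚ)) k) = ev (Pi.single l 1) (X i) k := by
        intro l k
        have h := map_evR (MvPolynomial.aeval (fun p : ι × Fin 4 => X p.1 p.2)).toRingHom l
          (fun l => (MvPolynomial.X (i, l) : MvPolynomial (ι × Fin 4) ℚ)) k
        simpa using h
      have h1 : bil ((fun l => v (a, l)) - (fun l => v (b, l))) (X i) (X j) =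
          ∑ l, (∑ k, X j k * ev (Pi.single l 1) (X i) k) * (v (a, l) - v (b, l)) := by
        rw [bil, dotProduct]
        simp only [Finset.sum_mul]
        rw [Finset.sum_comm]
        refine Finset.sum_congr rfl fun k _ => ?_
        rw [ev_eq_sum, Finset.mul_sum]
        exact Finset.sum_congr rfl fun l _ => by rw [Pi.sub_apply, mul_assoc]
      rw [h1, Unique.forall_iff]
      simp only [Matrix.mulVec, dotProduct, Matrix.map_apply, moBarMat, map_mul, map_sub,
        map_sum, MvPolynomial.aeval_X, hev, apply_ite (MvPolynomial.aeval _), map_one, map_zero,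
        Pi.zero_apply]
      rw [Fintype.sum_prod_type, Finset.sum_comm]
      simp only [sub_mul, ite_mul, one_mul, zero_mul, Finset.sum_sub_distrib,
        Finset.sum_ite_eq', Finset.mem_univ, if_true, mul_sub]
  ext M
  constructor
  · rintro ⟨h1, h2⟩
    rw [SetLike.mem_coe, mo_eq_map] at h1
    obtain ⟨v, hv, rfl⟩ := h1
    rw [SetLike.mem_coe, LinearMap.mem_ker, barL_apply] at h2
    exact ⟨v, (key v).2 ⟨hv, h2⟩, rfl⟩
  · rintro ⟨v, hv, rfl⟩
    obtain ⟨h1, h2⟩ := (key v).1 hv
    refine ⟨?_, ?_⟩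
    · rw [SetLike.mem_coe, mo_eq_map]
      exact ⟨v, h1, rfl⟩
    · rw [SetLike.mem_coe, LinearMap.mem_ker, barL_apply]
      exact h2

section lin

variable {β ι : Type*} [Fintype β] [DecidableEq β] [Fintype ι] [DecidableEq ι]

theorem finrank_Mo_le (B : Finset β) (inc : ι → Finset β) (X : ι → Pt (GF ι)) :
    dof B inc ≤ finrank (GF ι) (Mo B inc X) := by
  rw [dof, mo_eq_map, mo_eq_map]
  have h := finrank_ker_le (moMat B inc) _ (gp_algebraicIndependent ι)
    (fun p : ι × Fin 4 => X p.1 p.2)
  rwa [← LinearEquiv.finrank_map_eq (LinearEquiv.curry (GF ι) (GF ι) β (Fin 6)),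
    ← LinearEquiv.finrank_map_eq (LinearEquiv.curry (GF ι) (GF ι) β (Fin 6))] at h

theorem finrank_MoBar_le (B : Finset β) (inc : ι → Finset β) (X : ι → Pt (GF ι)) (a b : β)
    (i j : ι) : finrank (GF ι) (MoBar B inc (gp ι) a b i j)
      ≤ finrank (GF ι) (MoBar B inc X a b i j) := by
  rw [moBar_eq_map, moBar_eq_map]
  have h := finrank_ker_le (moBarMat B inc a b i j) _ (gp_algebraicIndependent ι)
    (fun p : ι × Fin 4 => X p.1 p.2)
  rwa [← LinearEquiv.finrank_map_eq (LinearEquiv.curry (GF ι) (GF ι) β (Fin 6)),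
    ← LinearEquiv.finrank_map_eq (LinearEquiv.curry (GF ι) (GF ι) β (Fin 6))] at h

end lin

end Pool.Agent.H49BK
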