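import Pool.Agent.H49BK.Ops
import Pool.Agent.H49BK.Semi
import Pool.Agent.H49BK.Integ

/-!
# Removing a body: special positions of its free joints
-/

open Matrix Module

namespace Pool.Agent.H49BK

open Pool.Agent.H49BJ

set_option linter.unusedSectionVars false

section pts

variable {K : Type*} [Field K]

theorem exists_perp2 (y p : Pt K) : ∃ s : Pt K, s ≠ 0 ∧ s ⬝ᵥ y = 0 ∧ s ⬝ᵥ p = 0 := by
  let f : Pt K →ₗ[K] (Fin 2 → K) :=
    LinearMap.pi ![dotProductBilin K K y, dotProductBilin K K p]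
  have h1 := LinearMap.finrank_range_add_finrank_ker f
  have h2 : finrank K (LinearMap.range f) ≤ 2 := by
    calc _ ≤ finrank K (Fin 2 → K) := Submodule.finrank_le _
      _ = 2 := by simp
  have h3 : finrank K (Pt K) = 4 := by simp
  have h4 : 0 < finrank K (LinearMap.ker f) := by omega
  have h5 : LinearMap.ker f ≠ ⊥ := by
    intro h; rw [h, finrank_bot] at h4; exact lt_irrefl _ h4
  obtain ⟨s, hs, hs0⟩ := Submodule.exists_mem_ne_zero_of_ne_bot h5
  rw [LinearMap.mem_ker] at hs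
  refine ⟨s, hs0, ?_, ?_⟩
  · have := congrFun hs 0
    rw [dotProduct_comm]; exact this
  · have := congrFun hs 1
    rw [dotProduct_comm]; exact this

theorem li_two_of_perp {y p s : Pt K} (hy : y ≠ 0) (h1 : s ⬝ᵥ y = 0) (h2 : s ⬝ᵥ p ≠ 0) :
    LinearIndependent K ![y, p] := by
  rw [LinearIndependent.pair_iff]
  intro a b hab
  have := congrArg (fun x => s ⬝ᵥ x) hab
  simp only [dotProduct_add, dotProduct_smul, smul_eq_mul, h1, mul_zero, zero_add,
    dotProduct_zero] at this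
  have hb : b = 0 := (mul_eq_zero.1 this).resolve_right h2
  rw [hb, zero_smul, add_zero] at hab
  exact ⟨(smul_eq_zero.1 hab).resolve_right hy, hb⟩

theorem li_three_of_perp {y p q s : Pt K} (hyp : LinearIndependent K ![y, p])
    (h1 : s ⬝ᵥ y = 0) (h2 : s ⬝ᵥ p = 0) (h3 : s ⬝ᵥ q ≠ 0) :
    LinearIndependent K ![y, p, q] := by
  rw [Fintype.linearIndependent_iff]
  intro c hc
  simp only [Fin.sum_univ_three, Matrix.cons_val_zero, Matrix.cons_val_one, Matrix.cons_val] at hc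
  have := congrArg (fun x => s ⬝ᵥ x) hc
  simp only [dotProduct_add, dotProduct_smul, smul_eq_mul, h1, h2, mul_zero, zero_add,
    dotProduct_zero] at this
  have hb : c 2 = 0 := (mul_eq_zero.1 this).resolve_right h3
  rw [hb, zero_smul, add_zero] at hc
  rw [LinearIndependent.pair_iff] at hyp
  have := hyp _ _ hc
  intro i
  fin_cases i
  · exact this.1
  · exact this.2
  · exact hb

/-- choose a point off the span of `y, p` with a nonzero polynomial value -/
theorem choose_pt [CharZero K] {f : Pt K → K} (hf : IsPoly f) (h : ∃ q, f q ≠ 0)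
    {y p : Pt K} (hyp : LinearIndependent K ![y, p]) :
    ∃ q, f q ≠ 0 ∧ LinearIndependent K ![y, p, q] := by
  obtain ⟨s, hs0, hs1, hs2⟩ := exists_perp2 y p
  obtain ⟨r, hr⟩ := exists_dot_ne hs0
  obtain ⟨q, hq1, hq2⟩ := poly_avoid hf (IsPoly.dot s) h ⟨r, by rwa [dotProduct_comm]⟩
  exact ⟨q, hq1, li_three_of_perp hyp hs1 hs2 hq2⟩

theorem choose_pt1 [CharZero K] {f : Pt K → K} (hf : IsPoly f) (h : ∃ q, f q ≠ 0)
    {y : Pt K} (hy : y ≠ 0) : ∃ q, f q ≠ 0 ∧ LinearIndependent K ![y, q] := by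
  obtain ⟨s, hs0, hs1, _⟩ := exists_perp2 y y
  obtain ⟨r, hr⟩ := exists_dot_ne hs0
  obtain ⟨q, hq1, hq2⟩ := poly_avoid hf (IsPoly.dot s) h ⟨r, by rwa [dotProduct_comm]⟩
  exact ⟨q, hq1, li_two_of_perp hy hs1 hq2⟩

theorem exists_dot_ne' {v : Pt K} (h : v ≠ 0) : ∃ r : Pt K, v ⬝ᵥ r ≠ 0 := by
  obtain ⟨r, hr⟩ := exists_dot_ne h
  exact ⟨r, by rwa [dotProduct_comm]⟩

theorem exists_ev_ne {w : Tw K} (h : w ≠ 0) : ∃ p : Pt K, ev w p ≠ 0 := by
  by_contra hc
  push Not at hc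
  exact h (tw_ext hc)

/-- two forms -/
theorem finrank_inf_ker2 {V : Type*} [AddCommGroup V] [Module K V] [FiniteDimensional K V]
    (φ ψ : V →ₗ[K] K) (E : Submodule K V) (h1 : ∃ x ∈ E, φ x ≠ 0)
    (h2 : ∃ x ∈ E, φ x = 0 ∧ ψ x ≠ 0) :
    finrank K (E ⊓ LinearMap.ker φ ⊓ LinearMap.ker ψ : Submodule K V) + 2 ≤ finrank K E := by
  have e1 := finrank_inf_ker_lt φ E h1
  have e2 := finrank_inf_ker_lt ψ (E ⊓ LinearMap.ker φ) (by
    obtain ⟨x, hx, h3, h4⟩ := h2
    exact ⟨x, ⟨hx, h3⟩, h4⟩)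
  omega

end pts

section gen

variable {β ι : Type*} [Fintype β] [DecidableEq β] [Fintype ι] [DecidableEq ι]

theorem pair_card {x a : β} (h : x ≠ a) : ({x, a} : Finset β).card = 2 := Finset.card_pair h

theorem ev_eq_of_pair {K : Type*} [Field K] {B : Finset β} {inc : ι → Finset β} {X : ι → Pt K}
    {M : β → Tw K} (hM : M ∈ Mo B inc X) {v : ι} {x c : β} (hv : inc v = {x, c}) :
    ev (M x) (X v) = ev (M c) (X v) :=
  hM.2 v x (by rw [hv]; simp) c (by rw [hv]; simp)

/-- splitting off a joint with two bodies -/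
theorem mem_Mo_delJ {K : Type*} [Field K] {B : Finset β} {inc : ι → Finset β} {X : ι → Pt K}
    {M : β → Tw K} {v : ι} {x c : β} (hv : inc v = {x, c}) :
    M ∈ Mo B inc X ↔ M ∈ Mo B (H49BK.delJ v inc) X ∧ ev (M x) (X v) = ev (M c) (X v) := by
  constructor
  · intro hM
    exact ⟨Mo_mono _ (delJ_subset v inc) hM, ev_eq_of_pair hM hv⟩
  · rintro ⟨hM, h1⟩
    refine ⟨hM.1, fun j a ha b hb => ?_⟩
    by_cases hjv : j = v
    · subst hjv
      rw [hv] at ha hb
      simp only [Finset.mem_insert, Finset.mem_singleton] at ha hb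
      rcases ha with rfl | rfl <;> rcases hb with rfl | rfl
      · rfl
      · exact h1
      · exact h1.symm
      · rfl
    · exact hM.2 j a (by rw [delJ_ne hjv]; exact ha) b (by rw [delJ_ne hjv]; exact hb)

theorem Mo_delJ_update {K : Type*} [Field K] (B : Finset β) (inc : ι → Finset β) (X : ι → Pt K)
    (v : ι) (p : Pt K) :
    Mo B (H49BK.delJ v inc) (Function.update X v p) = Mo B (H49BK.delJ v inc) X := by
  apply Mo_congr
  intro j hj
  have : j ≠ v := by
    rintro rfl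
    rw [delJ_self] at hj
    simp at hj
  rw [Function.update_of_ne this]

theorem three_le_rel' {B : Finset β} {inc : ι → Finset β} (hsub : ∀ j, inc j ⊆ B)
    (hNR : NRi B inc) {v : ι} {x c : β} (hxc : x ≠ c) (hv : inc v = {x, c}) :
    3 ≤ finrank (GF ι) ((Mo B (H49BK.delJ v inc) (gp ι)).map (dm (GF ι) x c)) := by
  by_contra hcon
  push Not at hcon
  obtain ⟨p, hp⟩ := exists_inj_pt _ (Nat.lt_succ_iff.1 hcon)
  have h1 := finrank_Mo_le B inc (Function.update (gp ι) v p)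
  have h2 : Mo B inc (Function.update (gp ι) v p) ≤ Mo B inc (gp ι) := by
    intro M hM
    rw [mem_Mo_delJ hv, Mo_delJ_update, Function.update_self] at hM
    rw [mem_Mo_delJ hv]
    refine ⟨hM.1, ?_⟩
    have h3 : ev (M x - M c) p = 0 := by rw [ev_sub_left, hM.2, sub_self]
    have h4 := hp (M x - M c) ⟨M, hM.1, rfl⟩ h3
    rw [sub_eq_zero.1 h4]
  have h3 := Submodule.eq_of_le_of_finrank_le h2 h1
  have hx : x ∈ B := hsub v (by rw [hv]; simp)
  have hc : c ∈ B := hsub v (by rw [hv]; simp)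
  obtain ⟨M, hM, hne⟩ := hNR x hx c hc hxc
  rw [← h3, mem_Mo_delJ hv, Mo_delJ_update, Function.update_self] at hM
  have h5 : ev (M x - M c) p = 0 := by rw [ev_sub_left, hM.2, sub_self]
  exact hne (sub_eq_zero.1 (hp (M x - M c) ⟨M, hM.1, rfl⟩ h5))

/-- a second joint between two bodies -/
theorem twin {B : Finset β} {inc : ι → Finset β} (hsub : ∀ j, inc j ⊆ B) (hNR : NRi B inc)
    {a b : β} (hab : a ≠ b) {v u : ι} (huv : u ≠ v) (hv : inc v = {a, b}) (hau : a ∈ inc u)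
    (hbu : b ∈ inc u) : dof B inc + 2 ≤ dof B (H49BK.delJ v inc) := by
  have h3 := three_le_rel' hsub hNR hab hv
  set E := Mo B (H49BK.delJ v inc) (gp ι) with hE
  have hle : E.map (dm (GF ι) a b) ≤ van1 (gp ι u) := by
    rintro _ ⟨M, hM, rfl⟩
    have := hM.2 u a (by rw [delJ_ne huv]; exact hau) b (by rw [delJ_ne huv]; exact hbu)
    change ev (M a - M b) (gp ι u) = 0
    rw [ev_sub_left, this, sub_self]
  have h4 := Submodule.finrank_mono hle
  rw [finrank_van1 (gp_ne_zero' u)] at h4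
  have heq : E.map (dm (GF ι) a b) = van1 (gp ι u) :=
    Submodule.eq_of_le_of_finrank_le hle (by rw [finrank_van1 (gp_ne_zero' u)]; exact h3)
  have h5 := finrank_comap_inf (dm (GF ι) a b) E (van1 (gp ι v))
  rw [heq, finrank_van1 (gp_ne_zero' u), finrank_van2 (gp_pair huv)] at h5
  have h6 : Mo B inc (gp ι) ≤ E ⊓ (van1 (gp ι v)).comap (dm (GF ι) a b) := by
    intro M hM
    rw [mem_Mo_delJ hv] at hM
    refine ⟨hM.1, ?_⟩
    change ev (M a - M b) (gp ι v) = 0
    rw [ev_sub_left, hM.2, sub_self]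
  have h7 := Submodule.finrank_mono h6
  change finrank (GF ι) (Mo B inc (gp ι)) + 2 ≤ finrank (GF ι) E
  omega

/-- the annihilator of two independent points is spanned by one twist -/
theorem van2_dep {K : Type*} [Field K] {p q : Pt K} (h : LinearIndependent K ![p, q])
    {w₁ w₂ : Tw K} (h1 : w₁ ∈ van1 p ⊓ van1 q) (h2 : w₂ ∈ van1 p ⊓ van1 q) (hw : w₁ ≠ 0) :
    ∃ c : K, w₂ = c • w₁ := by
  have hf := finrank_van2 h
  obtain ⟨c, hc⟩ := (finrank_eq_one_iff_of_nonzero' (⟨w₁, h1⟩ : (van1 p ⊓ van1 q :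
    Submodule K (Tw K))) (by intro h0; exact hw (congrArg Subtype.val h0))).1 hf ⟨w₂, h2⟩
  exact ⟨c, (congrArg Subtype.val hc).symm⟩

/-- no hinge triangle at a joint -/
theorem tri {B : Finset β} {inc : ι → Finset β} (hsub : ∀ j, inc j ⊆ B) (hNR : NRi B inc)
    {x y z : β} (hxy : x ≠ y) {u p q r : ι} (hup : u ≠ p) (huq : u ≠ q)
    (hur : u ≠ r) (hpq : p ≠ q) (hpr : p ≠ r) (hqr : q ≠ r) (hx : x ∈ inc u) (hy : y ∈ inc u)
    (hz : z ∈ inc u) (hp : x ∈ inc p ∧ y ∈ inc p) (hq : y ∈ inc q ∧ z ∈ inc q)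
    (hr : x ∈ inc r ∧ z ∈ inc r) : False := by
  obtain ⟨M, hM, hne⟩ := hNR x (hsub u hx) y (hsub u hy) hxy
  -- the three relative twists
  have e1 : ev (M x - M y) (gp ι u) = 0 := by rw [ev_sub_left, hM.2 u x hx y hy, sub_self]
  have e2 : ev (M x - M y) (gp ι p) = 0 := by rw [ev_sub_left, hM.2 p x hp.1 y hp.2, sub_self]
  have e3 : ev (M y - M z) (gp ι u) = 0 := by rw [ev_sub_left, hM.2 u y hy z hz, sub_self]
  have e4 : ev (M y - M z) (gp ι q) = 0 := by rw [ev_sub_left, hM.2 q y hq.1 z hq.2, sub_self]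
  have e5 : ev (M x - M z) (gp ι u) = 0 := by rw [ev_sub_left, hM.2 u x hx z hz, sub_self]
  have e6 : ev (M x - M z) (gp ι r) = 0 := by rw [ev_sub_left, hM.2 r x hr.1 z hr.2, sub_self]
  -- bil (M x - M y) (q) (r) = 0
  have h1 : bil (M x - M y) (gp ι q) (gp ι r) = 0 := by
    have s1 : M x - M y = (M x - M z) - (M y - M z) := by abel
    have s2 : bil (M x - M y) (gp ι q) (gp ι r) = bil (M x - M z) (gp ι q) (gp ι r)
        - bil (M y - M z) (gp ι q) (gp ι r) := by
      rw [s1]; simp only [bil, ev_sub_left, dotProduct_sub]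
    rw [s2, bil_swap (M x - M z) (gp ι r) (gp ι q)]
    simp only [bil, e4, e6, dotProduct_zero, neg_zero, sub_zero]
  exact hne (sub_eq_zero.1 (tw_two_pair (gp_quad hup huq hur hpq hpr hqr) e1 e2 h1))

/-- the rest does not see the special positions of the free joints -/
theorem Mo_delB_update2 {K : Type*} [Field K] (B : Finset β) {inc : ι → Finset β} (X : ι → Pt K)
    {x a b : β} (hxa : x ≠ a) (hxb : x ≠ b) {p r : ι} (hp : inc p = {x, a})
    (hr : inc r = {x, b}) (P R : Pt K) :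
    Mo (B.erase x) (H49BK.delB x inc) (Function.update (Function.update X p P) r R)
      = Mo (B.erase x) (H49BK.delB x inc) X := by
  apply Mo_congr
  intro j hj
  have hjp : j ≠ p := by
    rintro rfl
    have : (H49BK.delB x inc j).card = 1 := by
      unfold H49BK.delB
      rw [hp, Finset.card_erase_of_mem (by simp), Finset.card_pair hxa]
    omega
  have hjr : j ≠ r := by
    rintro rfl
    have : (H49BK.delB x inc j).card = 1 := by
      unfold H49BK.delB
      rw [hr, Finset.card_erase_of_mem (by simp), Finset.card_pair hxb]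
    omega
  rw [Function.update_of_ne hjr, Function.update_of_ne hjp]

theorem Mo_delB_update1 {K : Type*} [Field K] (B : Finset β) {inc : ι → Finset β} (X : ι → Pt K)
    {x a : β} (hxa : x ≠ a) {p : ι} (hp : inc p = {x, a}) (P : Pt K) :
    Mo (B.erase x) (H49BK.delB x inc) (Function.update X p P)
      = Mo (B.erase x) (H49BK.delB x inc) X := by
  apply Mo_congr
  intro j hj
  have hjp : j ≠ p := by
    rintro rfl
    have : (H49BK.delB x inc j).card = 1 := by
      unfold H49BK.delB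
      rw [hp, Finset.card_erase_of_mem (by simp), Finset.card_pair hxa]
    omega
  rw [Function.update_of_ne hjp]

/-- two joints to different bodies -/
theorem ext22 {B : Finset β} {inc : ι → Finset β} (hsub : ∀ j, inc j ⊆ B) (hNR : NRi B inc)
    {x a b : β} (hxa : x ≠ a) (hxb : x ≠ b) (hab : a ≠ b) {p r : ι} (hpr : p ≠ r)
    (hp : inc p = {x, a}) (hr : inc r = {x, b}) :
    dof B inc ≤ dof (B.erase x) (H49BK.delB x inc) := by
  have haB : a ∈ B := hsub p (by rw [hp]; simp)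
  have hbB : b ∈ B := hsub r (by rw [hr]; simp)
  obtain ⟨M₀, hM₀, hne⟩ := (hNR.delB x) a (Finset.mem_erase.2 ⟨hxa.symm, haB⟩) b
    (Finset.mem_erase.2 ⟨hxb.symm, hbB⟩) hab
  obtain ⟨P, R, hPR⟩ := exists_bil_ne (sub_ne_zero.2 hne)
  set X : ι → Pt (GF ι) := Function.update (Function.update (gp ι) p P) r R with hX
  have hXp : X p = P := by rw [hX, Function.update_of_ne hpr, Function.update_self]
  have hXr : X r = R := by rw [hX, Function.update_self]
  have h0 := finrank_Mo_le B inc X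
  have h1 := ker_bound' (K := GF ι) (B := B) (inc := inc) (X := X) x (van1 P ⊓ van1 R)
    (fun w hw => by
      have h2 := hw p (by rw [hp]; simp) (by rw [hp, Finset.card_pair hxa])
      have h3 := hw r (by rw [hr]; simp) (by rw [hr, Finset.card_pair hxb])
      rw [hXp] at h2
      rw [hXr] at h3
      exact ⟨h2, h3⟩)
  rw [finrank_van2 (li_of_bil hPR)] at h1
  have hcongr := Mo_delB_update2 B (gp ι) hxa hxb hp hr P R
  have h2 : (Mo B inc X).map (rx (GF ι) x) ≤
      Mo (B.erase x) (H49BK.delB x inc) (gp ι) ⊓ LinearMap.ker (barL a b P R) := by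
    rintro _ ⟨M, hM, rfl⟩
    refine ⟨?_, ?_⟩
    · rw [← hcongr]; exact rx_mem' hM
    · rw [SetLike.mem_coe, LinearMap.mem_ker, barL_apply, rx_ne hxa.symm, rx_ne hxb.symm]
      have e1 := ev_eq_of_pair hM hp
      have e2 := ev_eq_of_pair hM hr
      rw [hXp] at e1
      rw [hXr] at e2
      exact bar_of e1 e2
  have h3 := Submodule.finrank_mono h2
  have h4 := finrank_inf_ker_lt (barL a b P R) (Mo (B.erase x) (H49BK.delB x inc) (gp ι))
    ⟨M₀, hM₀, hPR⟩
  unfold dof at h0 ⊢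
  omega

/-- three bodies at a joint `u`, one of them joined to the other two by further joints -/
theorem extA3 {B : Finset β} {inc : ι → Finset β} (hsub : ∀ j, inc j ⊆ B) (hNR : NRi B inc)
    {x a b : β} (hxa : x ≠ a) (hxb : x ≠ b) (hab : a ≠ b) {u p r : ι} (hup : u ≠ p) (hur : u ≠ r)
    (hpr : p ≠ r) (hxu : x ∈ inc u) (hau : a ∈ inc u) (_hbu : b ∈ inc u)
    (hp : inc p = {x, a}) (hr : inc r = {x, b}) :
    dof B inc + 1 ≤ dof (B.erase x) (H49BK.delB x inc) := by
  have haB : a ∈ B := hsub p (by rw [hp]; simp)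
  have hbB : b ∈ B := hsub r (by rw [hr]; simp)
  have hcu : 2 ≤ (inc u).card := Finset.one_lt_card.2 ⟨x, hxu, a, hau, hxa⟩
  obtain ⟨M₀, hM₀, hne⟩ := (hNR.delB x) a (Finset.mem_erase.2 ⟨hxa.symm, haB⟩) b
    (Finset.mem_erase.2 ⟨hxb.symm, hbB⟩) hab
  -- choose the positions
  obtain ⟨s, hs⟩ := exists_bil_ne (sub_ne_zero.2 hne)
  obtain ⟨R₀, hR₀⟩ := hs
  obtain ⟨P, hP1, hP2⟩ := choose_pt1 (IsPoly.bil_left (M₀ a - M₀ b) R₀) ⟨s, hR₀⟩
    (gp_ne_zero' (ι := ι) u)
  obtain ⟨R, hPR, hli⟩ := choose_pt (IsPoly.bil_right (M₀ a - M₀ b) P) ⟨R₀, hP1⟩ hP2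
  set X : ι → Pt (GF ι) := Function.update (Function.update (gp ι) p P) r R with hX
  have hXp : X p = P := by rw [hX, Function.update_of_ne hpr, Function.update_self]
  have hXr : X r = R := by rw [hX, Function.update_self]
  have hXu : X u = gp ι u := by rw [hX, Function.update_of_ne hur, Function.update_of_ne hup]
  have h0 := finrank_Mo_le B inc X
  have h1 := ker_bound' (K := GF ι) (B := B) (inc := inc) (X := X) x ⊥
    (fun w hw => by
      have h1 := hw u hxu hcu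
      have h2 := hw p (by rw [hp]; simp) (by rw [hp, Finset.card_pair hxa])
      have h3 := hw r (by rw [hr]; simp) (by rw [hr, Finset.card_pair hxb])
      rw [hXu] at h1
      rw [hXp] at h2
      rw [hXr] at h3
      exact tw_three hli h1 h2 h3)
  rw [finrank_bot, add_zero] at h1
  have hcongr := Mo_delB_update2 B (gp ι) hxa hxb hp hr P R
  have h2 : (Mo B inc X).map (rx (GF ι) x) ≤
      Mo (B.erase x) (H49BK.delB x inc) (gp ι) ⊓ LinearMap.ker (barL a b P R) := by
    rintro _ ⟨M, hM, rfl⟩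
    refine ⟨?_, ?_⟩
    · rw [← hcongr]; exact rx_mem' hM
    · rw [SetLike.mem_coe, LinearMap.mem_ker, barL_apply, rx_ne hxa.symm, rx_ne hxb.symm]
      have e1 := ev_eq_of_pair hM hp
      have e2 := ev_eq_of_pair hM hr
      rw [hXp] at e1
      rw [hXr] at e2
      exact bar_of e1 e2
  have h3 := Submodule.finrank_mono h2
  have h4 := finrank_inf_ker_lt (barL a b P R) (Mo (B.erase x) (H49BK.delB x inc) (gp ι))
    ⟨M₀, hM₀, hPR⟩
  unfold dof at h0 ⊢
  omega

/-- a joint `p` from `x` to a body `a` that is not at the joint `u`, and a third joint `r` -/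
theorem extB {B : Finset β} {inc : ι → Finset β} (h : Good B inc)
    {x a : β} (hxa : x ≠ a) {u p r : ι} (hup : u ≠ p) (hur : u ≠ r)
    (hpr : p ≠ r) (hxu : x ∈ inc u) (hcu : 2 ≤ (inc u).card) (hau : a ∉ inc u)
    (hp : inc p = {x, a}) (hxr : x ∈ inc r) (hcr : 2 ≤ (inc r).card) :
    dof B inc + 1 ≤ dof (B.erase x) (H49BK.delB x inc) := by
  have haB : a ∈ B := h.sub p (by rw [hp]; simp)
  obtain ⟨y, hy, hyx⟩ := Finset.exists_mem_ne (by omega : 1 < (inc u).card) x
  obtain ⟨M₁, hM₁, hne⟩ := h.clo u hcu y hy a haB hau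
  set M₀ := rx (GF ι) x M₁ with hM₀def
  have hM₀ : M₀ ∈ Mo (B.erase x) (H49BK.delB x inc) (gp ι) := rx_mem' hM₁
  have hz : ev (M₀ y - M₀ a) (gp ι u) ≠ 0 := by
    rw [hM₀def, rx_ne hyx, rx_ne hxa.symm, ev_sub_left]
    exact sub_ne_zero.2 hne
  obtain ⟨P, hP, hli⟩ := choose_pt (IsPoly.bil_right (M₀ y - M₀ a) (gp ι u))
    (exists_dot_ne hz) (gp_pair (ι := ι) hur)
  set X : ι → Pt (GF ι) := Function.update (gp ι) p P with hX
  have hXp : X p = P := by rw [hX, Function.update_self]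
  have hXu : X u = gp ι u := by rw [hX, Function.update_of_ne hup]
  have hXr : X r = gp ι r := by rw [hX, Function.update_of_ne hpr.symm]
  have h0 := finrank_Mo_le B inc X
  have h1 := ker_bound' (K := GF ι) (B := B) (inc := inc) (X := X) x ⊥
    (fun w hw => by
      have h1 := hw u hxu hcu
      have h2 := hw p (by rw [hp]; simp) (by rw [hp, Finset.card_pair hxa])
      have h3 := hw r hxr hcr
      rw [hXu] at h1
      rw [hXp] at h2
      rw [hXr] at h3
      exact tw_three hli h1 h3 h2)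
  rw [finrank_bot, add_zero] at h1
  have hcongr := Mo_delB_update1 B (gp ι) hxa hp P
  have h2 : (Mo B inc X).map (rx (GF ι) x) ≤
      Mo (B.erase x) (H49BK.delB x inc) (gp ι) ⊓ LinearMap.ker (barL y a (gp ι u) P) := by
    rintro _ ⟨M, hM, rfl⟩
    refine ⟨?_, ?_⟩
    · rw [← hcongr]; exact rx_mem' hM
    · rw [SetLike.mem_coe, LinearMap.mem_ker, barL_apply, rx_ne hyx, rx_ne hxa.symm]
      have e1 := hM.2 u x hxu y hy
      have e2 := ev_eq_of_pair hM hp
      rw [hXu] at e1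
      rw [hXp] at e2
      exact bar_of e1 e2
  have h3 := Submodule.finrank_mono h2
  have h4 := finrank_inf_ker_lt (barL y a (gp ι u) P)
    (Mo (B.erase x) (H49BK.delB x inc) (gp ι)) ⟨M₀, hM₀, hP⟩
  unfold dof at h0 ⊢
  omega

theorem bar1 {B : Finset β} {inc : ι → Finset β} (hsub : ∀ j, inc j ⊆ B) (hNR : NRi B inc)
    {x a b : β} (hxa : x ≠ a) (hxb : x ≠ b) (hab : a ≠ b) {p r : ι} (hpr : p ≠ r)
    (hp : inc p = {x, a}) (hr : inc r = {x, b}) :
    2 ≤ finrank (GF ι)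
      ((Mo (B.erase x) (H49BK.delB x inc) (gp ι)).map (dm (GF ι) a b)) := by
  by_contra hcon
  push Not at hcon
  have haB : a ∈ B := hsub p (by rw [hp]; simp)
  have hbB : b ∈ B := hsub r (by rw [hr]; simp)
  obtain ⟨M₀, hM₀, hne⟩ := (hNR.delB x) a (Finset.mem_erase.2 ⟨hxa.symm, haB⟩) b
    (Finset.mem_erase.2 ⟨hxb.symm, hbB⟩) hab
  obtain ⟨P, R, hPR⟩ := exists_bil_ne (sub_ne_zero.2 hne)
  set X : ι → Pt (GF ι) := Function.update (Function.update (gp ι) p P) r R with hX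
  have hXp : X p = P := by rw [hX, Function.update_of_ne hpr, Function.update_self]
  have hXr : X r = R := by rw [hX, Function.update_self]
  have hcongr := Mo_delB_update2 B (gp ι) hxa hxb hp hr P R
  set E := Mo (B.erase x) (H49BK.delB x inc) (gp ι) with hE
  -- relative twists are multiples of that of `M₀`
  have hone : ∀ M ∈ E, ∃ c : GF ι, M a - M b = c • (M₀ a - M₀ b) := by
    intro M hM
    have h1 : finrank (GF ι) (E.map (dm (GF ι) a b)) = 1 := by
      have : 1 ≤ finrank (GF ι) (E.map (dm (GF ι) a b)) := by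
        rw [Nat.one_le_iff_ne_zero]
        intro h0
        rw [Submodule.finrank_eq_zero] at h0
        have : dm (GF ι) a b M₀ ∈ E.map (dm (GF ι) a b) := ⟨M₀, hM₀, rfl⟩
        rw [h0, Submodule.mem_bot] at this
        exact sub_ne_zero.2 hne this
      omega
    obtain ⟨c, hc⟩ := (finrank_eq_one_iff_of_nonzero'
      (⟨dm (GF ι) a b M₀, ⟨M₀, hM₀, rfl⟩⟩ : (E.map (dm (GF ι) a b) : Submodule _ _))
      (by intro h0; exact sub_ne_zero.2 hne (congrArg Subtype.val h0))).1 h1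
      ⟨dm (GF ι) a b M, ⟨M, hM, rfl⟩⟩
    exact ⟨c, (congrArg Subtype.val hc).symm⟩
  have h1 := finrank_MoBar_le (B.erase x) (H49BK.delB x inc) X a b p r
  have h2 : MoBar (B.erase x) (H49BK.delB x inc) X a b p r ≤ E ⊓ LinearMap.ker (dm (GF ι) a b) := by
    rintro M ⟨hM, h0⟩
    have hM' : M ∈ E := by
      rw [← hcongr]; exact hM
    refine ⟨hM', ?_⟩
    rw [SetLike.mem_coe, LinearMap.mem_ker, barL_apply, hXp, hXr] at h0
    obtain ⟨c, hc⟩ := hone M hM'
    rw [hc] at h0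
    have h3 : c * bil (M₀ a - M₀ b) P R = 0 := by
      rw [← h0]
      simp only [bil_def, Pi.smul_apply, smul_eq_mul]; ring
    have h4 : c = 0 := (mul_eq_zero.1 h3).resolve_right hPR
    rw [SetLike.mem_coe, LinearMap.mem_ker, dm_apply, hc, h4, zero_smul]
  have h3 : E ⊓ LinearMap.ker (dm (GF ι) a b) ≤
      MoBar (B.erase x) (H49BK.delB x inc) (gp ι) a b p r := by
    rintro M ⟨hM, h0⟩
    refine ⟨hM, ?_⟩
    rw [SetLike.mem_coe, LinearMap.mem_ker, dm_apply] at h0
    rw [SetLike.mem_coe, LinearMap.mem_ker, barL_apply, h0]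
    simp [bil]
  have h4 := Submodule.finrank_mono h2
  have h5 := Submodule.eq_of_le_of_finrank_le h3 (h1.trans h4)
  obtain ⟨M, hM, hMne⟩ := hNR a haB b hbB hab
  have h6 : rx (GF ι) x M ∈ MoBar (B.erase x) (H49BK.delB x inc) (gp ι) a b p r := by
    refine ⟨rx_mem' hM, ?_⟩
    rw [SetLike.mem_coe, LinearMap.mem_ker, barL_apply, rx_ne hxa.symm, rx_ne hxb.symm]
    exact bar_of (ev_eq_of_pair hM hp) (ev_eq_of_pair hM hr)
  rw [← h5] at h6
  have h7 := h6.2
  rw [SetLike.mem_coe, LinearMap.mem_ker, dm_apply, rx_ne hxa.symm, rx_ne hxb.symm] at h7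
  exact hMne (sub_eq_zero.1 h7)

/-- choice of the positions for `extV2` -/
theorem choose_two {K : Type*} [Field K] [CharZero K] {β : Type*} [Fintype β]
    (E : Submodule K (β → Tw K)) (a b c : β) {y : Pt K} (hy : y ≠ 0)
    (h1 : ∃ M ∈ E, ev (M c - M a) y ≠ 0) (h2 : 2 ≤ finrank K (E.map (dm K a b))) :
    ∃ P R : Pt K, LinearIndependent K ![y, P, R] ∧
      finrank K (E ⊓ LinearMap.ker (barL c a y P) ⊓ LinearMap.ker (barL a b P R) :
        Submodule K (β → Tw K)) + 2 ≤ finrank K E := by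
  obtain ⟨M₀, hM₀, hz⟩ := h1
  obtain ⟨f, hf⟩ := exists_linearIndependent_of_le_finrank (R := K)
    (M := E.map (dm K a b)) (n := 2) h2
  obtain ⟨M₁, hM₁, h1⟩ := (f 0).2
  obtain ⟨M₂, hM₂, h2⟩ := (f 1).2
  have hli : LinearIndependent K ![M₁ a - M₁ b, M₂ a - M₂ b] := by
    have hf' := hf.map' (E.map (dm K a b)).subtype (Submodule.ker_subtype _)
    have heq : ![M₁ a - M₁ b, M₂ a - M₂ b] = (E.map (dm K a b)).subtype ∘ f := by
      funext i
      fin_cases i
      · exact h1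
      · exact h2
    rw [heq]; exact hf'
  obtain ⟨z, hz'⟩ := Integ.exists_vec hli
  obtain ⟨d, hd⟩ := exists_dual hz'
  have d00 : d 0 ⬝ᵥ ev (M₁ a - M₁ b) z = 1 := by simpa using hd 0 0
  have d01 : d 0 ⬝ᵥ ev (M₂ a - M₂ b) z = 0 := by simpa using hd 0 1
  have d10 : d 1 ⬝ᵥ ev (M₁ a - M₁ b) z = 0 := by simpa using hd 1 0
  have d11 : d 1 ⬝ᵥ ev (M₂ a - M₂ b) z = 1 := by simpa using hd 1 1
  have hpoly : IsPoly (fun P : Pt K => (d 0 ⬝ᵥ ev (M₁ a - M₁ b) P) * (d 1 ⬝ᵥ ev (M₂ a - M₂ b) P)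
      - (d 0 ⬝ᵥ ev (M₂ a - M₂ b) P) * (d 1 ⬝ᵥ ev (M₁ a - M₁ b) P)) :=
    ((IsPoly.bil_left _ _).mul (IsPoly.bil_left _ _)).sub
      ((IsPoly.bil_left _ _).mul (IsPoly.bil_left _ _))
  have hpoly2 : IsPoly (fun P : Pt K => bil (M₀ c - M₀ a) y P) := IsPoly.bil_right _ _
  obtain ⟨P₁, hP₁, hP₁'⟩ := poly_avoid hpoly hpoly2 ⟨z, by rw [d00, d01, d11]; simp⟩
    (exists_dot_ne hz)
  obtain ⟨P, hP, hyP⟩ := choose_pt1 (hpoly.mul hpoly2) ⟨P₁, mul_ne_zero hP₁ hP₁'⟩ hy
  have hPa := left_ne_zero_of_mul hP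
  have hPb := right_ne_zero_of_mul hP
  have hliP := li_two_of_minor hPa
  -- a motion in the kernel of the first form moving `P`
  obtain ⟨M₄, hM₄, hM₄', hv⟩ : ∃ M ∈ E, barL c a y P M = 0 ∧ ev (M a - M b) P ≠ 0 := by
    by_contra hcon
    push Not at hcon
    rw [LinearIndependent.pair_iff] at hliP
    have h3 := hcon (barL c a y P M₂ • M₁ - barL c a y P M₁ • M₂)
      (E.sub_mem (E.smul_mem _ hM₁) (E.smul_mem _ hM₂))
      (by rw [map_sub, map_smul, map_smul, smul_eq_mul, smul_eq_mul]; ring)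
    have h4 : barL c a y P M₂ • ev (M₁ a - M₁ b) P + (- barL c a y P M₁) • ev (M₂ a - M₂ b) P
        = 0 := by
      rw [← h3]
      have : (barL c a y P M₂ • M₁ - barL c a y P M₁ • M₂) a
          - (barL c a y P M₂ • M₁ - barL c a y P M₁ • M₂) b
          = barL c a y P M₂ • (M₁ a - M₁ b) - barL c a y P M₁ • (M₂ a - M₂ b) := by
        simp only [Pi.sub_apply, Pi.smul_apply, smul_sub]; abel
      rw [this, ev_sub_left (barL c a y P M₂ • (M₁ a - M₁ b)), ev_smul_left, ev_smul_left,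
        neg_smul]
      exact (sub_eq_add_neg _ _).symm
    obtain ⟨h5, h6⟩ := hliP _ _ h4
    have h7 := hcon M₁ hM₁ (neg_eq_zero.1 h6)
    have h8 := hliP 1 0 (by rw [h7]; simp)
    exact one_ne_zero h8.1
  obtain ⟨R, hR, hliR⟩ := choose_pt (IsPoly.bil_right (M₄ a - M₄ b) P) (exists_dot_ne hv) hyP
  refine ⟨P, R, hliR, ?_⟩
  exact finrank_inf_ker2 _ _ E ⟨M₀, hM₀, hPb⟩ ⟨M₄, hM₄, hM₄', hR⟩

/-- two joints to different bodies, one of which is not at the third joint -/
theorem extV2 {B : Finset β} {inc : ι → Finset β} (h : Good B inc)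
    {x a b : β} (hxa : x ≠ a) (hxb : x ≠ b) (hab : a ≠ b) {u p r : ι} (hup : u ≠ p)
    (hur : u ≠ r) (hpr : p ≠ r) (hxu : x ∈ inc u) (hcu : 2 ≤ (inc u).card) (hau : a ∉ inc u)
    (hp : inc p = {x, a}) (hr : inc r = {x, b}) :
    dof B inc + 2 ≤ dof (B.erase x) (H49BK.delB x inc) := by
  have haB : a ∈ B := h.sub p (by rw [hp]; simp)
  have hbB : b ∈ B := h.sub r (by rw [hr]; simp)
  obtain ⟨y, hy, hyx⟩ := Finset.exists_mem_ne (by omega : 1 < (inc u).card) x
  obtain ⟨M₁, hM₁, hne⟩ := h.clo u hcu y hy a haB hau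
  have hM₀ : rx (GF ι) x M₁ ∈ Mo (B.erase x) (H49BK.delB x inc) (gp ι) := rx_mem' hM₁
  have hz : ev (rx (GF ι) x M₁ y - rx (GF ι) x M₁ a) (gp ι u) ≠ 0 := by
    rw [rx_ne hyx, rx_ne hxa.symm, ev_sub_left]
    exact sub_ne_zero.2 hne
  obtain ⟨P, R, hli, hfr⟩ := choose_two (Mo (B.erase x) (H49BK.delB x inc) (gp ι)) a b y
    (gp_ne_zero' (ι := ι) u) ⟨_, hM₀, hz⟩ (bar1 h.sub h.nr hxa hxb hab hpr hp hr)
  set X : ι → Pt (GF ι) := Function.update (Function.update (gp ι) p P) r R with hX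
  have hXp : X p = P := by rw [hX, Function.update_of_ne hpr, Function.update_self]
  have hXr : X r = R := by rw [hX, Function.update_self]
  have hXu : X u = gp ι u := by rw [hX, Function.update_of_ne hur, Function.update_of_ne hup]
  have h0 := finrank_Mo_le B inc X
  have h1 := ker_bound' (K := GF ι) (B := B) (inc := inc) (X := X) x ⊥
    (fun w hw => by
      have h1 := hw u hxu hcu
      have h2 := hw p (by rw [hp]; simp) (by rw [hp, Finset.card_pair hxa])
      have h3 := hw r (by rw [hr]; simp) (by rw [hr, Finset.card_pair hxb])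
      rw [hXu] at h1
      rw [hXp] at h2
      rw [hXr] at h3
      exact tw_three hli h1 h2 h3)
  rw [finrank_bot, add_zero] at h1
  have hcongr := Mo_delB_update2 B (gp ι) hxa hxb hp hr P R
  have h2 : (Mo B inc X).map (rx (GF ι) x) ≤
      Mo (B.erase x) (H49BK.delB x inc) (gp ι) ⊓ LinearMap.ker (barL y a (gp ι u) P)
        ⊓ LinearMap.ker (barL a b P R) := by
    rintro _ ⟨M, hM, rfl⟩
    have e0 := hM.2 u x hxu y hy
    have e1 := ev_eq_of_pair hM hp
    have e2 := ev_eq_of_pair hM hr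
    rw [hXu] at e0
    rw [hXp] at e1
    rw [hXr] at e2
    refine ⟨⟨?_, ?_⟩, ?_⟩
    · rw [← hcongr]; exact rx_mem' hM
    · rw [SetLike.mem_coe, LinearMap.mem_ker, barL_apply, rx_ne hyx, rx_ne hxa.symm]
      exact bar_of e0 e1
    · rw [SetLike.mem_coe, LinearMap.mem_ker, barL_apply, rx_ne hxa.symm, rx_ne hxb.symm]
      exact bar_of e1 e2
  have h3 := Submodule.finrank_mono h2
  unfold dof at h0 ⊢
  omega

end gen

end Pool.Agent.H49BK
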