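import Pool.Agent.H49BK.Ext1

/-!
# Removing a body with three joints that all have two bodies
-/

open Matrix Module

namespace Pool.Agent.H49BK

open Pool.Agent.H49BJ

set_option linter.unusedSectionVars false

section gen

variable {β ι : Type*} [Fintype β] [DecidableEq β] [Fintype ι] [DecidableEq ι]

theorem Mo_delB_update3 {K : Type*} [Field K] (B : Finset β) {inc : ι → Finset β} (X : ι → Pt K)
    {x a b c : β} (hxa : x ≠ a) (hxb : x ≠ b) (hxc : x ≠ c) {p r g : ι} (hp : inc p = {x, a})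
    (hr : inc r = {x, b}) (hg : inc g = {x, c}) (P R Q : Pt K) :
    Mo (B.erase x) (H49BK.delB x inc)
        (Function.update (Function.update (Function.update X p P) r R) g Q)
      = Mo (B.erase x) (H49BK.delB x inc) X := by
  rw [Mo_delB_update1 B _ hxc hg, Mo_delB_update2 B _ hxa hxb hp hr]

/-- the case in which some position of the joints makes the three bars independent -/
theorem ext3_free' {B : Finset β} {inc : ι → Finset β}
    {x a b c : β} (hxa : x ≠ a) (hxb : x ≠ b) (hxc : x ≠ c)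
    {e f g : ι} (hef : e ≠ f) (heg : e ≠ g) (hfg : f ≠ g)
    (he : inc e = {x, a}) (hf : inc f = {x, b}) (hg : inc g = {x, c})
    {p₁ p₂ p₃ : Pt (GF ι)} {M₁ M₂ M₃ : β → Tw (GF ι)}
    (hM₁ : M₁ ∈ Mo (B.erase x) (H49BK.delB x inc) (gp ι))
    (hM₂ : M₂ ∈ Mo (B.erase x) (H49BK.delB x inc) (gp ι))
    (hM₃ : M₃ ∈ Mo (B.erase x) (H49BK.delB x inc) (gp ι))
    (hd : d3 (bil (M₁ a - M₁ b) p₁ p₂) (bil (M₂ a - M₂ b) p₁ p₂) (bil (M₃ a - M₃ b) p₁ p₂)
      (bil (M₁ a - M₁ c) p₁ p₃) (bil (M₂ a - M₂ c) p₁ p₃) (bil (M₃ a - M₃ c) p₁ p₃)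
      (bil ((M₁ a - M₁ c) - (M₁ a - M₁ b)) p₂ p₃) (bil ((M₂ a - M₂ c) - (M₂ a - M₂ b)) p₂ p₃)
      (bil ((M₃ a - M₃ c) - (M₃ a - M₃ b)) p₂ p₃) ≠ 0) :
    dof B inc + 3 ≤ dof (B.erase x) (H49BK.delB x inc) := by
  set X : ι → Pt (GF ι) :=
    Function.update (Function.update (Function.update (gp ι) e p₁) f p₂) g p₃ with hX
  have hXe : X e = p₁ := by
    rw [hX, Function.update_of_ne heg, Function.update_of_ne hef, Function.update_self]
  have hXf : X f = p₂ := by rw [hX, Function.update_of_ne hfg, Function.update_self]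
  have hXg : X g = p₃ := by rw [hX, Function.update_self]
  have h0 := finrank_Mo_le B inc X
  have hli := li_pts_of_d3 hd
  have h1 := ker_bound' (K := GF ι) (B := B) (inc := inc) (X := X) x ⊥ (fun w hw => by
    have h2 := hw e (by rw [he]; simp) (by rw [he, Finset.card_pair hxa])
    have h3 := hw f (by rw [hf]; simp) (by rw [hf, Finset.card_pair hxb])
    have h4 := hw g (by rw [hg]; simp) (by rw [hg, Finset.card_pair hxc])
    rw [hXe] at h2
    rw [hXf] at h3
    rw [hXg] at h4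
    exact tw_three hli h2 h3 h4)
  rw [finrank_bot, add_zero] at h1
  have hcongr := Mo_delB_update3 B (gp ι) hxa hxb hxc he hf hg p₁ p₂ p₃
  let Φ : (β → Tw (GF ι)) →ₗ[GF ι] (Fin 3 → GF ι) :=
    LinearMap.pi ![barL a b p₁ p₂, barL a c p₁ p₃, barL b c p₂ p₃]
  have hΦ : ∀ M, Φ M = ![bil (M a - M b) p₁ p₂, bil (M a - M c) p₁ p₃, bil (M b - M c) p₂ p₃] := by
    intro M
    funext i
    fin_cases i <;> rfl
  have h2 : (Mo B inc X).map (rx (GF ι) x) ≤
      Mo (B.erase x) (H49BK.delB x inc) (gp ι) ⊓ LinearMap.ker Φ := by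
    rintro _ ⟨M, hM, rfl⟩
    refine ⟨?_, ?_⟩
    · rw [← hcongr]; exact rx_mem' hM
    · rw [SetLike.mem_coe, LinearMap.mem_ker, hΦ, rx_ne hxa.symm, rx_ne hxb.symm, rx_ne hxc.symm]
      have e1 := ev_eq_of_pair hM he
      have e2 := ev_eq_of_pair hM hf
      have e3 := ev_eq_of_pair hM hg
      rw [hXe] at e1
      rw [hXf] at e2
      rw [hXg] at e3
      rw [bar_of e1 e2, bar_of e1 e3, bar_of e2 e3]
      funext i
      fin_cases i <;> rfl
  have h3 := Submodule.finrank_mono h2
  have h4 := finrank_map_add_ker Φ (Mo (B.erase x) (H49BK.delB x inc) (gp ι))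
  have h5 : 3 ≤ finrank (GF ι) ((Mo (B.erase x) (H49BK.delB x inc) (gp ι)).map Φ) := by
    have hli3 : LinearIndependent (GF ι) ![Φ M₁, Φ M₂, Φ M₃] := by
      apply li_cols_of_d3
      rw [hΦ, hΦ, hΦ]
      have r : ∀ M : β → Tw (GF ι), M b - M c = (M a - M c) - (M a - M b) := by
        intro M; abel
      rw [r M₁, r M₂, r M₃]
      exact hd
    have hmem : ∀ i, ![Φ M₁, Φ M₂, Φ M₃] i ∈
        (Mo (B.erase x) (H49BK.delB x inc) (gp ι)).map Φ := by
      intro i
      fin_cases i
      · exact ⟨M₁, hM₁, rfl⟩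
      · exact ⟨M₂, hM₂, rfl⟩
      · exact ⟨M₃, hM₃, rfl⟩
    have hli' : LinearIndependent (GF ι) (fun i => (⟨![Φ M₁, Φ M₂, Φ M₃] i, hmem i⟩ :
        (Mo (B.erase x) (H49BK.delB x inc) (gp ι)).map Φ)) := by
      apply LinearIndependent.of_comp
        ((Mo (B.erase x) (H49BK.delB x inc) (gp ι)).map Φ).subtype
      exact hli3
    have := hli'.fintype_card_le_finrank
    simpa using this
  unfold dof at h0 ⊢
  omega

/-- consequence of a small relative motion space: contradiction -/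
theorem ext3_small' {B : Finset β} {inc : ι → Finset β} (hsub : ∀ j, inc j ⊆ B)
    (hNR : NRi B inc) {x a b c : β} (hxa : x ≠ a) (hxb : x ≠ b) (hxc : x ≠ c) (hab : a ≠ b)
    {e f g : ι} (hef : e ≠ f) (heg : e ≠ g) (hfg : f ≠ g)
    (he : inc e = {x, a}) (hf : inc f = {x, b}) (hg : inc g = {x, c})
    (hsmall : finrank (GF ι) (Mo (B.erase x) (H49BK.delB x inc) (gp ι)) ≤
      finrank (GF ι) (Mo (B.erase x) (H49BK.delB x inc) (gp ι) ⊓
        (LinearMap.ker (dm (GF ι) a b) ⊓ LinearMap.ker (dm (GF ι) a c)) :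
          Submodule (GF ι) (β → Tw (GF ι))) + 2) : False := by
  have haB : a ∈ B := hsub e (by rw [he]; simp)
  have hbB : b ∈ B := hsub f (by rw [hf]; simp)
  have hthree := three_le_rel' hsub hNR hxc hg
  -- the bar cuts
  obtain ⟨M₀, hM₀, hne⟩ := (hNR.delB x) a (Finset.mem_erase.2 ⟨hxa.symm, haB⟩) b
    (Finset.mem_erase.2 ⟨hxb.symm, hbB⟩) hab
  obtain ⟨p, q, hpq⟩ := exists_bil_ne (sub_ne_zero.2 hne)
  set X : ι → Pt (GF ι) := Function.update (Function.update (gp ι) e p) f q with hX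
  have hXe : X e = p := by rw [hX, Function.update_of_ne hef, Function.update_self]
  have hXf : X f = q := by rw [hX, Function.update_self]
  have hcongr := Mo_delB_update2 B (gp ι) hxa hxb he hf p q
  have h1 := finrank_MoBar_le (B.erase x) (H49BK.delB x inc) X a b e f
  have h2 : MoBar (B.erase x) (H49BK.delB x inc) X a b e f ≤
      Mo (B.erase x) (H49BK.delB x inc) (gp ι) ⊓ LinearMap.ker (barL a b p q) := by
    rintro M ⟨hM, h0⟩
    refine ⟨by rw [← hcongr]; exact hM, ?_⟩
    rw [hXe, hXf] at h0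
    exact h0
  have h3 := Submodule.finrank_mono h2
  have h4 := finrank_inf_ker_lt (barL a b p q) (Mo (B.erase x) (H49BK.delB x inc) (gp ι))
    ⟨M₀, hM₀, hpq⟩
  set N₀ : Submodule (GF ι) (β → Tw (GF ι)) := Mo (B.erase x) (H49BK.delB x inc) (gp ι) ⊓
        (LinearMap.ker (dm (GF ι) a b) ⊓ LinearMap.ker (dm (GF ι) a c)) with hN₀
  set N₁ := MoBar (B.erase x) (H49BK.delB x inc) (gp ι) a b e f with hN₁
  have h5 : N₀ ≤ N₁ := by
    rintro M ⟨hM, hM1, _⟩
    refine ⟨hM, ?_⟩
    rw [SetLike.mem_coe, LinearMap.mem_ker, dm_apply] at hM1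
    rw [SetLike.mem_coe, LinearMap.mem_ker, barL_apply, hM1]
    simp [bil]
  have h6 : finrank (GF ι) N₁ ≤ finrank (GF ι) N₀ + 1 := by omega
  have h7 : (Mo B (H49BK.delJ g inc) (gp ι)).map (rx (GF ι) x) ≤ N₁ := by
    rintro _ ⟨M, hM, rfl⟩
    refine ⟨?_, ?_⟩
    · have := rx_mem' (x := x) hM
      refine ⟨this.1, fun j y hy z hz => ?_⟩
      by_cases hjg : j = g
      · subst hjg
        have hy' := (mem_delB.1 hy)
        have hz' := (mem_delB.1 hz)
        rw [hg] at hy' hz'
        simp only [Finset.mem_insert, Finset.mem_singleton] at hy' hz'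
        have e1 : y = c := hy'.2.resolve_left hy'.1
        have e2 : z = c := hz'.2.resolve_left hz'.1
        rw [e1, e2]
      · refine this.2 j y ?_ z ?_
        · rw [mem_delB, delJ_ne hjg]; exact mem_delB.1 hy
        · rw [mem_delB, delJ_ne hjg]; exact mem_delB.1 hz
    · rw [SetLike.mem_coe, LinearMap.mem_ker, barL_apply, rx_ne hxa.symm, rx_ne hxb.symm]
      exact bar_of (ev_eq_of_pair hM (by rw [delJ_ne heg]; exact he))
        (ev_eq_of_pair hM (by rw [delJ_ne hfg]; exact hf))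
  have h8 := finrank_le_comap_add_one (rx (GF ι) x) (Mo B (H49BK.delJ g inc) (gp ι)) N₁ N₀ h7 h5 h6
  have h9 := finrank_map_le_add (dm (GF ι) x c)
    (inf_le_left : Mo B (H49BK.delJ g inc) (gp ι) ⊓ N₀.comap (rx (GF ι) x) ≤
      Mo B (H49BK.delJ g inc) (gp ι))
  have h10 : (Mo B (H49BK.delJ g inc) (gp ι) ⊓ N₀.comap (rx (GF ι) x)).map (dm (GF ι) x c) ≤
      van1 (gp ι e) ⊓ van1 (gp ι f) := by
    rintro _ ⟨M, ⟨hM, hM0⟩, rfl⟩
    rw [SetLike.mem_coe, Submodule.mem_comap] at hM0
    obtain ⟨_, hM1, hM2⟩ := hM0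
    rw [SetLike.mem_coe, LinearMap.mem_ker, dm_apply, rx_ne hxa.symm] at hM1 hM2
    rw [rx_ne hxb.symm] at hM1
    rw [rx_ne hxc.symm] at hM2
    have e1 := ev_eq_of_pair hM (v := e) (by rw [delJ_ne heg]; exact he)
    have e2 := ev_eq_of_pair hM (v := f) (by rw [delJ_ne hfg]; exact hf)
    rw [sub_eq_zero] at hM1 hM2
    refine ⟨?_, ?_⟩
    · change ev (M x - M c) (gp ι e) = 0
      rw [ev_sub_left, e1, hM2, sub_self]
    · change ev (M x - M c) (gp ι f) = 0
      rw [ev_sub_left, e2, ← hM1, hM2, sub_self]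
  have h11 := Submodule.finrank_mono h10
  rw [finrank_van2 (gp_pair hef)] at h11
  omega

/-- integrability applied to a proportionality of the restricted difference maps -/
theorem prop_contra' {B : Finset β} {inc : ι → Finset β} (hsub : ∀ j, inc j ⊆ B)
    (hNR : NRi B inc) {a b c : β} (ha : a ∈ B) (hb : b ∈ B) (hc : c ∈ B) (hac : a ≠ c)
    (hbc : b ≠ c) {lam : GF ι}
    (hlam : ∀ M ∈ Mo B inc (gp ι), M a - M c = lam • (M a - M b))
    (h2 : 2 ≤ finrank (GF ι) ((Mo B inc (gp ι)).map (dm (GF ι) a b))) : False := by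
  obtain ⟨f, hf⟩ := exists_linearIndependent_of_le_finrank (R := GF ι)
    (M := (Mo B inc (gp ι)).map (dm (GF ι) a b)) (n := 2) h2
  obtain ⟨M₁, hM₁, h1⟩ := (f 0).2
  obtain ⟨M₂, hM₂, h2⟩ := (f 1).2
  have hf' := hf.map' ((Mo B inc (gp ι)).map (dm (GF ι) a b)).subtype (Submodule.ker_subtype _)
  have hli : LinearIndependent (GF ι) ![M₁ b - M₁ a, M₂ b - M₂ a] := by
    have heq : ![M₁ a - M₁ b, M₂ a - M₂ b]
        = ((Mo B inc (gp ι)).map (dm (GF ι) a b)).subtype ∘ f := by
      funext i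
      fin_cases i
      · exact h1
      · exact h2
    rw [← heq, LinearIndependent.pair_iff] at hf'
    rw [LinearIndependent.pair_iff]
    intro u v huv
    apply hf' u v
    have : u • (M₁ a - M₁ b) + v • (M₂ a - M₂ b)
        = -(u • (M₁ b - M₁ a) + v • (M₂ b - M₂ a)) := by
      rw [smul_sub, smul_sub, smul_sub, smul_sub]; abel
    rw [this, huv, neg_zero]
  have hcases := lambda_zero_or_one_Mo B inc hsub
    ha hb hc lam (fun M hM => by
      have := hlam M hM
      calc M c - M a = -(M a - M c) := by abel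
        _ = lam • (M b - M a) := by rw [this, ← smul_neg, neg_sub])
    ⟨M₁, hM₁, M₂, hM₂, hli⟩
  rcases hcases with h0 | h0
  · obtain ⟨M, hM, hne⟩ := hNR a ha c hc hac
    have := hlam M hM
    rw [h0, zero_smul, sub_eq_zero] at this
    exact hne this
  · obtain ⟨M, hM, hne⟩ := hNR b hb c hc hbc
    have := hlam M hM
    rw [h0, one_smul] at this
    exact hne (sub_right_injective this).symm

/-- a body with three joints, all to different bodies -/
theorem ext33 {B : Finset β} {inc : ι → Finset β} (h : Good B inc)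
    {x a b c : β} (hxa : x ≠ a) (hxb : x ≠ b) (hxc : x ≠ c) (hab : a ≠ b) (hac : a ≠ c)
    (hbc : b ≠ c) {e f g : ι} (hef : e ≠ f) (heg : e ≠ g) (hfg : f ≠ g)
    (_hJ : Jx inc x = {e, f, g}) (he : inc e = {x, a}) (hf : inc f = {x, b})
    (hg : inc g = {x, c}) :
    dof B inc + 3 ≤ dof (B.erase x) (H49BK.delB x inc) := by
  have haB : a ∈ B := h.sub e (by rw [he]; simp)
  have hbB : b ∈ B := h.sub f (by rw [hf]; simp)
  have hcB : c ∈ B := h.sub g (by rw [hg]; simp)
  have ha' : a ∈ B.erase x := Finset.mem_erase.2 ⟨hxa.symm, haB⟩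
  have hb' : b ∈ B.erase x := Finset.mem_erase.2 ⟨hxb.symm, hbB⟩
  have hc' : c ∈ B.erase x := Finset.mem_erase.2 ⟨hxc.symm, hcB⟩
  have hNR' := h.nr.delB x
  have hsub' := delB_sub h.sub x
  set E := Mo (B.erase x) (H49BK.delB x inc) (gp ι) with hE
  set A : E →ₗ[GF ι] Tw (GF ι) := (dm (GF ι) a b).domRestrict E with hA
  set C : E →ₗ[GF ι] Tw (GF ι) := (dm (GF ι) a c).domRestrict E with hC
  by_cases hTH : TH A C
  swap
  · unfold TH at hTH
    push Not at hTH
    obtain ⟨p₁, p₂, p₃, M₁, M₂, M₃, hd⟩ := hTH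
    exact ext3_free' hxa hxb hxc hef heg hfg he hf hg M₁.2 M₂.2 M₃.2 hd
  · exfalso
    have hA0 : A ≠ 0 := by
      intro h0
      obtain ⟨M, hM, hn⟩ := hNR' a ha' b hb' hab
      have := LinearMap.congr_fun h0 ⟨M, hM⟩
      exact hn (sub_eq_zero.1 this)
    have hC0 : C ≠ 0 := by
      intro h0
      obtain ⟨M, hM, hn⟩ := hNR' a ha' c hc' hac
      have := LinearMap.congr_fun h0 ⟨M, hM⟩
      exact hn (sub_eq_zero.1 this)
    have hCA : C ≠ A := by
      intro h0
      obtain ⟨M, hM, hn⟩ := hNR' b hb' c hc' hbc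
      have h1 := LinearMap.congr_fun h0 ⟨M, hM⟩
      have h2 : M a - M c = M a - M b := h1
      exact hn (sub_right_injective h2).symm
    -- translation of the small case
    have small : finrank (GF ι) E ≤
        finrank (GF ι) (LinearMap.ker A ⊓ LinearMap.ker C : Submodule (GF ι) E) + 2 → False := by
      intro h'
      apply ext3_small' h.sub h.nr hxa hxb hxc hab hef heg hfg he hf hg
      have h2 : (Mo (B.erase x) (H49BK.delB x inc) (gp ι) ⊓
        (LinearMap.ker (dm (GF ι) a b) ⊓ LinearMap.ker (dm (GF ι) a c)) :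
          Submodule (GF ι) (β → Tw (GF ι)))
          = (LinearMap.ker A ⊓ LinearMap.ker C : Submodule (GF ι) E).map E.subtype := by
        ext M
        constructor
        · rintro ⟨h1, h2, h3⟩
          exact ⟨⟨M, h1⟩, ⟨h2, h3⟩, rfl⟩
        · rintro ⟨M, ⟨h2, h3⟩, rfl⟩
          exact ⟨M.2, h2, h3⟩
      rw [h2, Submodule.finrank_map_subtype_eq]
      exact h'
    have rangeA : LinearMap.range A = E.map (dm (GF ι) a b) := by
      rw [hA, LinearMap.range_domRestrict]
    have rangeC : LinearMap.range C = E.map (dm (GF ι) a c) := by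
      rw [hC, LinearMap.range_domRestrict]
    rcases triangle_lemma A C hA0 hC0 hCA hTH with ⟨lam, hlam⟩ | ⟨lam, hlam⟩ | h
    · by_cases hr : 2 ≤ finrank (GF ι) (LinearMap.range A)
      · rw [rangeA] at hr
        exact prop_contra' hsub' hNR' ha' hb' hc' hac hbc (lam := lam) (fun M hM => by
          have := LinearMap.congr_fun hlam ⟨M, hM⟩
          exact this) hr
      · apply small
        have h1 := LinearMap.finrank_range_add_finrank_ker A
        have h2 : LinearMap.ker A ≤ LinearMap.ker A ⊓ LinearMap.ker C := by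
          refine le_inf le_rfl ?_
          intro M hM
          rw [LinearMap.mem_ker] at hM ⊢
          rw [hlam, LinearMap.smul_apply, hM, smul_zero]
        have h3 := Submodule.finrank_mono h2
        omega
    · by_cases hr : 2 ≤ finrank (GF ι) (LinearMap.range C)
      · rw [rangeC] at hr
        exact prop_contra' hsub' hNR' ha' hc' hb' hab hbc.symm (lam := lam) (fun M hM => by
          have := LinearMap.congr_fun hlam ⟨M, hM⟩
          exact this) hr
      · apply small
        have h1 := LinearMap.finrank_range_add_finrank_ker C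
        have h2 : LinearMap.ker C ≤ LinearMap.ker A ⊓ LinearMap.ker C := by
          refine le_inf ?_ le_rfl
          intro M hM
          rw [LinearMap.mem_ker] at hM ⊢
          rw [hlam, LinearMap.smul_apply, hM, smul_zero]
        have h3 := Submodule.finrank_mono h2
        omega
    · exact small h

end gen

end Pool.Agent.H49BK
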