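import Pool.Agent.H49BK.Defs
import Pool.Agent.H49BJ.Count

/-!
# The graph side, purely combinatorial (package R7 of helper49, MP_212c18_co)
-/

open Matrix Module

namespace Pool.Agent.H49BK

open Pool.Agent.H49BJ

open SimpleGraph

variable {V : Type} [Fintype V] [DecidableEq V] {β : Type*} [Fintype β] [DecidableEq β]

/-- a family of vertex sets covering all edges and all K4s, with small intersections -/
structure Fam (G : SimpleGraph V) (U : β → Finset V) : Prop where
  four : ∀ b, 4 ≤ (U b).card
  two : ∀ a b, a ≠ b → (U a ∩ U b).card ≤ 2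
  edge : ∀ u v, G.Adj u v → ∃ b, u ∈ U b ∧ v ∈ U b
  clique : ∀ T : Finset V, G.IsNClique 4 T → ∃ b, T ⊆ U b

omit [Fintype V] [DecidableEq β] in
theorem gc_mem_incOf {U : β → Finset V} {v : V} {b : β} : b ∈ incOf U v ↔ v ∈ U b := by
  simp [incOf]

theorem gc_mem_Jx {U : β → Finset V} {c : β} {v : V} :
    v ∈ Jx (incOf U) c ↔ v ∈ U c ∧ 2 ≤ (incOf U v).card := by
  simp [Jx, gc_mem_incOf]

theorem gc_mem_Jx_of {U : β → Finset V} {c b : β} (hcb : c ≠ b) {v : V} (h1 : v ∈ U c)
    (h2 : v ∈ U b) : v ∈ Jx (incOf U) c := by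
  rw [gc_mem_Jx]
  refine ⟨h1, ?_⟩
  rw [← Finset.card_pair hcb]
  apply Finset.card_le_card
  intro z hz
  simp only [Finset.mem_insert, Finset.mem_singleton] at hz
  rcases hz with rfl | rfl
  · exact gc_mem_incOf.2 h1
  · exact gc_mem_incOf.2 h2

theorem gc_Jx_sub (U : β → Finset V) (c : β) : Jx (incOf U) c ⊆ U c := fun _ hv =>
  (gc_mem_Jx.1 hv).1

omit [Fintype β] in
theorem gc_miss {G : SimpleGraph V} {U : β → Finset V} (hF : Fam G U)
    {a b : β} (hab : a ≠ b) (c : β) : ∃ v, v ∉ U c := by
  obtain ⟨c', hc'⟩ : ∃ c', c ≠ c' := by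
    by_cases h : c = a
    · exact ⟨b, by rw [h]; exact hab⟩
    · exact ⟨a, h⟩
  by_contra hcon
  push Not at hcon
  have h1 : U c ∩ U c' = U c' := Finset.inter_eq_right.2 (fun x _ => hcon x)
  have := hF.two c c' hc'
  rw [h1] at this
  have := hF.four c'
  omega

theorem gc_priv {G : SimpleGraph V} {U : β → Finset V} (h6 : KConn 6 G) (hF : Fam G U)
    {a b : β} (hab : a ≠ b) (c : β) (hc : ¬ (U c ⊆ Jx (incOf U) c)) :
    6 ≤ (Jx (incOf U) c).card := by
  obtain ⟨p, hp, hpJ⟩ := Finset.not_subset.1 hc
  obtain ⟨q, hq⟩ := gc_miss hF hab c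
  refine h6.cut (Jx (incOf U) c) (U c) hp hpJ hq (fun h => hq (gc_Jx_sub U c h)) ?_
  intro x hx hxS y hy _ hadj
  obtain ⟨b'', hb1, hb2⟩ := hF.edge x y hadj
  have hne : c ≠ b'' := by rintro rfl; exact hy hb2
  exact hxS (gc_mem_Jx_of hne hx hb1)

theorem graph_deg {G : SimpleGraph V} {U : β → Finset V} (h6 : KConn 6 G) (hF : Fam G U)
    {a b : β} (hab : a ≠ b) (c : β) : 4 ≤ (Jx (incOf U) c).card := by
  by_cases h : U c ⊆ Jx (incOf U) c
  · exact (hF.four c).trans (Finset.card_le_card h)
  · have := gc_priv h6 hF hab c h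
    omega

theorem gc_small {G : SimpleGraph V} {U : β → Finset V} (h6 : KConn 6 G) (hF : Fam G U)
    {a b : β} (hab : a ≠ b) (c : β) (hc : (Jx (incOf U) c).card < 6) :
    Jx (incOf U) c = U c := by
  apply Finset.Subset.antisymm (gc_Jx_sub U c)
  by_contra h
  have := gc_priv h6 hF hab c h
  omega

theorem graph_hinge {G : SimpleGraph V} {U : β → Finset V} (h6 : KConn 6 G) (hF : Fam G U)
    {v u : V} (hvu : v ≠ u) {x y : β} (hxy : x ≠ y) (hv : incOf U v = {x, y})
    (hux : x ∈ incOf U u) (huy : y ∈ incOf U u) :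
    ¬ ((Jx (incOf U) x).card = 4 ∧ (Jx (incOf U) y).card = 4) := by
  rintro ⟨hx4, hy4⟩
  have ex := gc_small h6 hF hxy x (by omega)
  have ey := gc_small h6 hF hxy y (by omega)
  rw [ex] at hx4
  rw [ey] at hy4
  have hvx : v ∈ U x := gc_mem_incOf.1 (by rw [hv]; simp)
  have hvy : v ∈ U y := gc_mem_incOf.1 (by rw [hv]; simp)
  have hux' := gc_mem_incOf.1 hux
  have huy' := gc_mem_incOf.1 huy
  have hint : 2 ≤ (U x ∩ U y).card := by
    rw [← Finset.card_pair hvu]
    apply Finset.card_le_card
    intro z hz
    simp only [Finset.mem_insert, Finset.mem_singleton] at hz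
    rcases hz with rfl | rfl
    · exact Finset.mem_inter.2 ⟨hvx, hvy⟩
    · exact Finset.mem_inter.2 ⟨hux', huy'⟩
  have hcard := Finset.card_union_add_card_inter (U x) (U y)
  have hV := h6.1
  obtain ⟨c, hc⟩ : ∃ c, c ∉ U x ∪ U y := by
    by_contra hcon
    push Not at hcon
    have : U x ∪ U y = Finset.univ := Finset.eq_univ_iff_forall.2 hcon
    rw [this, Finset.card_univ] at hcard
    omega
  have hvm : v ∈ U x ∪ U y := Finset.mem_union_left _ hvx
  have hcut := h6.cut ((U x ∪ U y).erase v) {v} (a := v) (c := c) (Finset.mem_singleton_self v)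
    (Finset.notMem_erase v _) (by
      rw [Finset.mem_singleton]
      rintro rfl
      exact hc hvm) (fun h => hc (Finset.mem_of_mem_erase h)) (by
      intro z hz _ t ht htS hadj
      rw [Finset.mem_singleton] at hz ht
      subst hz
      obtain ⟨b'', hb1, hb2⟩ := hF.edge z t hadj
      have hb : b'' ∈ incOf U z := gc_mem_incOf.2 hb1
      rw [hv] at hb
      simp only [Finset.mem_insert, Finset.mem_singleton] at hb
      apply htS
      rw [Finset.mem_erase]
      refine ⟨ht, ?_⟩
      rcases hb with rfl | rfl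
      · exact Finset.mem_union_left _ hb2
      · exact Finset.mem_union_right _ hb2)
  rw [Finset.card_erase_of_mem hvm] at hcut
  omega

theorem graph_pair {G : SimpleGraph V} {U : β → Finset V} (h6 : KConn 6 G) (hF : Fam G U)
    {i j : V} (hij : i ≠ j) {x y : β} (hxy : x ≠ y) (hi : incOf U i = {x, y})
    (hj : incOf U j = {x, y}) :
    10 ≤ (Jx (incOf U) x).card + (Jx (incOf U) y).card := by
  have hix : i ∈ U x := gc_mem_incOf.1 (by rw [hi]; simp)
  have hiy : i ∈ U y := gc_mem_incOf.1 (by rw [hi]; simp)
  have hjx : j ∈ U x := gc_mem_incOf.1 (by rw [hj]; simp)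
  have hjy : j ∈ U y := gc_mem_incOf.1 (by rw [hj]; simp)
  by_cases hW : ∃ c, c ∉ U x ∪ U y
  · obtain ⟨c, hc⟩ := hW
    obtain ⟨S, hS⟩ : ∃ S : Finset V, S = (U x ∪ U y).filter
        (fun w => ∃ b, b ≠ x ∧ b ≠ y ∧ w ∈ U b) := ⟨_, rfl⟩
    have hiS : i ∉ S := by
      rw [hS, Finset.mem_filter]
      rintro ⟨_, b, hbx, hby, hb⟩
      have := gc_mem_incOf.2 hb
      rw [hi] at this
      simp only [Finset.mem_insert, Finset.mem_singleton] at this
      tauto
    have hjS : j ∉ S := by
      rw [hS, Finset.mem_filter]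
      rintro ⟨_, b, hbx, hby, hb⟩
      have := gc_mem_incOf.2 hb
      rw [hj] at this
      simp only [Finset.mem_insert, Finset.mem_singleton] at this
      tauto
    have h6S : 6 ≤ S.card := by
      refine h6.cut S (U x ∪ U y) (a := i) (c := c) (Finset.mem_union_left _ hix) hiS hc ?_ ?_
      · intro h
        rw [hS, Finset.mem_filter] at h
        exact hc h.1
      · intro w hw hwS t ht _ hadj
        obtain ⟨b'', hb1, hb2⟩ := hF.edge w t hadj
        apply hwS
        rw [hS, Finset.mem_filter]
        refine ⟨hw, b'', ?_, ?_, hb1⟩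
        · rintro rfl
          exact ht (Finset.mem_union_left _ hb2)
        · rintro rfl
          exact ht (Finset.mem_union_right _ hb2)
    have hun : 8 ≤ (Jx (incOf U) x ∪ Jx (incOf U) y).card := by
      have hsub : insert i (insert j S) ⊆ Jx (incOf U) x ∪ Jx (incOf U) y := by
        intro w hw
        simp only [Finset.mem_insert] at hw
        rcases hw with rfl | rfl | hw
        · exact Finset.mem_union_left _ (gc_mem_Jx_of hxy hix hiy)
        · exact Finset.mem_union_left _ (gc_mem_Jx_of hxy hjx hjy)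
        · rw [hS, Finset.mem_filter] at hw
          obtain ⟨hw, b, hbx, hby, hb⟩ := hw
          rcases Finset.mem_union.1 hw with h | h
          · exact Finset.mem_union_left _ (gc_mem_Jx_of hbx.symm h hb)
          · exact Finset.mem_union_right _ (gc_mem_Jx_of hby.symm h hb)
      have h1 := Finset.card_le_card hsub
      rw [Finset.card_insert_of_notMem, Finset.card_insert_of_notMem hjS] at h1
      · omega
      · rw [Finset.mem_insert]
        rintro (h | h)
        · exact hij h
        · exact hiS h
    have hin : 2 ≤ (Jx (incOf U) x ∩ Jx (incOf U) y).card := by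
      rw [← Finset.card_pair hij]
      apply Finset.card_le_card
      intro z hz
      simp only [Finset.mem_insert, Finset.mem_singleton] at hz
      rcases hz with rfl | rfl
      · exact Finset.mem_inter.2 ⟨gc_mem_Jx_of hxy hix hiy, gc_mem_Jx_of hxy.symm hiy hix⟩
      · exact Finset.mem_inter.2 ⟨gc_mem_Jx_of hxy hjx hjy, gc_mem_Jx_of hxy.symm hjy hjx⟩
    have := Finset.card_union_add_card_inter (Jx (incOf U) x) (Jx (incOf U) y)
    omega
  · push Not at hW
    have hdx := graph_deg h6 hF hxy x
    have hdy := graph_deg h6 hF hxy y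
    by_contra hlt
    have ex := gc_small h6 hF hxy x (by omega)
    have ey := gc_small h6 hF hxy y (by omega)
    rw [ex, ey] at hlt
    have hcard := Finset.card_union_add_card_inter (U x) (U y)
    have huniv : U x ∪ U y = Finset.univ := Finset.eq_univ_iff_forall.2 hW
    rw [huniv, Finset.card_univ] at hcard
    have hV := h6.1
    have hin : 2 ≤ (U x ∩ U y).card := by
      rw [← Finset.card_pair hij]
      apply Finset.card_le_card
      intro z hz
      simp only [Finset.mem_insert, Finset.mem_singleton] at hz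
      rcases hz with rfl | rfl
      · exact Finset.mem_inter.2 ⟨hix, hiy⟩
      · exact Finset.mem_inter.2 ⟨hjx, hjy⟩
    have hV7 : Fintype.card V = 7 := by omega
    -- the graph is complete
    have hcomp : ∀ s t : V, s ≠ t → G.Adj s t := by
      intro s t hst
      by_contra hnadj
      have hcut := h6.cut (({s, t} : Finset V)ᶜ) {s} (a := s) (c := t) (Finset.mem_singleton_self s)
        (by simp) (by simpa using hst.symm) (by simp) (by
          intro p hp _ q hq hqS hadj
          simp only [Finset.mem_singleton, Finset.mem_compl, Finset.mem_insert, not_or,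
            not_and, not_not] at hp hq hqS
          subst hp
          have := hqS hq
          subst this
          exact hnadj hadj)
      rw [Finset.card_compl, Finset.card_pair hst, hV7] at hcut
      omega
    have h2 := hF.two x y hxy
    obtain ⟨w, hwx, hwy⟩ : ∃ w ∈ U x, w ∉ U y := by
      by_contra hcon
      push Not at hcon
      have h3 : U x ∩ U y = U x := Finset.inter_eq_left.2 (fun z hz => hcon z hz)
      rw [h3] at h2
      have := hF.four x
      omega
    obtain ⟨w', hwy', hwx'⟩ : ∃ w ∈ U y, w ∉ U x := by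
      by_contra hcon
      push Not at hcon
      have h3 : U x ∩ U y = U y := Finset.inter_eq_right.2 (fun z hz => hcon z hz)
      rw [h3] at h2
      have := hF.four y
      omega
    obtain ⟨z, hz⟩ : ∃ z, z ∉ ({i, w, w'} : Finset V) := by
      by_contra hcon
      push Not at hcon
      have h3 : ({i, w, w'} : Finset V) = Finset.univ := Finset.eq_univ_iff_forall.2 hcon
      have h4 : ({i, w, w'} : Finset V).card ≤ 3 := Finset.card_le_three
      rw [h3, Finset.card_univ] at h4
      omega
    have hiw : i ≠ w := by rintro rfl; exact hwy hiy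
    have hiw' : i ≠ w' := by rintro rfl; exact hwx' hix
    have hww' : w ≠ w' := by rintro rfl; exact hwy hwy'
    simp only [Finset.mem_insert, Finset.mem_singleton, not_or] at hz
    obtain ⟨hzi, hzw, hzw'⟩ := hz
    have hT : G.IsNClique 4 {z, i, w, w'} := by
      rw [SimpleGraph.isNClique_iff]
      constructor
      · intro p _ q _ hpq
        exact hcomp p q hpq
      · rw [Finset.card_insert_of_notMem (by simp [hzi, hzw, hzw']),
          Finset.card_insert_of_notMem (by simp [hiw, hiw']), Finset.card_pair hww']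
    obtain ⟨b, hb⟩ := hF.clique _ hT
    have hbi : b ∈ incOf U i := gc_mem_incOf.2 (hb (by simp))
    rw [hi] at hbi
    simp only [Finset.mem_insert, Finset.mem_singleton] at hbi
    rcases hbi with rfl | rfl
    · exact hwx' (hb (by simp))
    · exact hwy (hb (by simp))

end Pool.Agent.H49BK
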