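import Pool.Agent.H49BK.Main
import Pool.Agent.H49BK.GComb
import Pool.Agent.H49BJ.Classes
import Pool.Agent.H49BJ.Rigid
import Pool.Agent.H49BJ.Final

/-!
# Every 6-connected K4-covered graph is rigid in 3-space
-/

open Matrix Module

namespace Pool.Agent.H49BK

open Pool.Agent.H49BJ

open SimpleGraph

variable {V : Type} [Fintype V] [DecidableEq V]

open Classical in
/-- the vertices that move with the class `b` in every infinitesimal motion -/
noncomputable def Uh (G : SimpleGraph V) (b : Cls G) : Finset V :=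
  Finset.univ.filter (fun v => ∀ ξ : PM G (gp V), ev (b.1 ξ) (gp V v) = ξ.1 v)

theorem mem_Uh {G : SimpleGraph V} {b : Cls G} {v : V} :
    v ∈ Uh G b ↔ ∀ ξ : PM G (gp V), ev (b.1 ξ) (gp V v) = ξ.1 v := by
  simp [Uh]

theorem Vb_subset_Uh (G : SimpleGraph V) (b : Cls G) : Vb G b ⊆ Uh G b := by
  intro v hv
  rw [mem_Uh]
  intro ξ
  exact ev_cls G b ξ hv

open Classical in
theorem fam (G : SimpleGraph V) (hK : K4Covered G) : Fam G (Uh G) where
  four b := (four_le_Vb G b).trans (Finset.card_le_card (Vb_subset_Uh G b))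
  two := by
    intro a b hab
    by_contra hcon
    push Not at hcon
    obtain ⟨u, v, w, hu, hv, hw, huv, huw, hvw⟩ := Finset.two_lt_card_iff.mp hcon
    rw [Finset.mem_inter, mem_Uh, mem_Uh] at hu hv hw
    apply hab
    apply Subtype.ext
    apply LinearMap.ext
    intro ξ
    exact tw_eq_of_three huv huw hvw (by rw [hu.1, hu.2]) (by rw [hv.1, hv.2])
      (by rw [hw.1, hw.2])
  edge := by
    intro u v h
    obtain ⟨b, hu, hv⟩ := edge_cls G hK h
    exact ⟨b, Vb_subset_Uh G b hu, Vb_subset_Uh G b hv⟩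
  clique := by
    intro T hT
    exact ⟨clsOf G ⟨T, hT⟩, fun v hv => Vb_subset_Uh G _ (mem_Vb_clsOf hv)⟩

/-- the motion of the structure given by an infinitesimal motion of the graph -/
theorem mot_mem (G : SimpleGraph V) [DecidableEq (Cls G)] (ξ : PM G (gp V)) :
    (fun c : Cls G => c.1 ξ) ∈ Mo (Finset.univ : Finset (Cls G)) (incOf (Uh G)) (gp V) := by
  refine ⟨fun c hc => absurd (Finset.mem_univ c) hc, fun j a ha b hb => ?_⟩
  rw [gc_mem_incOf, mem_Uh] at ha hb
  change ev (a.1 ξ) (gp V j) = ev (b.1 ξ) (gp V j)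
  rw [ha, hb]

theorem good (G : SimpleGraph V) [DecidableEq (Cls G)] :
    Good (Finset.univ : Finset (Cls G)) (incOf (Uh G)) where
  sub j := Finset.subset_univ _
  nr := by
    intro a _ b _ hab
    have : ∃ ξ, a.1 ξ ≠ b.1 ξ := by
      by_contra hc
      push Not at hc
      exact hab (Subtype.ext (LinearMap.ext hc))
    obtain ⟨ξ, hξ⟩ := this
    exact ⟨_, mot_mem G ξ, hξ⟩
  clo := by
    intro j _ a ha b _ hb
    rw [gc_mem_incOf, mem_Uh] at ha hb
    push Not at hb
    obtain ⟨ξ, hξ⟩ := hb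
    refine ⟨_, mot_mem G ξ, ?_⟩
    change ev (a.1 ξ) (gp V j) ≠ ev (b.1 ξ) (gp V j)
    rw [ha]
    exact hξ.symm

open Classical in
theorem card_cls_le_one' (G : SimpleGraph V) (h6 : KConn 6 G) (hK : K4Covered G) :
    Fintype.card (Cls G) ≤ 1 := by
  by_contra hcon
  push Not at hcon
  obtain ⟨a, b, hab⟩ := Fintype.exists_pair_of_one_lt_card hcon
  have hF := fam G hK
  have hg := good G
  have h1 := main_bound hg
  have h2 := seven_le_dof hg.sub hg.nr (by rw [Finset.card_univ]; omega)
  have h3 := discharge (Finset.univ : Finset (Cls G)) (incOf (Uh G)) hg.sub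
    (fun c _ => graph_deg h6 hF hab c) (fun a b hab => common_le hg.sub hg.nr hab)
    (fun i j hij hi x y hxy hx => graph_pair h6 hF hij hxy hx (hi ▸ hx))
    (fun v u hvu x y hxy hv _ hx hy => graph_hinge h6 hF hvu hxy hv hx hy)
    (fun u _ S hS hS2 => spherical hg.sub hg.nr u hS hS2)
  omega

theorem finrank_PM_le6 (G : SimpleGraph V) (h6 : KConn 6 G) (hK : K4Covered G) :
    finrank (GF V) (PM G (gp V)) ≤ 6 := by
  have h1 := card_cls_le_one' G h6 hK
  have hcl : ∀ v, ∃ b : Cls G, v ∈ Vb G b := by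
    intro v
    obtain ⟨w, hw⟩ := h6.exists_adj v
    obtain ⟨b, hb, _⟩ := edge_cls G hK hw
    exact ⟨b, hb⟩
  have : Nonempty V := Fintype.card_pos_iff.1 (by have := h6.1; omega)
  obtain ⟨b, _⟩ := hcl (Classical.arbitrary V)
  have hall : ∀ v, v ∈ Vb G b := by
    intro v
    obtain ⟨b', hb'⟩ := hcl v
    have : b' = b := Fintype.card_le_one_iff.1 h1 b' b
    rwa [this] at hb'
  have hinj : Function.Injective b.1 := by
    rw [injective_iff_map_eq_zero]
    intro ξ hξ
    apply Subtype.ext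
    funext v
    have := ev_cls G b ξ (hall v)
    rw [hξ, ev_zero_left] at this
    exact this.symm
  have := LinearMap.finrank_le_finrank_of_injective hinj
  simpa using this

/-- **Main theorem.** Every 6-connected `K₄`-covered graph is rigid in `ℝ³`. -/
theorem six_connected_rigid (G : SimpleGraph V) (h6 : KConn 6 G) (hK : K4Covered G) :
    Rigid3 G :=
  rigid_of_finrank_PM_le G h6.1 (finrank_PM_le6 G h6 hK)

end Pool.Agent.H49BK
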