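import Pool.Agent.H49BK.Ext

/-!
# The spherical bound
-/

open Matrix Module

namespace Pool.Agent.H49BK

open Pool.Agent.H49BJ

section spher

variable {β ι : Type*}

/-- restriction of motions -/
theorem NRi.restrict_sub {B B' : Finset β} {inc inc' : ι → Finset β} (h : NRi B inc)
    (hB : B' ⊆ B) (hinc : ∀ j, inc' j ⊆ inc j) (hsub : ∀ j, inc' j ⊆ B') : NRi B' inc' := by
  classical
  intro a ha b hb hab
  obtain ⟨M, hM, hne⟩ := h a (hB ha) b (hB hb) hab
  rw [mem_Mo] at hM
  refine ⟨fun c => if c ∈ B' then M c else 0, ?_, ?_⟩
  · rw [mem_Mo]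
    refine ⟨fun c hc => by simp [hc], fun j c hc d hd => ?_⟩
    have h1 : c ∈ B' := hsub j hc
    have h2 : d ∈ B' := hsub j hd
    simp only [h1, h2, if_true]
    exact hM.2 j c (hinc j hc) d (hinc j hd)
  · simp only [ha, hb, if_true]
    exact hne

variable [Fintype β] [DecidableEq β] [Fintype ι] [DecidableEq ι]

/-- the joints of two bodies -/
def E2 (inc : ι → Finset β) (u : ι) : Finset ι :=
  Finset.univ.filter (fun v => v ≠ u ∧ (inc v).card = 2)

/-- the joints of two bodies at `x` -/
def E2x (inc : ι → Finset β) (u : ι) (x : β) : Finset ι :=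
  Finset.univ.filter (fun v => (v ≠ u ∧ (inc v).card = 2) ∧ x ∈ inc v)

omit [Fintype β] in
theorem card_E2_delB {inc : ι → Finset β} {u : ι} (h2 : ∀ j, j ≠ u → (inc j).card ≤ 2) (x : β) :
    (E2 (delB x inc) u).card + (E2x inc u x).card = (E2 inc u).card := by
  have h : E2 (delB x inc) u = (E2 inc u).filter (fun v => ¬ x ∈ inc v) := by
    ext v
    simp only [E2, Finset.mem_filter, Finset.mem_univ, true_and, delB]
    constructor
    · rintro ⟨h1, h3⟩
      by_cases hx : x ∈ inc v
      · rw [Finset.card_erase_of_mem hx] at h3
        have := h2 v h1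
        omega
      · rw [Finset.erase_eq_of_notMem hx] at h3
        exact ⟨⟨h1, h3⟩, hx⟩
    · rintro ⟨⟨h1, h3⟩, hx⟩
      rw [Finset.erase_eq_of_notMem hx]
      exact ⟨h1, h3⟩
  have h' : E2x inc u x = (E2 inc u).filter (fun v => x ∈ inc v) := by
    ext v
    simp only [E2, E2x, Finset.mem_filter, Finset.mem_univ, true_and]
  rw [h, h', add_comm, Finset.card_filter_add_card_filter_not]

omit [Fintype β] in
theorem sum_E2x {B : Finset β} {inc : ι → Finset β} {u : ι} (hsub : ∀ j, inc j ⊆ B) :
    ∑ x ∈ B, (E2x inc u x).card = 2 * (E2 inc u).card := by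
  have h : ∀ x, E2x inc u x = (E2 inc u).filter (fun v => x ∈ inc v) := by
    intro x
    ext v
    simp only [E2, E2x, Finset.mem_filter, Finset.mem_univ, true_and]
  simp_rw [h, Finset.card_filter]
  rw [Finset.sum_comm]
  have h3 : ∀ v ∈ E2 inc u, ∑ x ∈ B, (if x ∈ inc v then 1 else 0) = 2 := by
    intro v hv
    simp only [E2, Finset.mem_filter, Finset.mem_univ, true_and] at hv
    rw [← Finset.card_filter, ← hv.2]
    congr 1
    ext x
    rw [Finset.mem_filter]
    exact ⟨fun h => h.2, fun h => ⟨hsub v h, h⟩⟩
  rw [Finset.sum_congr rfl h3, Finset.sum_const, smul_eq_mul, mul_comm]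

theorem spher_aux (n : ℕ) : ∀ (B : Finset β) (inc : ι → Finset β) (u : ι),
    B.card + (E2 inc u).card = n → (∀ j, inc j ⊆ B) → B.Nonempty → inc u = B →
    (∀ j, j ≠ u → (inc j).card ≤ 2) → NRi B inc →
    dof B inc + 2 * (E2 inc u).card ≤ 3 * B.card + 3 := by
  induction n using Nat.strong_induction_on with
  | _ n ih =>
    intro B inc u hn hsub hB hu h2 hNR
    have hB1 : 0 < B.card := Finset.card_pos.2 hB
    rcases Nat.lt_or_ge B.card 2 with hc | hc
    · -- one body
      have hc1 : B.card = 1 := by omega
      have he : (E2 inc u).card = 0 := by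
        rw [Finset.card_eq_zero, E2, Finset.filter_eq_empty_iff]
        rintro v - ⟨-, hv⟩
        have := Finset.card_le_card (hsub v)
        omega
      obtain ⟨x, hx⟩ := Finset.card_eq_one.1 hc1
      have h0 := ext0 hsub x
      rw [hx, Finset.erase_singleton, dof_empty] at h0
      rw [he, hc1, hx]
      omega
    · have hxu : ∀ x ∈ B, u ∈ Jx inc x := by
        intro x hx
        rw [Jx, Finset.mem_filter, hu]
        exact ⟨Finset.mem_univ _, hx, hc⟩
      by_cases hex : ∃ x ∈ B, (E2x inc u x).card ≤ 2
      · obtain ⟨x, hx, hx2⟩ := hex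
        have hcard := card_E2_delB h2 x
        have hBc : (B.erase x).card + 1 = B.card := Finset.card_erase_add_one hx
        have hsub' : ∀ j, delB x inc j ⊆ B.erase x := fun j => Finset.erase_subset_erase x (hsub j)
        have hIH := ih ((B.erase x).card + (E2 (delB x inc) u).card) (by omega) (B.erase x)
          (delB x inc) u rfl hsub' (Finset.card_pos.1 (by omega)) (by rw [delB, hu])
          (fun j hj => (Finset.card_le_card (Finset.erase_subset _ _)).trans (h2 j hj))
          (hNR.restrict_sub (Finset.erase_subset _ _) (fun j => Finset.erase_subset _ _) hsub')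
        have hJsub : insert u (E2x inc u x) ⊆ Jx inc x := by
          intro v hv
          rcases Finset.mem_insert.1 hv with rfl | hv
          · exact hxu x hx
          · rw [E2x, Finset.mem_filter] at hv
            rw [Jx, Finset.mem_filter]
            exact ⟨Finset.mem_univ _, hv.2.2, hv.2.1.2.ge⟩
        have hJc : (E2x inc u x).card + 1 ≤ (Jx inc x).card := by
          rw [← Finset.card_insert_of_notMem (a := u)]
          · exact Finset.card_le_card hJsub
          · rw [E2x, Finset.mem_filter]
            rintro ⟨-, h, -⟩
            exact h.1 rfl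
        have h3 : (E2x inc u x).card = 0 ∨ (E2x inc u x).card = 1 ∨ (E2x inc u x).card = 2 := by
          omega
        rcases h3 with h3 | h3 | h3
        · have := ext1 hsub x (by omega)
          omega
        · have := ext2 hsub x (by omega)
          omega
        · obtain ⟨p, r, hpr, hpe⟩ := Finset.card_eq_two.1 h3
          have hp : p ∈ E2x inc u x := by rw [hpe]; simp
          have hr : r ∈ E2x inc u x := by rw [hpe]; simp
          rw [E2x, Finset.mem_filter] at hp hr
          obtain ⟨-, ⟨hpu, hp2⟩, hxp⟩ := hp
          obtain ⟨-, ⟨hru, hr2⟩, hxr⟩ := hr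
          have key : ∀ v, (inc v).card = 2 → x ∈ inc v → ∃ a, x ≠ a ∧ inc v = {x, a} := by
            intro v hv hxv
            obtain ⟨c, d, hcd, he⟩ := Finset.card_eq_two.1 hv
            rw [he, Finset.mem_insert, Finset.mem_singleton] at hxv
            rcases hxv with rfl | rfl
            · exact ⟨d, hcd, he⟩
            · exact ⟨c, hcd.symm, by rw [he, Finset.pair_comm]⟩
          obtain ⟨a, hxa, hpa⟩ := key p hp2 hxp
          obtain ⟨b, hxb, hrb⟩ := key r hr2 hxr
          have haB : a ∈ B := hsub p (by rw [hpa]; simp)
          have hbB : b ∈ B := hsub r (by rw [hrb]; simp)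
          have hab : a ≠ b := by
            rintro rfl
            have h4 := common_le hsub hNR hxa
            have h5 : ({u, p, r} : Finset ι) ⊆
                Finset.univ.filter (fun j => x ∈ inc j ∧ a ∈ inc j) := by
              intro v hv
              simp only [Finset.mem_insert, Finset.mem_singleton] at hv
              rw [Finset.mem_filter]
              refine ⟨Finset.mem_univ _, ?_⟩
              rcases hv with rfl | rfl | rfl
              · rw [hu]; exact ⟨hx, haB⟩
              · rw [hpa]; simp
              · rw [hrb]; simp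
            have h6 := Finset.card_le_card h5
            rw [Finset.card_insert_of_notMem (by simp [hpu.symm, hru.symm]),
              Finset.card_pair hpr] at h6
            omega
          have := extA3 hsub hNR hxa hxb hab hpu.symm hru.symm hpr (by rw [hu]; exact hx)
            (by rw [hu]; exact haB) (by rw [hu]; exact hbB) hpa hrb
          omega
      · push Not at hex
        have hs := sum_E2x (u := u) hsub
        have h3 : 3 * B.card ≤ ∑ x ∈ B, (E2x inc u x).card := by
          calc 3 * B.card = ∑ _x ∈ B, 3 := by rw [Finset.sum_const, smul_eq_mul, mul_comm]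
            _ ≤ _ := Finset.sum_le_sum fun x hx => hex x hx
        have h4 : 0 < (E2 inc u).card := by omega
        obtain ⟨v, hv⟩ := Finset.card_pos.1 h4
        have hv' := hv
        rw [E2, Finset.mem_filter] at hv'
        have hE : E2 (delJ v inc) u = (E2 inc u).erase v := by
          ext w
          simp only [E2, Finset.mem_filter, Finset.mem_univ, true_and, Finset.mem_erase, delJ]
          by_cases hw : w = v
          · subst hw
            simp
          · rw [Function.update_of_ne hw]
            simp [hw]
        have hEc : (E2 (delJ v inc) u).card + 1 = (E2 inc u).card := by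
          rw [hE]; exact Finset.card_erase_add_one hv
        have hinc : ∀ j, delJ v inc j ⊆ inc j := by
          intro j
          by_cases hj : j = v
          · subst hj; simp [delJ]
          · rw [delJ, Function.update_of_ne hj]
        have hIH := ih (B.card + (E2 (delJ v inc) u).card) (by omega) B
          (delJ v inc) u rfl (fun j => (hinc j).trans (hsub j)) hB
          (by rw [delJ, Function.update_of_ne hv'.2.1.symm, hu])
          (fun j hj => (Finset.card_le_card (hinc j)).trans (h2 j hj))
          (hNR.restrict_sub (Finset.Subset.refl _) hinc (fun j => (hinc j).trans (hsub j)))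
        have h5 := dof_le_delJ B inc v
        have h6 := six_le_dof hsub hB
        omega

theorem spherical {B : Finset β} {inc : ι → Finset β} (hsub : ∀ j, inc j ⊆ B)
    (hNR : NRi B inc) (u : ι) {S : Finset β} (hS : S ⊆ inc u) (hS2 : 2 ≤ S.card) :
    2 * (Finset.univ.filter (fun v => v ≠ u ∧ (inc v).card = 2 ∧ inc v ⊆ S)).card + 4
      ≤ 3 * S.card := by
  set inc' : ι → Finset β := fun j =>
    if j = u then S else if (inc j).card = 2 ∧ inc j ⊆ S then inc j else ∅ with hinc'
  have hu : inc' u = S := by rw [hinc']; simp
  have hne : ∀ j, j ≠ u → inc' j = if (inc j).card = 2 ∧ inc j ⊆ S then inc j else ∅ := by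
    intro j hj
    rw [hinc']
    simp only [hj, if_false]
  have hsub' : ∀ j, inc' j ⊆ S := by
    intro j
    by_cases hj : j = u
    · rw [hj, hu]
    · rw [hne j hj]
      split_ifs with h
      · exact h.2
      · exact Finset.empty_subset _
  have hle : ∀ j, inc' j ⊆ inc j := by
    intro j
    by_cases hj : j = u
    · rw [hj, hu]; exact hS
    · rw [hne j hj]
      split_ifs with h
      · exact Finset.Subset.refl _
      · exact Finset.empty_subset _
  have h2 : ∀ j, j ≠ u → (inc' j).card ≤ 2 := by
    intro j hj
    rw [hne j hj]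
    split_ifs with h
    · exact h.1.le
    · simp
  have hNR' : NRi S inc' := hNR.restrict_sub (hS.trans (hsub u)) hle hsub'
  have hE : E2 inc' u = Finset.univ.filter (fun v => v ≠ u ∧ (inc v).card = 2 ∧ inc v ⊆ S) := by
    ext v
    simp only [E2, Finset.mem_filter, Finset.mem_univ, true_and]
    by_cases hv : v = u
    · simp [hv]
    · rw [hne v hv]
      split_ifs with h
      · simp [hv, h]
      · simp only [Finset.card_empty, OfNat.zero_ne_ofNat, and_false, false_iff]
        exact fun h' => h h'.2
  have h1 := spher_aux _ S inc' u rfl hsub' (Finset.card_pos.1 (by omega)) hu h2 hNR'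
  have h7 := seven_le_dof hsub' hNR' hS2
  rw [hE] at h1
  omega

end spher

end Pool.Agent.H49BK
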