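import Pool.Agent.H49BK.Ext
import Pool.Agent.H49BK.Spher
import Pool.Agent.H49BK.Disch

/-!
# Package R6: the main bound

`2 dim D(K) + ∑ W(j) ≤ 12 |B|` for every good structure, by induction on `|B| + ∑ |inc j|`.
-/

open Matrix Module

namespace Pool.Agent.H49BK

open Pool.Agent.H49BJ

namespace R6

/-! ### weights -/

section weights

variable {β ι : Type*} [DecidableEq β] [DecidableEq ι]

omit [DecidableEq β] [DecidableEq ι] in
theorem wt_one {inc : ι → Finset β} {j : ι} (h : (inc j).card ≤ 1) : wt inc j = 0 := by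
  unfold wt
  rw [if_pos h]

omit [DecidableEq β] [DecidableEq ι] in
theorem wt_two {inc : ι → Finset β} {j : ι} (h : (inc j).card = 2) :
    (wt inc j = 5 ∧ ∃ i, i ≠ j ∧ inc j ⊆ inc i) ∨
      (wt inc j = 6 ∧ ¬ ∃ i, i ≠ j ∧ inc j ⊆ inc i) := by
  unfold wt
  rw [if_neg (by omega), if_pos h]
  by_cases h1 : ∃ i, i ≠ j ∧ inc j ⊆ inc i
  · left
    rw [if_pos h1]
    exact ⟨rfl, h1⟩
  · right
    rw [if_neg h1]
    exact ⟨rfl, h1⟩

omit [DecidableEq β] [DecidableEq ι] in
theorem wt_three {inc : ι → Finset β} {j : ι} (h : 3 ≤ (inc j).card) :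
    wt inc j = 3 * (inc j).card + ((inc j).card - 3) / 2 := by
  unfold wt
  rw [if_neg (by omega), if_neg (by omega)]

omit [DecidableEq ι] in
theorem wt_delB_not [Fintype ι] {inc : ι → Finset β} {x : β} {j : ι} (h : j ∉ Jx inc x) :
    wt (delB x inc) j = wt inc j := by
  by_cases hx : x ∈ inc j
  · have hc : (inc j).card ≤ 1 := by
      by_contra h1
      exact h (by simp only [Jx, Finset.mem_filter, Finset.mem_univ, true_and]; exact ⟨hx, by omega⟩)
    rw [wt_one hc, wt_one (show (delB x inc j).card ≤ 1 from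
      le_trans Finset.card_erase_le hc)]
  · have he : delB x inc j = inc j := Finset.erase_eq_of_notMem hx
    have hiff : (∃ i, i ≠ j ∧ delB x inc j ⊆ delB x inc i) ↔ ∃ i, i ≠ j ∧ inc j ⊆ inc i := by
      rw [he]
      constructor
      · rintro ⟨i, h1, h2⟩
        exact ⟨i, h1, h2.trans (Finset.erase_subset _ _)⟩
      · rintro ⟨i, h1, h2⟩
        exact ⟨i, h1, Finset.subset_erase.2 ⟨h2, hx⟩⟩
    rcases (by omega : (inc j).card ≤ 1 ∨ (inc j).card = 2 ∨ 3 ≤ (inc j).card) with h1 | h1 | h1
    · rw [wt_one h1, wt_one (by rw [he]; exact h1)]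
    · rcases wt_two h1 with h2 | h2 <;>
        rcases wt_two (by rw [he]; exact h1 : (delB x inc j).card = 2) with h3 | h3
      · rw [h2.1, h3.1]
      · exact absurd (hiff.2 h2.2) h3.2
      · exact absurd (hiff.1 h3.2) h2.2
      · rw [h2.1, h3.1]
    · rw [wt_three h1, wt_three (by rw [he]; exact h1), he]

omit [DecidableEq ι] in
theorem card_delB {inc : ι → Finset β} {x : β} {j : ι} (hx : x ∈ inc j) :
    (delB x inc j).card = (inc j).card - 1 := Finset.card_erase_of_mem hx

omit [DecidableEq ι] in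
theorem wt_delB_three {inc : ι → Finset β} {x : β} {j : ι} (hx : x ∈ inc j)
    (h : 3 ≤ (inc j).card) : wt inc j ≤ wt (delB x inc) j + 4 := by
  have h1 := card_delB hx
  rw [wt_three h]
  rcases (by omega : (inc j).card = 3 ∨ 4 ≤ (inc j).card) with h2 | h2
  · rcases wt_two (inc := delB x inc) (j := j) (by omega) with h3 | h3 <;> omega
  · rw [wt_three (inc := delB x inc) (j := j) (by omega)]
    omega

omit [DecidableEq ι] in
theorem wt_delB_two {inc : ι → Finset β} {x : β} {j : ι} (hx : x ∈ inc j)
    (h : (inc j).card = 2) : wt inc j ≤ 6 ∧ wt (delB x inc) j = 0 := by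
  have h1 := card_delB hx
  refine ⟨?_, wt_one (by omega)⟩
  rcases wt_two h with h3 | h3 <;> omega

omit [DecidableEq ι] in
theorem wt_delB_le {inc : ι → Finset β} {x : β} {j : ι} (hx : x ∈ inc j)
    (h : 2 ≤ (inc j).card) : wt inc j ≤ wt (delB x inc) j + 6 := by
  rcases (by omega : (inc j).card = 2 ∨ 3 ≤ (inc j).card) with h2 | h2
  · have := wt_delB_two hx h2
    omega
  · have := wt_delB_three hx h2
    omega

omit [DecidableEq ι] in
theorem wt_delB_delB {inc : ι → Finset β} {x y : β} {j : ι} (hxy : x ≠ y) (hx : x ∈ inc j)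
    (hy : y ∈ inc j) (h : 4 ≤ (inc j).card) :
    wt inc j ≤ wt (delB y (delB x inc)) j + 7 := by
  have h1 := card_delB hx
  have h2 := card_delB (inc := delB x inc) (x := y) (j := j)
    (Finset.mem_erase.2 ⟨hxy.symm, hy⟩)
  rw [wt_three (by omega : 3 ≤ (inc j).card)]
  rcases (by omega : (inc j).card = 4 ∨ 5 ≤ (inc j).card) with h3 | h3
  · rcases wt_two (inc := delB y (delB x inc)) (j := j) (by omega) with h4 | h4 <;> omega
  · rw [wt_three (inc := delB y (delB x inc)) (j := j) (by omega)]
    omega

omit [DecidableEq β] in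
theorem delJ_self (inc : ι → Finset β) (v : ι) : delJ v inc v = ∅ := Function.update_self _ _ _

omit [DecidableEq β] in
theorem delJ_ne (inc : ι → Finset β) {v j : ι} (h : j ≠ v) : delJ v inc j = inc j :=
  Function.update_of_ne h _ _

omit [DecidableEq β] in
theorem wt_delJ_self (inc : ι → Finset β) (v : ι) : wt (delJ v inc) v = 0 :=
  wt_one (by rw [delJ_self]; simp)

omit [DecidableEq β] in
theorem wt_delJ_ne (inc : ι → Finset β) {v j : ι} (h : j ≠ v) :
    wt inc j ≤ wt (delJ v inc) j := by
  have he := delJ_ne inc h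
  rcases (by omega : (inc j).card ≤ 1 ∨ (inc j).card = 2 ∨ 3 ≤ (inc j).card) with h1 | h1 | h1
  · rw [wt_one h1]
    exact Nat.zero_le _
  · rcases wt_two h1 with h2 | h2
    · rcases wt_two (inc := delJ v inc) (j := j) (by rw [he]; exact h1) with h3 | h3 <;> omega
    · rcases wt_two (inc := delJ v inc) (j := j) (by rw [he]; exact h1) with h3 | h3
      · exfalso
        obtain ⟨i, hi1, hi2⟩ := h3.2
        apply h2.2
        refine ⟨i, hi1, ?_⟩
        rw [he] at hi2
        by_cases hiv : i = v
        · rw [hiv, delJ_self] at hi2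
          have h4 := Finset.card_le_card hi2
          rw [h1] at h4
          simp at h4
        · rwa [delJ_ne inc hiv] at hi2
      · omega
  · rw [wt_three h1, wt_three (inc := delJ v inc) (j := j) (by rw [he]; exact h1), he]

theorem sum_split [Fintype ι] (f g : ι → ℕ) (S : Finset ι) (h : ∀ k, k ∉ S → f k ≤ g k) :
    ∑ k, f k + ∑ k ∈ S, g k ≤ ∑ k, g k + ∑ k ∈ S, f k := by
  rw [← Finset.sum_add_sum_compl S f, ← Finset.sum_add_sum_compl S g]
  have h1 : ∑ k ∈ Sᶜ, f k ≤ ∑ k ∈ Sᶜ, g k :=
    Finset.sum_le_sum fun k hk => h k (Finset.mem_compl.1 hk)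
  omega

omit [DecidableEq ι] in
/-- a joint with two bodies, seen from one of them -/
theorem other_end {S : Finset β} {x : β} (hx : x ∈ S) (h : S.card = 2) :
    ∃ a, x ≠ a ∧ S = {x, a} := by
  obtain ⟨p, q, hpq, rfl⟩ := Finset.card_eq_two.1 h
  rw [Finset.mem_insert, Finset.mem_singleton] at hx
  rcases hx with rfl | rfl
  · exact ⟨q, hpq, rfl⟩
  · exact ⟨p, hpq.symm, Finset.pair_comm _ _⟩

omit [DecidableEq β] in
theorem three_of {S : Finset ι} (hS : S.card = 3) {u : ι} (hu : u ∈ S) :
    ∃ p r, u ≠ p ∧ u ≠ r ∧ p ≠ r ∧ S = {u, p, r} := by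
  have h1 : (S.erase u).card = 2 := by rw [Finset.card_erase_of_mem hu, hS]
  obtain ⟨p, r, hpr, h2⟩ := Finset.card_eq_two.1 h1
  refine ⟨p, r, ?_, ?_, hpr, ?_⟩
  · rintro rfl
    exact Finset.notMem_erase u S (by rw [h2]; simp)
  · rintro rfl
    exact Finset.notMem_erase u S (by rw [h2]; simp)
  · rw [← h2, Finset.insert_erase hu]

end weights

section main

variable {β ι : Type*} [Fintype β] [DecidableEq β] [Fintype ι] [DecidableEq ι]

omit [Fintype β] [DecidableEq ι] in
theorem mem_Jx {inc : ι → Finset β} {x : β} {j : ι} :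
    j ∈ Jx inc x ↔ x ∈ inc j ∧ 2 ≤ (inc j).card := by
  simp [Jx]

/-- the measure of the induction -/
def meas (B : Finset β) (inc : ι → Finset β) : ℕ := B.card + ∑ j, (inc j).card

omit [Fintype β] [DecidableEq ι] in
theorem meas_delB {B : Finset β} {inc : ι → Finset β} {x : β} (hx : x ∈ B) :
    meas (B.erase x) (delB x inc) < meas B inc := by
  unfold meas
  have h1 : ∑ j, (delB x inc j).card ≤ ∑ j, (inc j).card :=
    Finset.sum_le_sum fun j _ => Finset.card_erase_le
  have h2 := Finset.card_erase_lt_of_mem hx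
  omega

omit [Fintype β] [DecidableEq β] in
theorem meas_delJ {B : Finset β} {inc : ι → Finset β} {v : ι} (hv : 1 ≤ (inc v).card) :
    meas B (delJ v inc) < meas B inc := by
  unfold meas
  have h1 : ∑ j, (delJ v inc j).card < ∑ j, (inc j).card := by
    apply Finset.sum_lt_sum
    · intro j _
      by_cases h : j = v
      · rw [h, delJ_self]
        simp
      · rw [delJ_ne inc h]
    · exact ⟨v, Finset.mem_univ _, by rw [delJ_self]; simpa using hv⟩
  omega

/-- case (i): a body with at most three joints -/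
theorem step_small {B : Finset β} {inc : ι → Finset β} (h : Good B inc)
    (hnp : ∀ i j, i ≠ j → inc i = inc j → (inc i).card ≠ 2) {x : β} 
    (hd : (Jx inc x).card ≤ 3) :
    2 * dof B inc + ∑ j, wt inc j ≤
      2 * dof (B.erase x) (delB x inc) + ∑ j, wt (delB x inc) j + 12 := by
  have hs := sum_split (wt inc) (wt (delB x inc)) (Jx inc x)
    (fun k hk => (wt_delB_not hk).ge)
  have hJ : ∀ j ∈ Jx inc x, x ∈ inc j ∧ 2 ≤ (inc j).card := fun j hj => mem_Jx.1 hj
  rcases (by omega : (Jx inc x).card = 0 ∨ (Jx inc x).card = 1 ∨ (Jx inc x).card = 2 ∨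
    (Jx inc x).card = 3) with h0 | h0 | h0 | h0
  · have h1 := ext0 h.sub x
    rw [Finset.card_eq_zero] at h0
    rw [h0] at hs
    simp only [Finset.sum_empty] at hs
    omega
  · have h1 := ext1 h.sub x (by omega)
    obtain ⟨p, hp⟩ := Finset.card_eq_one.1 h0
    obtain ⟨h2, h3⟩ := hJ p (by rw [hp]; simp)
    rw [hp, Finset.sum_singleton, Finset.sum_singleton] at hs
    have h4 := wt_delB_le h2 h3
    omega
  · obtain ⟨p, r, hpr, hp⟩ := Finset.card_eq_two.1 h0
    obtain ⟨p1, p2⟩ := hJ p (by rw [hp]; simp)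
    obtain ⟨r1, r2⟩ := hJ r (by rw [hp]; simp)
    rw [hp, Finset.sum_pair hpr, Finset.sum_pair hpr] at hs
    have h2 := ext2 h.sub x (by omega)
    rcases (by omega : (inc p).card = 2 ∨ 3 ≤ (inc p).card) with p3 | p3
    · rcases (by omega : (inc r).card = 2 ∨ 3 ≤ (inc r).card) with r3 | r3
      · obtain ⟨a, hxa, ha⟩ := other_end p1 p3
        obtain ⟨b, hxb, hb⟩ := other_end r1 r3
        have hab : a ≠ b := by
          rintro rfl
          exact hnp p r hpr (ha.trans hb.symm) p3
        have h3 := ext22 h.sub h.nr hxa hxb hab hpr ha hb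
        have h4 := wt_delB_two p1 p3
        have h5 := wt_delB_two r1 r3
        omega
      · have h4 := wt_delB_le p1 p2
        have h5 := wt_delB_three r1 r3
        omega
    · have h4 := wt_delB_three p1 p3
      have h5 := wt_delB_le r1 r2
      omega
  · by_cases hu : ∃ u ∈ Jx inc x, 3 ≤ (inc u).card
    · obtain ⟨u, hu1, hu2⟩ := hu
      obtain ⟨p, r, hup, hur, hpr, hS⟩ := three_of h0 hu1
      have h1 := extU h hup hur hpr hS hu2
      have h2 := wt_delB_three (hJ u hu1).1 hu2
      have e1 : ∀ f : ι → ℕ, ∑ k ∈ Jx inc x, f k = f u + (f p + f r) := by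
        intro f
        rw [hS, Finset.sum_insert (by simp [hup, hur]), Finset.sum_pair hpr]
      rw [e1, e1] at hs
      omega
    · have hc : ∀ j ∈ Jx inc x, (inc j).card = 2 := by
        intro j hj
        by_contra h1
        exact hu ⟨j, hj, by have := (hJ j hj).2; omega⟩
      obtain ⟨e, f, g, hef, heg, hfg, hS⟩ := Finset.card_eq_three.1 h0
      have he : e ∈ Jx inc x := by rw [hS]; simp
      have hf : f ∈ Jx inc x := by rw [hS]; simp
      have hg : g ∈ Jx inc x := by rw [hS]; simp
      obtain ⟨a, hxa, ha⟩ := other_end (hJ e he).1 (hc e he)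
      obtain ⟨b, hxb, hb⟩ := other_end (hJ f hf).1 (hc f hf)
      obtain ⟨c, hxc, hc'⟩ := other_end (hJ g hg).1 (hc g hg)
      have hab : a ≠ b := by
        rintro rfl
        exact hnp e f hef (ha.trans hb.symm) (hc e he)
      have hac : a ≠ c := by
        rintro rfl
        exact hnp e g heg (ha.trans hc'.symm) (hc e he)
      have hbc : b ≠ c := by
        rintro rfl
        exact hnp f g hfg (hb.trans hc'.symm) (hc f hf)
      have h1 := ext33 h hxa hxb hxc hab hac hbc hef heg hfg hS ha hb hc'
      have h2 := wt_delB_two (hJ e he).1 (hc e he)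
      have h3 := wt_delB_two (hJ f hf).1 (hc f hf)
      have h4 := wt_delB_two (hJ g hg).1 (hc g hg)
      have e1 : ∀ F : ι → ℕ, ∑ k ∈ Jx inc x, F k = F e + (F f + F g) := by
        intro F
        rw [hS, Finset.sum_insert (by simp [hef, heg]), Finset.sum_pair hfg]
      rw [e1, e1] at hs
      omega

/-- a body with three joints, one of which has at least three bodies -/
theorem step_U {B : Finset β} {inc : ι → Finset β} (h : Good B inc) {x : β} {u : ι}
    (hd : (Jx inc x).card = 3) (hu : u ∈ Jx inc x) (hc : 3 ≤ (inc u).card) :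
    2 * dof B inc + ∑ j, wt inc j + wt (delB x inc) u ≤
      2 * dof (B.erase x) (delB x inc) + ∑ j, wt (delB x inc) j + 8 + wt inc u := by
  have hs := sum_split (wt inc) (wt (delB x inc)) (Jx inc x)
    (fun k hk => (wt_delB_not hk).ge)
  obtain ⟨p, r, hup, hur, hpr, hS⟩ := three_of hd hu
  have h1 := extU h hup hur hpr hS hc
  have e1 : ∀ f : ι → ℕ, ∑ k ∈ Jx inc x, f k = f u + (f p + f r) := by
    intro f
    rw [hS, Finset.sum_insert (by simp [hup, hur]), Finset.sum_pair hpr]
  rw [e1, e1] at hs
  omega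

omit [Fintype β] in
theorem Jx_delJ {inc : ι → Finset β} {x : β} {v : ι} :
    Jx (delJ v inc) x = (Jx inc x).erase v := by
  ext j
  rw [Finset.mem_erase, mem_Jx, mem_Jx]
  by_cases h : j = v
  · subst h
    rw [delJ_self]
    simp
  · rw [delJ_ne inc h]
    simp [h]

omit [Fintype β] in
/-- three common joints of two bodies are impossible -/
theorem no_three {B : Finset β} {inc : ι → Finset β} (h : Good B inc) {a b : β} (hab : a ≠ b)
    {i j k : ι} (hij : i ≠ j) (hik : i ≠ k) (hjk : j ≠ k) (hi : a ∈ inc i ∧ b ∈ inc i)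
    (hj : a ∈ inc j ∧ b ∈ inc j) (hk : a ∈ inc k ∧ b ∈ inc k) : False := by
  have h1 := common_le h.sub h.nr hab
  have h2 : ({i, j, k} : Finset ι) ⊆ Finset.univ.filter (fun j => a ∈ inc j ∧ b ∈ inc j) := by
    intro l hl
    simp only [Finset.mem_insert, Finset.mem_singleton] at hl
    simp only [Finset.mem_filter, Finset.mem_univ, true_and]
    rcases hl with rfl | rfl | rfl
    · exact hi
    · exact hj
    · exact hk
  have h3 := Finset.card_le_card h2
  rw [Finset.card_eq_three.2 ⟨i, j, k, hij, hik, hjk, rfl⟩] at h3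
  omega

/-- the induction hypothesis -/
def IH (B : Finset β) (inc : ι → Finset β) : Prop :=
  ∀ (B' : Finset β) (inc' : ι → Finset β), meas B' inc' < meas B inc → Good B' inc' →
    2 * dof B' inc' + ∑ j, wt inc' j ≤ 12 * B'.card

/-- case (1a): two joints between the same two bodies -/
theorem case_pair {B : Finset β} {inc : ι → Finset β} (h : Good B inc) (ih : IH B inc)
    {i j : ι} (hij : i ≠ j) (hinc : inc i = inc j) (hc : (inc i).card = 2) :
    2 * dof B inc + ∑ j, wt inc j ≤ 12 * B.card := by
  obtain ⟨x, y, hxy, hi⟩ := Finset.card_eq_two.1 hc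
  have hj : inc j = {x, y} := hinc.symm.trans hi
  have hxi : x ∈ inc i ∧ y ∈ inc i := by rw [hi]; simp
  have hxj : x ∈ inc j ∧ y ∈ inc j := by rw [hj]; simp
  have h1 := twin h.sub h.nr hxy hij hj hxi.1 hxi.2
  have h2 := ih B (delJ j inc) (meas_delJ (by rw [← hinc]; omega)) (h.delJ j)
  have hs := sum_split (wt inc) (wt (delJ j inc)) {i, j} (fun k hk => by
    apply wt_delJ_ne
    rintro rfl
    exact hk (by simp))
  rw [Finset.sum_pair hij, Finset.sum_pair hij, wt_delJ_self] at hs
  have h3 : wt inc i = 5 := by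
    rcases wt_two hc with h4 | h4
    · exact h4.1
    · exact absurd ⟨j, hij.symm, hinc.subset⟩ h4.2
  have h3' : wt inc j = 5 := by
    rcases wt_two (by rw [← hinc]; exact hc : (inc j).card = 2) with h4 | h4
    · exact h4.1
    · exact absurd ⟨i, hij, hinc.symm.subset⟩ h4.2
  have h5 : wt (delJ j inc) i = 6 := by
    have he := delJ_ne inc hij
    rcases wt_two (by rw [he]; exact hc : (delJ j inc i).card = 2) with h4 | h4
    · exfalso
      obtain ⟨k, hk1, hk2⟩ := h4.2
      rw [he] at hk2
      have hkj : k ≠ j := by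
        rintro rfl
        rw [delJ_self] at hk2
        have h5 := Finset.card_le_card hk2
        rw [hc] at h5
        simp at h5
      rw [delJ_ne inc hkj] at hk2
      exact no_three h hxy hij hk1.symm hkj.symm hxi hxj ⟨hk2 hxi.1, hk2 hxi.2⟩
    · exact h4.1
  omega

/-- case (ii), first part: the gain from a second joint -/
theorem hinge_gain {B : Finset β} {inc : ι → Finset β} (h : Good B inc) 
    {x y : β} (hxy : x ≠ y) {u v : ι} (huv : u ≠ v) (hv : inc v = {x, y}) (hxu : x ∈ inc u)
    (hyu : y ∈ inc u) :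
    2 * dof B inc + ∑ j, wt inc j + 4 ≤ 2 * dof B (delJ v inc) + ∑ j, wt (delJ v inc) j + 5 := by
  have h1 := twin h.sub h.nr hxy huv hv hxu hyu
  have hs := sum_split (wt inc) (wt (delJ v inc)) {v} (fun k hk => by
    apply wt_delJ_ne
    rintro rfl
    exact hk (by simp))
  rw [Finset.sum_singleton, Finset.sum_singleton, wt_delJ_self] at hs
  have hc : (inc v).card = 2 := by rw [hv]; exact Finset.card_pair hxy
  have h3 : wt inc v = 5 := by
    rcases wt_two hc with h4 | h4
    · exact h4.1
    · refine absurd ⟨u, huv, ?_⟩ h4.2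
      rw [hv]
      intro b hb
      simp only [Finset.mem_insert, Finset.mem_singleton] at hb
      rcases hb with rfl | rfl
      · exact hxu
      · exact hyu
  omega

/-- case (ii), removal of `x` after the removal of `v` -/
theorem hinge_x {B : Finset β} {inc : ι → Finset β} (h : Good B inc) (ih : IH B inc)
    {x y : β} (hxy : x ≠ y) {u v : ι} (huv : u ≠ v) (hv : inc v = {x, y}) (hxu : x ∈ inc u)
    (hyu : y ∈ inc u) (hcu : 3 ≤ (inc u).card) (hdx : (Jx inc x).card = 4) :
    2 * dof B inc + ∑ j, wt inc j + wt (delB x (delJ v inc)) u ≤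
      2 * dof (B.erase x) (delB x (delJ v inc)) + ∑ j, wt (delB x (delJ v inc)) j + 9 +
        wt (delJ v inc) u ∧
    2 * dof (B.erase x) (delB x (delJ v inc)) + ∑ j, wt (delB x (delJ v inc)) j + 12 ≤
      12 * B.card := by
  have h1 := hinge_gain h hxy huv hv hxu hyu
  have h' : Good B (delJ v inc) := h.delJ v
  have hc : (inc v).card = 2 := by rw [hv]; exact Finset.card_pair hxy
  have hxB : x ∈ B := h.sub u hxu
  have hvx : v ∈ Jx inc x := by
    rw [mem_Jx, hv]
    exact ⟨by simp, by rw [Finset.card_pair hxy]⟩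
  have hd : (Jx (delJ v inc) x).card = 3 := by
    rw [Jx_delJ, Finset.card_erase_of_mem hvx, hdx]
  have hu : u ∈ Jx (delJ v inc) x := by
    rw [mem_Jx, delJ_ne inc huv]
    exact ⟨hxu, by omega⟩
  have h2 := step_U h' hd hu (by rw [delJ_ne inc huv]; exact hcu)
  have h3 := ih (B.erase x) (delB x (delJ v inc))
    (lt_trans (meas_delB hxB) (meas_delJ (by omega))) (h'.delB x)
  rw [Finset.card_erase_of_mem hxB] at h3
  have h4 : 0 < B.card := Finset.card_pos.2 ⟨x, hxB⟩
  constructor <;> omega

/-- case (ii) with `c_u = 3`, seen from `x` -/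
theorem hinge_three {B : Finset β} {inc : ι → Finset β} (h : Good B inc) (ih : IH B inc)
    {x y : β} (hxy : x ≠ y) {u v : ι} (huv : u ≠ v) (hv : inc v = {x, y}) (hxu : x ∈ inc u)
    (hyu : y ∈ inc u) (hcu : (inc u).card = 3) (hdx : (Jx inc x).card = 4) :
    2 * dof B inc + ∑ j, wt inc j ≤ 12 * B.card ∨
      ∃ i, i ≠ u ∧ i ≠ v ∧ ∀ b ∈ inc u, b ≠ x → b ∈ inc i := by
  obtain ⟨h1, h2⟩ := hinge_x h ih hxy huv hv hxu hyu (by omega) hdx
  have he := delJ_ne inc huv
  have h3 : wt (delJ v inc) u = 9 := by
    rw [wt_three (by rw [he]; omega), he, hcu]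
  have h4 : (delB x (delJ v inc) u).card = 2 := by
    rw [card_delB (by rw [he]; exact hxu), he, hcu]
  rcases wt_two h4 with h5 | h5
  · right
    obtain ⟨i, hi1, hi2⟩ := h5.2
    have hiv : i ≠ v := by
      rintro rfl
      have h6 := Finset.card_le_card hi2
      rw [h4] at h6
      simp [delB, delJ_self] at h6
    refine ⟨i, hi1, hiv, fun b hb hbx => ?_⟩
    have h6 : b ∈ delB x (delJ v inc) u := by
      unfold delB
      rw [he]
      exact Finset.mem_erase.2 ⟨hbx, hb⟩
    have h7 := hi2 h6
    unfold delB at h7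
    rw [delJ_ne inc hiv] at h7
    exact (Finset.mem_erase.1 h7).2
  · left
    omega

/-- case (ii): a hinged joint between two bodies with four joints -/
theorem case_hinge {B : Finset β} {inc : ι → Finset β} (h : Good B inc) (ih : IH B inc)
    (hnp : ∀ i j, i ≠ j → inc i = inc j → (inc i).card ≠ 2)
    {x y : β} (hxy : x ≠ y) {u v : ι} (huv : u ≠ v) (hv : inc v = {x, y}) (hxu : x ∈ inc u)
    (hyu : y ∈ inc u) (hdx : (Jx inc x).card = 4) (hdy : (Jx inc y).card = 4) :
    2 * dof B inc + ∑ j, wt inc j ≤ 12 * B.card := by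
  have hsub : ({x, y} : Finset β) ⊆ inc u := by
    intro b hb
    simp only [Finset.mem_insert, Finset.mem_singleton] at hb
    rcases hb with rfl | rfl
    · exact hxu
    · exact hyu
  have hcv : (inc v).card = 2 := by rw [hv]; exact Finset.card_pair hxy
  have hcu : 3 ≤ (inc u).card := by
    have h1 := Finset.card_le_card hsub
    rw [Finset.card_pair hxy] at h1
    by_contra h2
    have h3 : (inc u).card = 2 := by omega
    have h4 : inc v = inc u := by
      rw [hv]
      exact Finset.eq_of_subset_of_card_le hsub (by rw [h3, Finset.card_pair hxy])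
    exact hnp v u huv.symm h4 hcv
  rcases (by omega : (inc u).card = 3 ∨ 4 ≤ (inc u).card) with h3 | h4
  · rcases hinge_three h ih hxy huv hv hxu hyu h3 hdx with h1 | ⟨i, hi1, hi2, hi3⟩
    · exact h1
    · rcases hinge_three h ih hxy.symm huv (hv.trans (Finset.pair_comm _ _)) hyu hxu h3 hdy with
        h1 | ⟨k, hk1, hk2, hk3⟩
      · exact h1
      · exfalso
        obtain ⟨z, hz, hzn⟩ : ∃ z ∈ inc u, z ∉ ({x, y} : Finset β) := by
          by_contra hcon
          push Not at hcon
          have h5 : inc u ⊆ {x, y} := hcon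
          have h6 := Finset.card_le_card h5
          rw [Finset.card_pair hxy] at h6
          omega
        simp only [Finset.mem_insert, Finset.mem_singleton, not_or] at hzn
        have hik : i ≠ k := by
          rintro rfl
          exact no_three h hxy huv hi1.symm hi2.symm ⟨hxu, hyu⟩ (by rw [hv]; simp)
            ⟨hk3 x hxu hxy, hi3 y hyu hxy.symm⟩
        exact tri h.sub h.nr hxy (u := u) (p := v) (q := i) (r := k) huv hi1.symm hk1.symm
          hi2.symm hk2.symm hik hxu hyu hz (by rw [hv]; simp)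
          ⟨hi3 y hyu hxy.symm, hi3 z hz hzn.1⟩ ⟨hk3 x hxu hxy, hk3 z hz hzn.2⟩
  · obtain ⟨h1, -⟩ := hinge_x h ih hxy huv hv hxu hyu hcu hdx
    have he := delJ_ne inc huv
    have hL : Good (B.erase x) (delB x (delJ v inc)) := (h.delJ v).delB x
    have hxB : x ∈ B := h.sub u hxu
    have hyB : y ∈ B.erase x := Finset.mem_erase.2 ⟨hxy.symm, h.sub u hyu⟩
    have hyL : y ∈ delB x (delJ v inc) u := by
      unfold delB
      rw [he]
      exact Finset.mem_erase.2 ⟨hxy.symm, hyu⟩
    have hcL : (delB x (delJ v inc) u).card = (inc u).card - 1 := by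
      rw [card_delB (by rw [he]; exact hxu), he]
    have hJ : Jx (delB x (delJ v inc)) y = (Jx inc y).erase v := by
      ext j
      rw [Finset.mem_erase, mem_Jx, mem_Jx]
      by_cases hjv : j = v
      · subst hjv
        simp [delB, delJ_self]
      · by_cases hju : j = u
        · subst hju
          constructor
          · intro _
            exact ⟨hjv, hyu, by omega⟩
          · intro _
            exact ⟨hyL, by omega⟩
        · by_cases hyj : y ∈ inc j
          · have hxj : x ∉ inc j := by
              intro hxj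
              exact no_three h hxy huv (Ne.symm hju) (Ne.symm hjv) ⟨hxu, hyu⟩
                (by rw [hv]; simp) ⟨hxj, hyj⟩
            have e1 : delB x (delJ v inc) j = inc j := by
              unfold delB
              rw [delJ_ne inc hjv, Finset.erase_eq_of_notMem hxj]
            rw [e1]
            simp [hjv]
          · have e1 : y ∉ delB x (delJ v inc) j := by
              unfold delB
              rw [delJ_ne inc hjv]
              intro h5
              exact hyj (Finset.mem_erase.1 h5).2
            simp [e1, hyj]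
    have hvy : v ∈ Jx inc y := by
      rw [mem_Jx]
      exact ⟨by rw [hv]; simp, by omega⟩
    have hdL : (Jx (delB x (delJ v inc)) y).card = 3 := by
      rw [hJ, Finset.card_erase_of_mem hvy, hdy]
    have huL : u ∈ Jx (delB x (delJ v inc)) y := by
      rw [mem_Jx]
      exact ⟨hyL, by omega⟩
    have h5 := step_U hL hdL huL (by omega)
    have h6 := ih ((B.erase x).erase y) (delB y (delB x (delJ v inc)))
      (lt_trans (meas_delB hyB) (lt_trans (meas_delB hxB) (meas_delJ (by omega)))) (hL.delB y)
    rw [Finset.card_erase_of_mem hyB, Finset.card_erase_of_mem hxB] at h6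
    have h7 : 2 ≤ B.card := by
      have h8 := Finset.card_pos.2 ⟨y, hyB⟩
      rw [Finset.card_erase_of_mem hxB] at h8
      omega
    have h8 := wt_delB_delB (inc := delJ v inc) (j := u) hxy (by rw [he]; exact hxu)
      (by rw [he]; exact hyu) (by rw [he]; exact h4)
    omega

omit [Fintype β] [DecidableEq ι] in
theorem double_count {B : Finset β} {inc : ι → Finset β} (hsub : ∀ j, inc j ⊆ B) :
    ∑ b ∈ B, (Jx inc b).card = ∑ j, if 2 ≤ (inc j).card then (inc j).card else 0 := by
  have h1 : ∀ b, (Jx inc b).card = ∑ j, if b ∈ inc j ∧ 2 ≤ (inc j).card then 1 else 0 := by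
    intro b
    unfold Jx
    rw [Finset.card_filter]
  simp only [h1]
  rw [Finset.sum_comm]
  apply Finset.sum_congr rfl
  intro j _
  by_cases hc : 2 ≤ (inc j).card
  · simp only [hc, and_true, if_true]
    rw [← Finset.card_filter]
    congr 1
    ext b
    rw [Finset.mem_filter]
    exact ⟨fun h => h.2, fun h => ⟨hsub j h, h⟩⟩
  · simp [hc]

/-- case (iii) -/
theorem case_last {B : Finset β} {inc : ι → Finset β} (h : Good B inc) (ih : IH B inc)
    (hne : B.Nonempty) (hnp : ∀ i j, i ≠ j → inc i = inc j → (inc i).card ≠ 2)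
    (h4 : ∀ b ∈ B, 4 ≤ (Jx inc b).card)
    (hP : ∀ v u, v ≠ u → ∀ x y, x ≠ y → inc v = {x, y} → 3 ≤ (inc u).card → x ∈ inc u →
      y ∈ inc u → ¬ ((Jx inc x).card = 4 ∧ (Jx inc y).card = 4)) :
    2 * dof B inc + ∑ j, wt inc j ≤ 12 * B.card := by
  exfalso
  have hW : 12 * B.card ≤ ∑ j, wt inc j := by
    apply discharge B inc h.sub h4
    · intro a b hab
      exact common_le h.sub h.nr hab
    · intro i j hij hinc x y hxy hi
      exact absurd (by rw [hi]; exact Finset.card_pair hxy) (hnp i j hij hinc)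
    · exact hP
    · intro u _ S hS hS2
      exact spherical h.sub h.nr u hS hS2
  have h2B : 2 ≤ B.card := by
    obtain ⟨b, hb⟩ := hne
    obtain ⟨j, hj⟩ := Finset.card_pos.1 (by have := h4 b hb; omega : 0 < (Jx inc b).card)
    have h1 := (mem_Jx.1 hj).2
    have h3 := Finset.card_le_card (h.sub j)
    omega
  have h7 := seven_le_dof h.sub h.nr h2B
  by_cases hv : ∃ v, (inc v).card = 2
  · obtain ⟨v, hv⟩ := hv
    have h1 := ih B (delJ v inc) (meas_delJ (by omega)) (h.delJ v)
    have h3 := dof_le_delJ B inc v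
    have hs := sum_split (wt inc) (wt (delJ v inc)) {v} (fun k hk => by
      apply wt_delJ_ne
      rintro rfl
      exact hk (by simp))
    rw [Finset.sum_singleton, Finset.sum_singleton, wt_delJ_self] at hs
    have h5 : wt inc v ≤ 6 := by
      rcases wt_two hv with h6 | h6 <;> omega
    omega
  · push Not at hv
    obtain ⟨x, hx, hmin⟩ := Finset.exists_min_image B (fun b => (Jx inc b).card) hne
    obtain ⟨d, hd⟩ : ∃ d, (Jx inc x).card = d := ⟨_, rfl⟩
    have hd4 : 4 ≤ d := by rw [← hd]; exact h4 x hx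
    have h3B : 3 ≤ B.card := by
      obtain ⟨j, hj⟩ := Finset.card_pos.1 (by omega : 0 < (Jx inc x).card)
      have h1 := (mem_Jx.1 hj).2
      have h2 := hv j
      have h3 := Finset.card_le_card (h.sub j)
      omega
    have hlow : 3 * (d * B.card) ≤ ∑ j, wt inc j := by
      have h1 : d * B.card ≤ ∑ b ∈ B, (Jx inc b).card := by
        have h2 : ∑ _b ∈ B, d ≤ ∑ b ∈ B, (Jx inc b).card :=
          Finset.sum_le_sum fun b hb => by rw [← hd]; exact hmin b hb
        rw [Finset.sum_const, smul_eq_mul, mul_comm] at h2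
        exact h2
      rw [double_count h.sub] at h1
      refine le_trans (Nat.mul_le_mul_left 3 h1) ?_
      rw [Finset.mul_sum]
      apply Finset.sum_le_sum
      intro j _
      split_ifs with hc
      · have h2 := hv j
        rw [wt_three (by omega)]
        omega
      · omega
    have hext := ext3 h.sub x (by omega)
    have h1 := ih (B.erase x) (delB x inc) (meas_delB hx) (h.delB x)
    rw [Finset.card_erase_of_mem hx] at h1
    have hs := sum_split (wt inc) (wt (delB x inc)) (Jx inc x)
      (fun k hk => (wt_delB_not hk).ge)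
    have h5 : ∑ k ∈ Jx inc x, wt inc k ≤ ∑ k ∈ Jx inc x, wt (delB x inc) k + 4 * d := by
      rw [← hd]
      have h6 : ∑ k ∈ Jx inc x, wt inc k ≤ ∑ k ∈ Jx inc x, (wt (delB x inc) k + 4) := by
        apply Finset.sum_le_sum
        intro k hk
        obtain ⟨h7, h8⟩ := mem_Jx.1 hk
        have h9 := hv k
        exact wt_delB_three h7 (by omega)
      rw [Finset.sum_add_distrib, Finset.sum_const, smul_eq_mul, mul_comm] at h6
      exact h6
    obtain ⟨e, rfl⟩ := Nat.exists_eq_add_of_le hd4
    obtain ⟨n, hn⟩ := Nat.exists_eq_add_of_le h3B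
    rw [hn] at hlow h1
    have h6 : 3 * ((4 + e) * (3 + n)) = 36 + 12 * n + 9 * e + 3 * (e * n) := by ring
    rw [h6] at hlow
    have h8 : 0 ≤ e * n := Nat.zero_le _
    omega

theorem main_aux (N : ℕ) : ∀ (B : Finset β) (inc : ι → Finset β), meas B inc < N →
    Good B inc → 2 * dof B inc + ∑ j, wt inc j ≤ 12 * B.card := by
  induction N with
  | zero => intro B inc hN; omega
  | succ N ihN =>
    intro B inc hN h
    have ih : IH B inc := fun B' inc' hlt hg => ihN B' inc' (by omega) hg
    rcases B.eq_empty_or_nonempty with rfl | hne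
    · rw [dof_empty]
      have h1 : ∀ j, wt inc j = 0 := by
        intro j
        apply wt_one
        have h2 := Finset.card_le_card (h.sub j)
        simp only [Finset.card_empty] at h2
        omega
      simp [h1]
    · by_cases hp : ∃ i j, i ≠ j ∧ inc i = inc j ∧ (inc i).card = 2
      · obtain ⟨i, j, hij, h1, h2⟩ := hp
        exact case_pair h ih hij h1 h2
      · have hnp : ∀ i j, i ≠ j → inc i = inc j → (inc i).card ≠ 2 := by
          intro i j hij h1 h2
          exact hp ⟨i, j, hij, h1, h2⟩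
        by_cases hs : ∃ x ∈ B, (Jx inc x).card ≤ 3
        · obtain ⟨x, hx, hd⟩ := hs
          have h1 := step_small h hnp hd
          have h2 := ih (B.erase x) (delB x inc) (meas_delB hx) (h.delB x)
          rw [Finset.card_erase_of_mem hx] at h2
          have h3 := Finset.card_pos.2 hne
          omega
        · have h4 : ∀ b ∈ B, 4 ≤ (Jx inc b).card := by
            intro b hb
            by_contra h1
            exact hs ⟨b, hb, by omega⟩
          by_cases hh : ∃ v u x y, u ≠ v ∧ x ≠ y ∧ inc v = {x, y} ∧ x ∈ inc u ∧ y ∈ inc u ∧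
              (Jx inc x).card = 4 ∧ (Jx inc y).card = 4
          · obtain ⟨v, u, x, y, huv, hxy, hv, hxu, hyu, hdx, hdy⟩ := hh
            exact case_hinge h ih hnp hxy huv hv hxu hyu hdx hdy
          · apply case_last h ih hne hnp h4
            intro v u hvu x y hxy hv _ hxu hyu hd
            exact hh ⟨v, u, x, y, hvu.symm, hxy, hv, hxu, hyu, hd.1, hd.2⟩

end main

end R6

variable {β ι : Type*} [Fintype β] [DecidableEq β] [Fintype ι] [DecidableEq ι]

theorem main_bound {B : Finset β} {inc : ι → Finset β} (h : Good B inc) :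
    2 * dof B inc + ∑ j, wt inc j ≤ 12 * B.card :=
  R6.main_aux (R6.meas B inc + 1) B inc (Nat.lt_succ_self _) h

end Pool.Agent.H49BK
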