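import Pool.Agent.H49BK.Defs

/-!
# Structures with multi-body joints: elementary operations
-/

open Matrix Module

namespace Pool.Agent.H49BK

open Pool.Agent.H49BJ

set_option linter.unusedSectionVars false

section basic

variable {K : Type*} [Field K] {β ι : Type*}

theorem Mo_congr (B : Finset β) (inc : ι → Finset β) {X X' : ι → Pt K}
    (h : ∀ j, 2 ≤ (inc j).card → X j = X' j) : Mo B inc X = Mo B inc X' := by
  ext M
  rw [mem_Mo, mem_Mo]
  refine and_congr Iff.rfl (forall_congr' fun j => ?_)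
  by_cases hj : 2 ≤ (inc j).card
  · rw [h j hj]
  · have : ∀ a ∈ inc j, ∀ b ∈ inc j, a = b := by
      intro a ha b hb
      exact Finset.card_le_one.1 (by omega) a ha b hb
    constructor
    · intro _ a ha b hb; rw [this a ha b hb]
    · intro _ a ha b hb; rw [this a ha b hb]

theorem Mo_mono {B : Finset β} {inc inc' : ι → Finset β} (X : ι → Pt K)
    (h : ∀ j, inc' j ⊆ inc j) : Mo B inc X ≤ Mo B inc' X := by
  intro M hM
  exact ⟨hM.1, fun j a ha b hb => hM.2 j a (h j ha) b (h j hb)⟩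

variable [DecidableEq β]

theorem delB_subset (x : β) (inc : ι → Finset β) (j : ι) : delB x inc j ⊆ inc j :=
  Finset.erase_subset _ _

theorem mem_delB {x b : β} {inc : ι → Finset β} {j : ι} :
    b ∈ delB x inc j ↔ b ≠ x ∧ b ∈ inc j := Finset.mem_erase

theorem delB_sub {B : Finset β} {inc : ι → Finset β} (hsub : ∀ j, inc j ⊆ B) (x : β) (j : ι) :
    delB x inc j ⊆ B.erase x := by
  intro b hb
  rw [mem_delB] at hb
  exact Finset.mem_erase.2 ⟨hb.1, hsub j hb.2⟩

theorem delJ_subset [DecidableEq ι] (v : ι) (inc : ι → Finset β) (j : ι) : delJ v inc j ⊆ inc j := by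
  unfold delJ
  by_cases h : j = v
  · subst h; simp
  · rw [Function.update_of_ne h]

theorem delJ_self [DecidableEq ι] (v : ι) (inc : ι → Finset β) : delJ v inc v = ∅ := by
  simp [delJ]

theorem delJ_ne [DecidableEq ι] {v j : ι} (h : j ≠ v) (inc : ι → Finset β) :
    delJ v inc j = inc j := by
  simp [delJ, h]

theorem delJ_sub [DecidableEq ι] {B : Finset β} {inc : ι → Finset β} (hsub : ∀ j, inc j ⊆ B)
    (v : ι) (j : ι) : delJ v inc j ⊆ B := (delJ_subset v inc j).trans (hsub j)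

theorem cst_mem' {B : Finset β} {inc : ι → Finset β} (hsub : ∀ j, inc j ⊆ B) (X : ι → Pt K)
    (C : Tw K) : cst B C ∈ Mo B inc X := by
  refine ⟨fun b hb => if_neg hb, fun j a ha b hb => ?_⟩
  simp only [cst, hsub j ha, hsub j hb, if_true]

theorem map_proj_top' {B : Finset β} {inc : ι → Finset β} (hsub : ∀ j, inc j ⊆ B)
    (X : ι → Pt K) {a : β} (ha : a ∈ B) :
    (Mo B inc X).map (LinearMap.proj (R := K) (φ := fun _ : β => Tw K) a) = ⊤ := by
  rw [eq_top_iff]
  intro C _
  exact ⟨cst B C, cst_mem' hsub X C, by simp [cst, ha]⟩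

variable [Fintype β]

theorem rx_mem' {B : Finset β} {inc : ι → Finset β} {X : ι → Pt K} {x : β} {M : β → Tw K}
    (hM : M ∈ Mo B inc X) : rx K x M ∈ Mo (B.erase x) (delB x inc) X := by
  refine ⟨fun b hb => ?_, fun j a ha b hb => ?_⟩
  · by_cases hbx : b = x
    · rw [hbx, rx_self]
    · rw [rx_ne hbx]
      exact hM.1 b (fun h => hb (Finset.mem_erase.2 ⟨hbx, h⟩))
  · rw [mem_delB] at ha hb
    rw [rx_ne ha.1, rx_ne hb.1]
    exact hM.2 j a ha.2 b hb.2

theorem map_rx_le' {B : Finset β} {inc : ι → Finset β} {X : ι → Pt K} (x : β) :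
    (Mo B inc X).map (rx K x) ≤ Mo (B.erase x) (delB x inc) X := by
  rintro _ ⟨M, hM, rfl⟩
  exact rx_mem' hM

end basic

section gen

variable {β ι : Type*} [DecidableEq β]

theorem NRi.mono {B : Finset β} {inc inc' : ι → Finset β} (h : ∀ j, inc' j ⊆ inc j)
    (hN : NRi B inc) : NRi B inc' := by
  intro a ha b hb hab
  obtain ⟨M, hM, hne⟩ := hN a ha b hb hab
  exact ⟨M, Mo_mono _ h hM, hne⟩

variable [Fintype β]

theorem NRi.delB {B : Finset β} {inc : ι → Finset β} (hN : NRi B inc) (x : β) :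
    NRi (B.erase x) (H49BK.delB x inc) := by
  intro a ha b hb hab
  obtain ⟨M, hM, hne⟩ := hN a (Finset.mem_of_mem_erase ha) b (Finset.mem_of_mem_erase hb) hab
  refine ⟨rx _ x M, rx_mem' hM, ?_⟩
  rw [rx_ne (Finset.ne_of_mem_erase ha), rx_ne (Finset.ne_of_mem_erase hb)]
  exact hne

theorem Good.delB {B : Finset β} {inc : ι → Finset β} (h : Good B inc) (x : β) :
    Good (B.erase x) (H49BK.delB x inc) := by
  refine ⟨delB_sub h.sub x, h.nr.delB x, ?_⟩
  intro j hj a ha b hb hbj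
  have hcard : 2 ≤ (inc j).card := hj.trans (Finset.card_le_card (delB_subset x inc j))
  have hb' := Finset.mem_erase.1 hb
  rw [mem_delB] at ha
  obtain ⟨M, hM, hne⟩ := h.clo j hcard a ha.2 b hb'.2 (fun h' => hbj (mem_delB.2 ⟨hb'.1, h'⟩))
  refine ⟨rx _ x M, rx_mem' hM, ?_⟩
  rw [rx_ne ha.1, rx_ne hb'.1]
  exact hne

theorem Good.delJ [DecidableEq ι] {B : Finset β} {inc : ι → Finset β} (h : Good B inc) (v : ι) :
    Good B (H49BK.delJ v inc) := by
  refine ⟨delJ_sub h.sub v, h.nr.mono (delJ_subset v inc), ?_⟩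
  intro j hj a ha b hb hbj
  have hjv : j ≠ v := by
    rintro rfl
    rw [delJ_self] at hj
    simp at hj
  rw [delJ_ne hjv] at hj ha hbj
  obtain ⟨M, hM, hne⟩ := h.clo j hj a ha b hb hbj
  exact ⟨M, Mo_mono _ (delJ_subset v inc) hM, hne⟩

theorem mem_Jx [Fintype ι] {inc : ι → Finset β} {x : β} {j : ι} :
    j ∈ Jx inc x ↔ x ∈ inc j ∧ 2 ≤ (inc j).card := by
  simp [Jx]

end gen

section dim

variable {β ι : Type*} [Fintype β] [DecidableEq β] [Fintype ι] [DecidableEq ι]

omit [Fintype β] [DecidableEq β] [Fintype ι] [DecidableEq ι] in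
theorem dof_empty (inc : ι → Finset β) : dof (∅ : Finset β) inc = 0 := by
  unfold dof
  have : Mo (K := GF ι) (∅ : Finset β) inc (gp ι) = ⊥ := by
    rw [eq_bot_iff]
    intro M hM
    rw [Submodule.mem_bot]
    funext b
    exact hM.1 b (Finset.notMem_empty _)
  rw [this, finrank_bot]

omit [Fintype ι] [DecidableEq ι] in
theorem six_le_dof {B : Finset β} {inc : ι → Finset β} (hsub : ∀ j, inc j ⊆ B)
    (hB : B.Nonempty) : 6 ≤ dof B inc := by
  obtain ⟨a, ha⟩ := hB
  have h := finrank_map_add_ker (LinearMap.proj (R := GF ι) (φ := fun _ : β => Tw (GF ι)) a)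
    (Mo B inc (gp ι))
  rw [map_proj_top' hsub (gp ι) ha, finrank_top] at h
  have : finrank (GF ι) (Tw (GF ι)) = 6 := by simp
  unfold dof
  omega

omit [Fintype ι] [DecidableEq ι] in
theorem seven_le_dof {B : Finset β} {inc : ι → Finset β} (hsub : ∀ j, inc j ⊆ B)
    (hNR : NRi B inc) (hB : 2 ≤ B.card) : 7 ≤ dof B inc := by
  obtain ⟨a, ha, b, hb, hab⟩ := Finset.one_lt_card.1 hB
  have h := finrank_map_add_ker (LinearMap.proj (R := GF ι) (φ := fun _ : β => Tw (GF ι)) a)
    (Mo B inc (gp ι))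
  rw [map_proj_top' hsub (gp ι) ha, finrank_top] at h
  have h6 : finrank (GF ι) (Tw (GF ι)) = 6 := by simp
  obtain ⟨M, hM, hne⟩ := hNR a ha b hb hab
  have h1 : 1 ≤ finrank (GF ι) (Mo B inc (gp ι) ⊓
      LinearMap.ker (LinearMap.proj (R := GF ι) (φ := fun _ : β => Tw (GF ι)) a) :
        Submodule (GF ι) (β → Tw (GF ι))) := by
    rw [Nat.one_le_iff_ne_zero]
    intro h0
    rw [Submodule.finrank_eq_zero] at h0
    have hmem : M - cst B (M a) ∈ (Mo B inc (gp ι) ⊓
      LinearMap.ker (LinearMap.proj (R := GF ι) (φ := fun _ : β => Tw (GF ι)) a) :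
        Submodule (GF ι) (β → Tw (GF ι))) := by
      refine ⟨Submodule.sub_mem _ hM (cst_mem' hsub _ _), ?_⟩
      rw [SetLike.mem_coe, LinearMap.mem_ker]
      simp [cst, ha]
    rw [h0, Submodule.mem_bot] at hmem
    have := congrFun hmem b
    simp only [Pi.sub_apply, cst, hb, if_true, Pi.zero_apply] at this
    exact hne (sub_eq_zero.1 this).symm
  unfold dof
  omega

omit [Fintype ι] in
theorem dof_le_delJ (B : Finset β) (inc : ι → Finset β) (v : ι) :
    dof B inc ≤ dof B (H49BK.delJ v inc) :=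
  Submodule.finrank_mono (Mo_mono _ (delJ_subset v inc))

omit [Fintype ι] [DecidableEq ι] in
/-- the bound by the image in the rest and the twists that kill the joints of `x` -/
theorem ker_bound' {K : Type*} [Field K] {B : Finset β} {inc : ι → Finset β}
    {X : ι → Pt K} (x : β) (U : Submodule K (Tw K))
    (hU : ∀ w : Tw K, (∀ j, x ∈ inc j → 2 ≤ (inc j).card → ev w (X j) = 0) → w ∈ U) :
    finrank K (Mo B inc X) ≤ finrank K ((Mo B inc X).map (rx K x)) + finrank K U := by
  have h1 := finrank_map_add_ker (rx K x) (Mo B inc X)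
  have h2 := finrank_map_add_ker (LinearMap.proj (R := K) (φ := fun _ : β => Tw K) x)
    (Mo B inc X ⊓ LinearMap.ker (rx K x))
  have h3 : (Mo B inc X ⊓ LinearMap.ker (rx K x)) ⊓
      LinearMap.ker (LinearMap.proj (R := K) (φ := fun _ : β => Tw K) x) = ⊥ := by
    rw [eq_bot_iff]
    rintro M ⟨⟨_, hM1⟩, hM2⟩
    rw [SetLike.mem_coe, LinearMap.mem_ker] at hM1 hM2
    rw [Submodule.mem_bot]
    funext b
    by_cases hb : b = x
    · rw [hb]; exact hM2
    · have := congrFun hM1 b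
      rw [rx_ne hb] at this
      exact this
  rw [h3, finrank_bot, add_zero] at h2
  have h4 : (Mo B inc X ⊓ LinearMap.ker (rx K x)).map
      (LinearMap.proj (R := K) (φ := fun _ : β => Tw K) x) ≤ U := by
    rintro w ⟨M, ⟨hM, hM1⟩, rfl⟩
    rw [SetLike.mem_coe, LinearMap.mem_ker] at hM1
    apply hU
    intro j hxj hj
    obtain ⟨b, hb, hbx⟩ := Finset.exists_mem_ne (by omega : 1 < (inc j).card) x
    have hMb : M b = 0 := by
      have := congrFun hM1 b
      rwa [rx_ne hbx] at this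
    have := hM.2 j x hxj b hb
    rw [hMb, ev_zero_left] at this
    exact this
  have h5 := Submodule.finrank_mono h4
  omega

omit [Fintype β] [DecidableEq β] [Fintype ι] [DecidableEq ι] in
theorem gp_ne_zero' (e : ι) : gp ι e ≠ 0 := by
  have := gp_linearIndependent (n := 1) (by norm_num) (fun _ : Fin 1 => e)
    (fun a b _ => Subsingleton.elim a b)
  exact this.ne_zero 0

omit [Fintype ι] in
theorem ext0 {B : Finset β} {inc : ι → Finset β} (_hsub : ∀ j, inc j ⊆ B) (x : β) :
    dof B inc ≤ dof (B.erase x) (H49BK.delB x inc) + 6 := by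
  have h1 := ker_bound' (K := GF ι) (B := B) (inc := inc) (X := gp ι) x ⊤
    (fun _ _ => Submodule.mem_top)
  rw [finrank_top] at h1
  have h6 : finrank (GF ι) (Tw (GF ι)) = 6 := by simp
  have h2 := Submodule.finrank_mono (map_rx_le' (K := GF ι) (B := B) (inc := inc)
    (X := gp ι) x)
  unfold dof
  omega

theorem ext1 {B : Finset β} {inc : ι → Finset β} (_hsub : ∀ j, inc j ⊆ B) (x : β) (hd : 1 ≤ (Jx inc x).card) :
    dof B inc ≤ dof (B.erase x) (H49BK.delB x inc) + 3 := by
  obtain ⟨e, he⟩ := Finset.card_pos.1 hd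
  rw [mem_Jx] at he
  have h1 := ker_bound' (K := GF ι) (B := B) (inc := inc) (X := gp ι) x (van1 (gp ι e))
    (fun w hw => hw e he.1 he.2)
  rw [finrank_van1 (gp_ne_zero' e)] at h1
  have h2 := Submodule.finrank_mono (map_rx_le' (K := GF ι) (B := B) (inc := inc)
    (X := gp ι) x)
  unfold dof
  omega

theorem ext2 {B : Finset β} {inc : ι → Finset β} (_hsub : ∀ j, inc j ⊆ B) (x : β) (hd : 2 ≤ (Jx inc x).card) :
    dof B inc ≤ dof (B.erase x) (H49BK.delB x inc) + 1 := by
  obtain ⟨e, he, f, hf, hef⟩ := Finset.one_lt_card.1 hd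
  rw [mem_Jx] at he hf
  have h1 := ker_bound' (K := GF ι) (B := B) (inc := inc) (X := gp ι) x
    (van1 (gp ι e) ⊓ van1 (gp ι f)) (fun w hw => ⟨hw e he.1 he.2, hw f hf.1 hf.2⟩)
  rw [finrank_van2 (gp_pair hef)] at h1
  have h2 := Submodule.finrank_mono (map_rx_le' (K := GF ι) (B := B) (inc := inc)
    (X := gp ι) x)
  unfold dof
  omega

omit [Fintype β] [DecidableEq β] [Fintype ι] [DecidableEq ι] in
theorem gp_triple {e f g : ι} (hef : e ≠ f) (heg : e ≠ g) (hfg : f ≠ g) :
    LinearIndependent (GF ι) ![gp ι e, gp ι f, gp ι g] := by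
  have := gp_linearIndependent (n := 3) (by norm_num) ![e, f, g] (by
    intro i j hij
    fin_cases i <;> fin_cases j <;> simp_all)
  have heq : ![gp ι e, gp ι f, gp ι g] = fun i => gp ι (![e, f, g] i) := by
    funext i; fin_cases i <;> rfl
  rw [heq]; exact this

omit [Fintype β] [DecidableEq β] [Fintype ι] [DecidableEq ι] in
theorem gp_quad {e f g h : ι} (hef : e ≠ f) (heg : e ≠ g) (heh : e ≠ h) (hfg : f ≠ g)
    (hfh : f ≠ h) (hgh : g ≠ h) :
    LinearIndependent (GF ι) ![gp ι e, gp ι f, gp ι g, gp ι h] := by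
  have := gp_linearIndependent (n := 4) (by norm_num) ![e, f, g, h] (by
    intro i j hij
    fin_cases i <;> fin_cases j <;> simp_all)
  have heq : ![gp ι e, gp ι f, gp ι g, gp ι h] = fun i => gp ι (![e, f, g, h] i) := by
    funext i; fin_cases i <;> rfl
  rw [heq]; exact this

theorem ext3 {B : Finset β} {inc : ι → Finset β} (_hsub : ∀ j, inc j ⊆ B) (x : β) (hd : 3 ≤ (Jx inc x).card) :
    dof B inc ≤ dof (B.erase x) (H49BK.delB x inc) := by
  obtain ⟨e, f, g, he, hf, hg, hef, heg, hfg⟩ := Finset.two_lt_card_iff.1 hd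
  rw [mem_Jx] at he hf hg
  have h1 := ker_bound' (K := GF ι) (B := B) (inc := inc) (X := gp ι) x ⊥
    (fun w hw => tw_three (gp_triple hef heg hfg) (hw e he.1 he.2) (hw f hf.1 hf.2)
      (hw g hg.1 hg.2))
  rw [finrank_bot, add_zero] at h1
  have h2 := Submodule.finrank_mono (map_rx_le' (K := GF ι) (B := B) (inc := inc)
    (X := gp ι) x)
  unfold dof
  omega

omit [Fintype β] [DecidableEq ι] in
theorem common_le {B : Finset β} {inc : ι → Finset β} (hsub : ∀ j, inc j ⊆ B)
    (hNR : NRi B inc) {a b : β} (hab : a ≠ b) :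
    (Finset.univ.filter (fun j => a ∈ inc j ∧ b ∈ inc j)).card ≤ 2 := by
  by_contra hcon
  push Not at hcon
  obtain ⟨e, f, g, he, hf, hg, hef, heg, hfg⟩ := Finset.two_lt_card_iff.1 hcon
  rw [Finset.mem_filter] at he hf hg
  obtain ⟨M, hM, hne⟩ := hNR a (hsub e he.2.1) b (hsub e he.2.2) hab
  apply hne
  rw [← sub_eq_zero]
  apply tw_three (gp_triple hef heg hfg)
  · rw [ev_sub_left, hM.2 e a he.2.1 b he.2.2, sub_self]
  · rw [ev_sub_left, hM.2 f a hf.2.1 b hf.2.2, sub_self]
  · rw [ev_sub_left, hM.2 g a hg.2.1 b hg.2.2, sub_self]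

omit [Fintype β] [DecidableEq β] [Fintype ι] [DecidableEq ι] in
theorem common_false {B : Finset β} {inc : ι → Finset β} (hsub : ∀ j, inc j ⊆ B)
    (hNR : NRi B inc) {a b : β} (hab : a ≠ b) {e f g : ι} (hef : e ≠ f) (heg : e ≠ g)
    (hfg : f ≠ g) (hae : a ∈ inc e) (hbe : b ∈ inc e) (haf : a ∈ inc f) (hbf : b ∈ inc f)
    (hag : a ∈ inc g) (hbg : b ∈ inc g) : False := by
  obtain ⟨M, hM, hne⟩ := hNR a (hsub e hae) b (hsub e hbe) hab
  apply hne
  rw [← sub_eq_zero]
  apply tw_three (gp_triple hef heg hfg)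
  · rw [ev_sub_left, hM.2 e a hae b hbe, sub_self]
  · rw [ev_sub_left, hM.2 f a haf b hbf, sub_self]
  · rw [ev_sub_left, hM.2 g a hag b hbg, sub_self]

end dim

end Pool.Agent.H49BK
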